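import Pool.Agent.MP_f32cb9_nt.Moment

set_option autoImplicit false

open Finset

/-!
# Uniform windows: sieve configurations

The primes in `(2 ^ g, 2 ^ E]` are divided into dyadic blocks. For every `j` in a finite set `J` the
numbers `t` with `p ∣ M t - j` for some prime `p` in `(2 ^ g, 2 ^ l j]` are removed.
-/

namespace Pool.Agent.MP_f32cb9_nt.UW

open Pool.Agent.MP_f32cb9_nt

/-- a sieve configuration -/
structure Cfg where
  E : ℕ
  g : ℕ
  M : ℕ
  J : Finset ℕ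
  l : ℕ → ℕ

namespace Cfg

variable (c : Cfg)

/-- the exponents of the ends of the blocks -/
def e (i : ℕ) : ℕ := c.E / 2 ^ i

/-- the blocks of primes -/
noncomputable def B (i : ℕ) : Finset ℕ := PI (2 ^ max (c.e (i + 1)) c.g) (2 ^ c.e i)

/-- the residues which are removed -/
noncomputable def R (p : ℕ) : Finset ℕ :=
  (range p).filter (fun r => ∃ j ∈ c.J, p ≤ 2 ^ c.l j ∧ c.M * r ≡ j [MOD p])

/-- the number of forms in a block -/
def cnt (i : ℕ) : ℕ := (c.J.filter (fun j => c.e (i + 1) < c.l j)).card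

/-- the depth in a block -/
def b (i : ℕ) : ℕ := 20 * c.cnt i + i + 4

/-- the number of blocks -/
def m : ℕ := Nat.log 2 c.E + 1

/-- the conditions on a configuration -/
structure Ok (c : Cfg) : Prop where
  g16 : 16 ≤ c.g
  M0 : ∀ p : ℕ, p.Prime → 2 ^ c.g < p → ¬ p ∣ c.M
  D : 2 * c.J.card + 2 ≤ 2 ^ c.g
  S : ∑ i ∈ range c.m, (c.cnt i : ℝ) / 2 ^ i ≤ 4
  L : 4 * ∑ i ∈ range c.m, c.cnt i ≤ c.E
  E6 : 6 ≤ c.E
  lE : ∀ j ∈ c.J, c.l j ≤ c.E

theorem e_zero : c.e 0 = c.E := by simp [e]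

theorem e_m : c.e c.m = 0 := by
  unfold e m
  exact Nat.div_eq_of_lt (Nat.lt_pow_succ_log_self (by norm_num) _)

theorem e_anti : Antitone c.e := by
  intro i j hij
  unfold e
  exact Nat.div_le_div_left (Nat.pow_le_pow_right (by norm_num) hij) (by positivity)

theorem e_succ (i : ℕ) : c.e i ≤ 2 * c.e (i + 1) + 1 := by
  unfold e
  rw [pow_succ, ← Nat.div_div_eq_div_mul]
  omega

theorem e_le (i : ℕ) : (c.e i : ℝ) ≤ c.E / 2 ^ i := by
  unfold e
  have := @Nat.cast_div_le ℝ _ _ _ c.E (2 ^ i)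
  push_cast at this
  exact this

theorem mem_B {i p : ℕ} :
    p ∈ c.B i ↔ 2 ^ c.e (i + 1) < p ∧ 2 ^ c.g < p ∧ p ≤ 2 ^ c.e i ∧ p.Prime := by
  unfold B
  rw [mem_PI]
  have h : 2 ^ max (c.e (i + 1)) c.g = max (2 ^ c.e (i + 1)) (2 ^ c.g) := by
    rcases le_total (c.e (i + 1)) c.g with h | h
    · rw [max_eq_right h, max_eq_right (Nat.pow_le_pow_right (by norm_num) h)]
    · rw [max_eq_left h, max_eq_left (Nat.pow_le_pow_right (by norm_num) h)]
  rw [h, max_lt_iff]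
  tauto

theorem B_disj {i j : ℕ} (hij : i ≠ j) : Disjoint (c.B i) (c.B j) := by
  rw [Finset.disjoint_left]
  intro p hp hq
  rw [mem_B] at hp hq
  rcases lt_or_gt_of_ne hij with h | h
  · have := Nat.pow_le_pow_right (n := 2) (by norm_num) (c.e_anti (Nat.succ_le_of_lt h))
    have := hp.1
    have := hq.2.2.1
    simp only [Nat.succ_eq_add_one] at *
    omega
  · have := Nat.pow_le_pow_right (n := 2) (by norm_num) (c.e_anti (Nat.succ_le_of_lt h))
    have := hq.1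
    have := hp.2.2.1
    simp only [Nat.succ_eq_add_one] at *
    omega

theorem B_cover {p : ℕ} (hp : p.Prime) (hgp : 2 ^ c.g < p) (hpE : p ≤ 2 ^ c.E) :
    ∃ i < c.m, p ∈ c.B i := by
  classical
  have hex : ∃ n, ¬ p ≤ 2 ^ c.e n := by
    refine ⟨c.m, ?_⟩
    rw [c.e_m]
    have := hp.two_le
    omega
  have h0 : p ≤ 2 ^ c.e 0 := by rw [c.e_zero]; exact hpE
  have hn1 : ¬ p ≤ 2 ^ c.e (Nat.find hex) := Nat.find_spec hex
  have hn0 : Nat.find hex ≠ 0 := by
    intro h; rw [h] at hn1; exact hn1 h0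
  obtain ⟨i, hin⟩ : ∃ i, Nat.find hex = i + 1 := ⟨Nat.find hex - 1, by omega⟩
  rw [hin] at hn1
  have hi : p ≤ 2 ^ c.e i := by
    by_contra h
    have := Nat.find_min' hex h
    omega
  refine ⟨i, ?_, c.mem_B.2 ⟨by omega, hgp, hi, hp⟩⟩
  have : Nat.find hex ≤ c.m := by
    apply Nat.find_min' hex
    rw [c.e_m]
    have := hp.two_le
    omega
  omega

theorem B_prime (m : ℕ) : ∀ i < m, ∀ p ∈ c.B i, p.Prime :=
  fun _ _ _ hp => (c.mem_B.1 hp).2.2.2

theorem R_subset (p : ℕ) : c.R p ⊆ range p := Finset.filter_subset _ _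

theorem mod_mem_R {p t : ℕ} (hp : 0 < p) :
    t % p ∈ c.R p ↔ ∃ j ∈ c.J, p ≤ 2 ^ c.l j ∧ c.M * t ≡ j [MOD p] := by
  unfold R
  rw [Finset.mem_filter, mem_range]
  have h : c.M * (t % p) ≡ c.M * t [MOD p] := Nat.ModEq.mul_left _ (Nat.mod_modEq t p)
  constructor
  · rintro ⟨_, j, h1, h2, h3⟩
    exact ⟨j, h1, h2, h.symm.trans h3⟩
  · rintro ⟨j, h1, h2, h3⟩
    exact ⟨Nat.mod_lt _ hp, j, h1, h2, h.trans h3⟩

theorem R_card {i p : ℕ} (hp : p ∈ c.B i) (hM : ¬ p ∣ c.M) : (c.R p).card ≤ c.cnt i := by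
  classical
  rw [mem_B] at hp
  obtain ⟨hp1, hp2, hp3, hpp⟩ := hp
  have hcop : Nat.Coprime p c.M := (Nat.Prime.coprime_iff_not_dvd hpp).2 hM
  have hmap : ∀ r ∈ c.R p, ∃ j, (j ∈ c.J ∧ p ≤ 2 ^ c.l j) ∧ c.M * r ≡ j [MOD p] := by
    intro r hr
    unfold R at hr
    obtain ⟨_, j, h1, h2, h3⟩ := Finset.mem_filter.1 hr
    exact ⟨j, ⟨h1, h2⟩, h3⟩
  choose! f hf using hmap
  unfold cnt
  apply Finset.card_le_card_of_injOn f
  · intro r hr
    obtain ⟨⟨h1, h2⟩, _⟩ := hf r hr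
    rw [Finset.mem_coe, Finset.mem_filter]
    refine ⟨h1, ?_⟩
    by_contra hcon
    have := Nat.pow_le_pow_right (n := 2) (by norm_num) (not_lt.1 hcon)
    omega
  · intro r hr r' hr' hrr
    have h1 := (hf r hr).2
    have h2 := (hf r' hr').2
    rw [← hrr] at h2
    have h3 : c.M * r ≡ c.M * r' [MOD p] := h1.trans h2.symm
    have h4 : r ≡ r' [MOD p] := Nat.ModEq.cancel_left_of_coprime hcop h3
    have e1 : r < p := mem_range.1 (R_subset _ _ hr)
    have e2 : r' < p := mem_range.1 (R_subset _ _ hr')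
    unfold Nat.ModEq at h4
    rwa [Nat.mod_eq_of_lt e1, Nat.mod_eq_of_lt e2] at h4

theorem cnt_le (i : ℕ) : c.cnt i ≤ c.J.card := Finset.card_le_card (Finset.filter_subset _ _)

variable {c}

theorem R_card' (h : c.Ok) {i p : ℕ} (hp : p ∈ c.B i) : (c.R p).card ≤ c.cnt i :=
  c.R_card hp (h.M0 p (c.mem_B.1 hp).2.2.2 (c.mem_B.1 hp).2.1)

theorem dens_bounds (h : c.Ok) {i p : ℕ} (hp : p ∈ c.B i) :
    0 ≤ dens c.R p ∧ dens c.R p ≤ 1 / 2 := by
  have hp' := c.mem_B.1 hp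
  have hc := (R_card' h hp).trans (c.cnt_le i)
  have hD := h.D
  have hp0 : (0 : ℝ) < p := by exact_mod_cast hp'.2.2.2.pos
  unfold dens
  refine ⟨by positivity, ?_⟩
  rw [div_le_div_iff₀ hp0 (by norm_num)]
  have h1 : (c.R p).card * 2 ≤ 1 * p := by omega
  exact_mod_cast h1

theorem dens_le (h : c.Ok) {i p : ℕ} (hp : p ∈ c.B i) : dens c.R p ≤ (c.J.card : ℝ) / p := by
  have hp' := c.mem_B.1 hp
  have hc := (R_card' h hp).trans (c.cnt_le i)
  unfold dens
  gcongr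

theorem kappa_le (h : c.Ok) (i : ℕ) : ∑ p ∈ c.B i, dens c.R p ≤ 2 * c.cnt i := by
  by_cases hlt : max (c.e (i + 1)) c.g < c.e i
  · have h1 : ∀ p ∈ c.B i, dens c.R p ≤ c.cnt i * (1 / p : ℝ) := by
      intro p hp
      have hc := R_card' h hp
      unfold dens
      rw [mul_one_div]
      gcongr
    refine (Finset.sum_le_sum h1).trans ?_
    rw [← Finset.mul_sum]
    have h2 : ∑ p ∈ c.B i, (1 / p : ℝ) ≤ 2 := by
      set s := max (c.e (i + 1)) c.g with hs
      have hg := h.g16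
      have hs16 : 16 ≤ s := hg.trans (le_max_right _ _)
      have h3 := sum_inv_PI_two (s := s) (t := c.e i) (by omega) hlt.le
      have hs16' : (16 : ℝ) ≤ s := by exact_mod_cast hs16
      have hs0 : (0 : ℝ) < s := by linarith
      have he : (c.e i : ℝ) ≤ 2 * s + 1 := by
        have h4 := c.e_succ i
        have h5 : c.e (i + 1) ≤ s := le_max_left _ _
        have h6 : c.e i ≤ 2 * s + 1 := by omega
        exact_mod_cast h6
      have he0 : (0 : ℝ) < c.e i := by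
        have : 0 < c.e i := by omega
        exact_mod_cast this
      have h7 : Real.log ((c.e i : ℝ) / s) ≤ (c.e i : ℝ) / s - 1 :=
        Real.log_le_sub_one_of_pos (by positivity)
      have h8 : (c.e i : ℝ) / s ≤ 2 + 1 / 16 := by
        rw [div_le_iff₀ hs0]
        linarith
      have h9 : (8 : ℝ) / s ≤ 8 / 16 := by
        apply div_le_div_of_nonneg_left (by norm_num) (by norm_num) hs16'
      have h10 : ∑ p ∈ c.B i, (1 / p : ℝ) ≤ Real.log ((c.e i : ℝ) / s) + 8 / s := h3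
      linarith
    have hc0 : (0 : ℝ) ≤ c.cnt i := Nat.cast_nonneg _
    nlinarith
  · have : c.B i = ∅ := by
      apply Finset.eq_empty_of_forall_notMem
      intro p hp
      unfold B at hp
      rw [mem_PI] at hp
      have := Nat.pow_le_pow_right (n := 2) (by norm_num) (not_lt.1 hlt)
      omega
    rw [this]
    simp

theorem Vb_ge (h : c.Ok) (i : ℕ) : Real.exp (-(4 * c.cnt i)) ≤ Vb c.R c.B i := by
  unfold Vb
  have h1 : ∏ p ∈ c.B i, Real.exp (-(2 * dens c.R p)) ≤ ∏ p ∈ c.B i, (1 - dens c.R p) := by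
    apply Finset.prod_le_prod
    · intro p _; positivity
    · intro p hp
      obtain ⟨h2, h3⟩ := dens_bounds h hp
      exact one_sub_ge_exp h2 h3
  refine le_trans ?_ h1
  rw [← Real.exp_sum]
  apply Real.exp_le_exp.2
  rw [Finset.sum_neg_distrib, ← Finset.mul_sum]
  linarith [kappa_le h i]

end Cfg

end Pool.Agent.MP_f32cb9_nt.UW
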