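import Pool.Agent.MP_f32cb9_nt.UW.A9
import Pool.Agent.MP_f32cb9_nt.Avg
import Pool.Agent.Lib.helper69.DivisorBound

set_option autoImplicit false

open Finset Filter

/-!
# Uniform windows: constants and bounds of the sums
-/

namespace Pool.Agent.MP_f32cb9_nt.UW

open Pool.Agent.MP_f32cb9_nt

/-- the exponent `- log log 2 / log 2 = 0.5288...` -/
noncomputable def kap : ℝ := -Real.log (Real.log 2) / Real.log 2

/-- the exponent `(1 + log log 2) / log 2 = 0.9139...` -/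
noncomputable def thet : ℝ := (1 + Real.log (Real.log 2)) / Real.log 2

/-- `1 / log 2 - 1` -/
noncomputable def v2 : ℝ := 1 / Real.log 2 - 1

/-- `e - 1` -/
noncomputable def v1 : ℝ := Real.exp 1 - 1

theorem l2_bds : 0 < Real.log 2 ∧ Real.log 2 < 0.7 ∧ 0.69 < Real.log 2 := by
  have h1 := Real.log_two_gt_d9
  have h2 := Real.log_two_lt_d9
  refine ⟨by linarith, by linarith, by linarith⟩

theorem kap_pos : 0 < kap := by
  obtain ⟨h0, h1, h2⟩ := l2_bds
  unfold kap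
  have : Real.log (Real.log 2) < 0 := Real.log_neg h0 (by linarith)
  apply div_pos (by linarith) h0

theorem kap_le : kap ≤ 1 := by
  obtain ⟨h0, h1, h2⟩ := l2_bds
  unfold kap
  rw [div_le_one h0, ← Real.log_inv]
  apply Real.log_le_log (by positivity)
  rw [inv_le_comm₀ h0 (by norm_num)]
  linarith

theorem thet_add : thet + kap = 1 + v2 := by
  obtain ⟨h0, _, _⟩ := l2_bds
  unfold thet kap v2
  field_simp
  ring

theorem two_kap : (2 : ℝ) ^ kap = 1 + v2 := by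
  obtain ⟨h0, _, _⟩ := l2_bds
  unfold kap v2
  rw [Real.rpow_def_of_pos (by norm_num), mul_div_cancel₀ _ h0.ne', Real.exp_neg,
    Real.exp_log h0]
  ring

theorem v2_pos : 0 < v2 := by
  obtain ⟨h0, h1, _⟩ := l2_bds
  unfold v2
  rw [sub_pos, lt_div_iff₀ h0]
  linarith

theorem v2_le : v2 ≤ 1 := by
  obtain ⟨h0, _, h2⟩ := l2_bds
  unfold v2
  have : 1 / Real.log 2 ≤ 2 := by
    rw [div_le_iff₀ h0]; linarith
  linarith

theorem thet_ge : 1 / 3 ≤ thet := by
  obtain ⟨h0, h1, h2⟩ := l2_bds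
  have h3 := thet_add
  have h4 := kap_le
  have h5 : 4 / 3 ≤ 1 + v2 := by
    unfold v2
    have : 4 / 3 ≤ 1 / Real.log 2 := by
      rw [le_div_iff₀ h0]; linarith
    linarith
  linarith

theorem v1_bds : 1.7 < v1 ∧ v1 < 1.72 := by
  have h1 := Real.exp_one_gt_d9
  have h2 := Real.exp_one_lt_d9
  unfold v1
  constructor <;> linarith

theorem rho_lt {v : ℝ} (h0 : 0 < v) (h3 : v < 3) : 4 / 3 * (v / (1 + v)) < 1 := by
  rw [mul_div_assoc', div_lt_one (by linarith)]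
  linarith

theorem two_pow_eq (n : ℕ) : (2 : ℝ) ^ n = ((1 + v1) ^ n) ^ Real.log 2 := by
  have e : 1 + v1 = Real.exp 1 := by unfold v1; ring
  rw [e, ← Real.rpow_natCast, ← Real.rpow_natCast, ← Real.rpow_mul (Real.exp_pos _).le,
    Real.rpow_def_of_pos (by norm_num : (0 : ℝ) < 2), Real.exp_one_rpow]
  ring_nf

/-- sums over `j` of `j ^ (-(1 + ε / 2))` -/
theorem sum_rpow_le {ε : ℝ} (hε : 0 < ε) (s : Finset ℕ) :
    ∑ j ∈ s, (j : ℝ) ^ (-(1 + ε / 2)) ≤ ZZ (ε / 2) := by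
  refine le_trans (le_of_eq ?_) (sum_le_ZZ (by linarith : 0 < ε / 2) s)
  apply Finset.sum_congr rfl
  intro j _
  rw [Real.rpow_neg (Nat.cast_nonneg _), one_div]

/-- the hypotheses on the parameters -/
structure Prm (δ ε a c₀ η D : ℝ) : Prop where
  d0 : 0 < δ
  d2 : δ ≤ 1 / 2
  e0 : 0 < ε
  a0 : 0 < a
  c0 : 0 < c₀
  n0 : 0 < η
  cond : a / (1 - δ) - 1 ≤ ε / 4
  D1 : 1 ≤ D
  div : ∀ n : ℕ, 1 ≤ n → (n.divisors.card : ℝ) ≤ D * (n : ℝ) ^ (ε / 4)

variable {δ ε a c₀ η D : ℝ}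

theorem gam_neg (p : Prm δ ε a c₀ η D) {g : ℝ} {j : ℕ} (hj : 1 ≤ j) (hg : c₀ * (j : ℝ) ^ (-a) ≤ g)
    {v : ℝ} (hv : 0 < v) :
    g ^ (-(v / (1 - δ))) ≤ c₀ ^ (-(v / (1 - δ))) * (j : ℝ) ^ (v * (a / (1 - δ))) := by
  have hj0 : (0 : ℝ) < j := by exact_mod_cast hj
  have h1 : 0 < 1 - δ := by linarith [p.d2]
  have h2 : 0 < c₀ * (j : ℝ) ^ (-a) := mul_pos p.c0 (by positivity)
  have h3 : -(v / (1 - δ)) ≤ 0 := by
    have : 0 < v / (1 - δ) := by positivity
    linarith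
  refine (Real.rpow_le_rpow_of_nonpos h2 hg h3).trans (le_of_eq ?_)
  rw [Real.mul_rpow p.c0.le (by positivity), ← Real.rpow_mul hj0.le]
  congr 2
  ring

/-- bound for the second weights -/
theorem beta_sum (p : Prm δ ε a c₀ η D) {C4 : ℝ} (hC4 : 0 < C4) {γ : ℕ → ℝ}
    (hγ : ∀ j : ℕ, 1 ≤ j → c₀ * (j : ℝ) ^ (-a) ≤ γ j) (s : Finset ℕ) (hs : ∀ j ∈ s, 1 ≤ j) :
    ∑ j ∈ s, ((j : ℝ) ^ (-(thet + ε)) * (C4 * j.divisors.card / j) ^ kap) *
        (γ j) ^ (-(v2 / (1 - δ))) ≤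
      (C4 * D) ^ kap * c₀ ^ (-(v2 / (1 - δ))) * ZZ (ε / 2) := by
  have hterm : ∀ j ∈ s, ((j : ℝ) ^ (-(thet + ε)) * (C4 * j.divisors.card / j) ^ kap) *
        (γ j) ^ (-(v2 / (1 - δ))) ≤
      (C4 * D) ^ kap * c₀ ^ (-(v2 / (1 - δ))) * (j : ℝ) ^ (-(1 + ε / 2)) := by
    intro j hj
    have hj1 := hs j hj
    have hj0 : (0 : ℝ) < j := by exact_mod_cast hj1
    have hjone : (1 : ℝ) ≤ j := by exact_mod_cast hj1
    have h1 := gam_neg p hj1 (hγ j hj1) v2_pos
    have hD := p.D1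
    have h2 : (C4 * j.divisors.card / j) ^ kap ≤ (C4 * D) ^ kap * (j : ℝ) ^ (kap * (ε / 4 - 1)) := by
      have h3 : C4 * j.divisors.card / j ≤ C4 * D * (j : ℝ) ^ (ε / 4 - 1) := by
        rw [div_le_iff₀ hj0]
        have h4 := p.div j hj1
        have h5 : (j : ℝ) ^ (ε / 4 - 1) * j = (j : ℝ) ^ (ε / 4) := by
          nth_rewrite 2 [← Real.rpow_one (j : ℝ)]
          rw [← Real.rpow_add hj0]
          congr 1; ring
        calc C4 * j.divisors.card ≤ C4 * (D * (j : ℝ) ^ (ε / 4)) := by gcongr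
          _ = C4 * D * ((j : ℝ) ^ (ε / 4 - 1) * j) := by rw [h5]; ring
          _ = _ := by ring
      refine (Real.rpow_le_rpow (by positivity) h3 kap_pos.le).trans (le_of_eq ?_)
      rw [Real.mul_rpow (by positivity) (by positivity), ← Real.rpow_mul hj0.le]
      congr 2
      ring
    calc ((j : ℝ) ^ (-(thet + ε)) * (C4 * j.divisors.card / j) ^ kap) * (γ j) ^ (-(v2 / (1 - δ)))
        ≤ ((j : ℝ) ^ (-(thet + ε)) * ((C4 * D) ^ kap * (j : ℝ) ^ (kap * (ε / 4 - 1)))) *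
          (c₀ ^ (-(v2 / (1 - δ))) * (j : ℝ) ^ (v2 * (a / (1 - δ)))) := by
          have h5 : 0 < γ j := lt_of_lt_of_le (mul_pos p.c0 (by positivity)) (hγ j hj1)
          gcongr
      _ = (C4 * D) ^ kap * c₀ ^ (-(v2 / (1 - δ))) *
          (j : ℝ) ^ (-(thet + ε) + kap * (ε / 4 - 1) + v2 * (a / (1 - δ))) := by
          rw [Real.rpow_add hj0, Real.rpow_add hj0]; ring
      _ ≤ _ := by
          have hc : 0 ≤ (C4 * D) ^ kap * c₀ ^ (-(v2 / (1 - δ))) := by
            have := p.c0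
            positivity
          apply mul_le_mul_of_nonneg_left _ hc
          apply Real.rpow_le_rpow_of_exponent_le hjone
          have h6 := thet_add
          have h7 := kap_le
          have h8 := kap_pos
          have h9 := v2_pos
          have h10 := v2_le
          have h11 := p.cond
          have h12 := p.e0
          have h13 : v2 * (a / (1 - δ) - 1) ≤ ε / 4 := by
            have h14 : v2 * (a / (1 - δ) - 1) ≤ v2 * (ε / 4) := mul_le_mul_of_nonneg_left h11 h9.le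
            nlinarith
          have h15 : kap * (ε / 4) ≤ ε / 4 := by nlinarith
          nlinarith
  refine (Finset.sum_le_sum hterm).trans ?_
  rw [← Finset.mul_sum]
  apply mul_le_mul_of_nonneg_left (sum_rpow_le p.e0 s)
  have := p.c0
  have := p.D1
  positivity

/-- bound for the third weights -/
theorem theta_sum (p : Prm δ ε a c₀ η D) {C4 : ℝ} (hC4 : 0 < C4) {γ : ℕ → ℝ}
    (hγ : ∀ j : ℕ, 1 ≤ j → c₀ * (j : ℝ) ^ (-a) ≤ γ j) (s : Finset ℕ) (hs : ∀ j ∈ s, 1 ≤ j) :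
    ∑ j ∈ s, ((j : ℝ) ^ (-(2 + ε)) * (C4 * j.divisors.card)) * (γ j) ^ (-(1 / (1 - δ))) ≤
      C4 * D * c₀ ^ (-(1 / (1 - δ))) * ZZ (ε / 2) := by
  have hterm : ∀ j ∈ s, ((j : ℝ) ^ (-(2 + ε)) * (C4 * j.divisors.card)) *
        (γ j) ^ (-(1 / (1 - δ))) ≤
      C4 * D * c₀ ^ (-(1 / (1 - δ))) * (j : ℝ) ^ (-(1 + ε / 2)) := by
    intro j hj
    have hj1 := hs j hj
    have hj0 : (0 : ℝ) < j := by exact_mod_cast hj1
    have hjone : (1 : ℝ) ≤ j := by exact_mod_cast hj1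
    have h1 := gam_neg p hj1 (hγ j hj1) one_pos
    have hD := p.D1
    have h4 := p.div j hj1
    calc ((j : ℝ) ^ (-(2 + ε)) * (C4 * j.divisors.card)) * (γ j) ^ (-(1 / (1 - δ)))
        ≤ ((j : ℝ) ^ (-(2 + ε)) * (C4 * (D * (j : ℝ) ^ (ε / 4)))) *
          (c₀ ^ (-(1 / (1 - δ))) * (j : ℝ) ^ (1 * (a / (1 - δ)))) := by
          have h5 : 0 < γ j := lt_of_lt_of_le (mul_pos p.c0 (by positivity)) (hγ j hj1)
          gcongr
      _ = C4 * D * c₀ ^ (-(1 / (1 - δ))) *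
          (j : ℝ) ^ (-(2 + ε) + ε / 4 + 1 * (a / (1 - δ))) := by
          rw [Real.rpow_add hj0, Real.rpow_add hj0]; ring
      _ ≤ _ := by
          have hc : 0 ≤ C4 * D * c₀ ^ (-(1 / (1 - δ))) := by
            have := p.c0
            positivity
          apply mul_le_mul_of_nonneg_left _ hc
          apply Real.rpow_le_rpow_of_exponent_le hjone
          have h11 := p.cond
          have h12 := p.e0
          linarith
  refine (Finset.sum_le_sum hterm).trans ?_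
  rw [← Finset.mul_sum]
  apply mul_le_mul_of_nonneg_left (sum_rpow_le p.e0 s)
  have := p.c0
  have := p.D1
  positivity

/-- bound for the weights of the large `j` -/
theorem zeta_sum (p : Prm δ ε a c₀ η D) {γ : ℕ → ℝ} (hγ : Wts γ)
    (hup : ∀ j : ℕ, 1 ≤ j → γ j ≤ (j : ℝ) ^ (-η)) {A : ℝ} (hA : 3 / 2 ≤ A) {B : ℕ} (hB3 : 3 ≤ B)
    (hBη : 2 ≤ B * η) {E w : ℕ} (hE : 1 ≤ E) (hw : (E : ℝ) ^ B ≤ (2 : ℝ) ^ w) (N : ℕ) :
    ∑ j ∈ Ico (2 ^ w) N, ((γ j) ^ A / j.divisors.card + (j : ℝ) ^ (-(thet + ε) - 1) +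
        (j : ℝ) ^ (-(2 + ε))) * j.divisors.card ≤ (1 + 2 * D * ZZ (ε / 2)) / E := by
  have hE0 : (0 : ℝ) < E := by exact_mod_cast hE
  have hE1 : (1 : ℝ) ≤ E := by exact_mod_cast hE
  have hD := p.D1
  have hterm : ∀ j ∈ Ico (2 ^ w) N, ((γ j) ^ A / j.divisors.card + (j : ℝ) ^ (-(thet + ε) - 1) +
        (j : ℝ) ^ (-(2 + ε))) * j.divisors.card ≤
      1 / E * γ j + 2 * D / E * (j : ℝ) ^ (-(1 + ε / 2)) := by
    intro j hj
    obtain ⟨hj1, hj2⟩ := mem_Ico.1 hj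
    have hjpos : 1 ≤ j := Nat.one_le_two_pow.trans hj1
    have hj0 : (0 : ℝ) < j := by exact_mod_cast hjpos
    have hjone : (1 : ℝ) ≤ j := by exact_mod_cast hjpos
    have hjE : (E : ℝ) ^ B ≤ j := by
      refine hw.trans ?_
      exact_mod_cast hj1
    have hτ : (0 : ℝ) < j.divisors.card := by
      have : 0 < j.divisors.card := Finset.card_pos.2 ⟨1, Nat.one_mem_divisors.2 (by omega)⟩
      exact_mod_cast this
    have hγ0 := hγ.pos j hjpos
    -- any power of j of exponent at least 1 / B exceeds E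
    have hpow : ∀ x : ℝ, 1 ≤ B * x → (j : ℝ) ^ (-x) ≤ 1 / E := by
      intro x hx
      have hB0 : (0 : ℝ) < B := by exact_mod_cast (by omega : 0 < B)
      have hx0 : 0 < x := by
        by_contra hcon
        have : (B : ℝ) * x ≤ 0 := mul_nonpos_of_nonneg_of_nonpos hB0.le (not_lt.1 hcon)
        linarith
      rw [Real.rpow_neg hj0.le, one_div]
      apply inv_anti₀ hE0
      calc (E : ℝ) = (E : ℝ) ^ (1 : ℝ) := (Real.rpow_one _).symm
        _ ≤ (E : ℝ) ^ (B * x) := Real.rpow_le_rpow_of_exponent_le hE1 hx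
        _ = ((E : ℝ) ^ B) ^ x := by rw [Real.rpow_mul hE0.le, Real.rpow_natCast]
        _ ≤ (j : ℝ) ^ x := Real.rpow_le_rpow (by positivity) hjE hx0.le
    have h1 : (γ j) ^ A ≤ 1 / E * γ j := by
      have h2 : (γ j) ^ A = (γ j) ^ (A - 1) * γ j := by
        nth_rewrite 3 [← Real.rpow_one (γ j)]
        rw [← Real.rpow_add hγ0]
        congr 1; ring
      rw [h2]
      apply mul_le_mul_of_nonneg_right _ hγ0.le
      calc (γ j) ^ (A - 1) ≤ ((j : ℝ) ^ (-η)) ^ (A - 1) :=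
            Real.rpow_le_rpow hγ0.le (hup j hjpos) (by linarith)
        _ = (j : ℝ) ^ (-(η * (A - 1))) := by
            rw [← Real.rpow_mul hj0.le]; congr 1; ring
        _ ≤ 1 / E := by
            apply hpow
            have hn := p.n0
            have hBη0 : 0 < (B : ℝ) * η := by linarith
            have : (B : ℝ) * (η * (A - 1)) = (B * η) * (A - 1) := by ring
            rw [this]
            nlinarith
    have h3 : (j : ℝ) ^ (-(thet + ε) - 1) * j.divisors.card ≤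
        D / E * (j : ℝ) ^ (-(1 + ε / 2)) := by
      have h4 := p.div j hjpos
      calc (j : ℝ) ^ (-(thet + ε) - 1) * j.divisors.card
          ≤ (j : ℝ) ^ (-(thet + ε) - 1) * (D * (j : ℝ) ^ (ε / 4)) := by gcongr
        _ = D * ((j : ℝ) ^ (-thet) * (j : ℝ) ^ (-(1 + 3 * ε / 4))) := by
            rw [← Real.rpow_add hj0, mul_left_comm, ← Real.rpow_add hj0]
            congr 2; ring
        _ ≤ D * (1 / E * (j : ℝ) ^ (-(1 + ε / 2))) := by
            have h5 : (j : ℝ) ^ (-thet) ≤ 1 / E := by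
              apply hpow
              have := thet_ge
              have hB0 : (3 : ℝ) ≤ B := by exact_mod_cast hB3
              nlinarith
            have h6 : (j : ℝ) ^ (-(1 + 3 * ε / 4)) ≤ (j : ℝ) ^ (-(1 + ε / 2)) :=
              Real.rpow_le_rpow_of_exponent_le hjone (by linarith [p.e0])
            gcongr
        _ = _ := by ring
    have h7 : (j : ℝ) ^ (-(2 + ε)) * j.divisors.card ≤ D / E * (j : ℝ) ^ (-(1 + ε / 2)) := by
      have h4 := p.div j hjpos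
      calc (j : ℝ) ^ (-(2 + ε)) * j.divisors.card
          ≤ (j : ℝ) ^ (-(2 + ε)) * (D * (j : ℝ) ^ (ε / 4)) := by gcongr
        _ = D * ((j : ℝ) ^ (-1 : ℝ) * (j : ℝ) ^ (-(1 + 3 * ε / 4))) := by
            rw [← Real.rpow_add hj0, mul_left_comm, ← Real.rpow_add hj0]
            congr 2; ring
        _ ≤ D * (1 / E * (j : ℝ) ^ (-(1 + ε / 2))) := by
            have h5 : (j : ℝ) ^ (-1 : ℝ) ≤ 1 / E := by
              apply hpow
              have hB0 : (3 : ℝ) ≤ B := by exact_mod_cast hB3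
              linarith
            have h6 : (j : ℝ) ^ (-(1 + 3 * ε / 4)) ≤ (j : ℝ) ^ (-(1 + ε / 2)) :=
              Real.rpow_le_rpow_of_exponent_le hjone (by linarith [p.e0])
            gcongr
        _ = _ := by ring
    have e1 : ((γ j) ^ A / j.divisors.card + (j : ℝ) ^ (-(thet + ε) - 1) +
        (j : ℝ) ^ (-(2 + ε))) * j.divisors.card =
        (γ j) ^ A + (j : ℝ) ^ (-(thet + ε) - 1) * j.divisors.card +
        (j : ℝ) ^ (-(2 + ε)) * j.divisors.card := by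
      field_simp
    rw [e1]
    have e2 : 2 * D / E * (j : ℝ) ^ (-(1 + ε / 2)) =
        D / E * (j : ℝ) ^ (-(1 + ε / 2)) + D / E * (j : ℝ) ^ (-(1 + ε / 2)) := by ring
    rw [e2]
    linarith
  refine (Finset.sum_le_sum hterm).trans ?_
  rw [Finset.sum_add_distrib, ← Finset.mul_sum, ← Finset.mul_sum]
  have h1 := hγ.sum (Ico (2 ^ w) N) (fun j hj => Nat.one_le_two_pow.trans (mem_Ico.1 hj).1)
  have h2 := sum_rpow_le p.e0 (Ico (2 ^ w) N)
  calc 1 / (E : ℝ) * ∑ j ∈ Ico (2 ^ w) N, γ j +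
        2 * D / E * ∑ j ∈ Ico (2 ^ w) N, (j : ℝ) ^ (-(1 + ε / 2))
      ≤ 1 / (E : ℝ) * 1 + 2 * D / E * ZZ (ε / 2) := by gcongr
    _ = _ := by ring

end Pool.Agent.MP_f32cb9_nt.UW
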