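import Pool.Agent.MP_f32cb9_nt.UW.A10

set_option autoImplicit false

open Finset Filter

/-!
# Uniform windows: the core statement
-/

namespace Pool.Agent.MP_f32cb9_nt.UW

open Pool.Agent.MP_f32cb9_nt

namespace Cfg

variable {c : Cfg} {w B : ℕ} {δ : ℝ} {γ : ℕ → ℝ}

theorem tau_sub_small (h : Good c w B δ γ) {j t : ℕ} (hj : 1 ≤ j) (hjw : j < 2 ^ w)
    (ht : t ∈ c.I) (hs : ¬ c.Sq (2 ^ (2 * w + 20)) j t) :
    ((c.M * t - j).divisors.card : ℝ) ≤
      (2 ^ (2 * (4 * B + 2)) * j.divisors.card) * 2 ^ (c.L j t).primeFactors.card := by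
  have ht' := lt_Mt h.ok2 hjw ht
  have h1 := tau_sub_le (c := c) (t := t) hj
  have h2 := tau_good h.ok h.ok2 hj hjw ht' (Q := 2 ^ (2 * w + 20)) (κ := 4 * B + 2)
    (Nat.pow_le_pow_right (by norm_num) h.wg) hs
  have h3 : (c.M * t - j).divisors.card ≤
      (2 ^ (2 * (4 * B + 2)) * j.divisors.card) * 2 ^ (c.L j t).primeFactors.card := by
    refine h1.trans ?_
    calc j.divisors.card * (c.L j t).divisors.card
        ≤ j.divisors.card * (2 ^ (2 * (4 * B + 2)) * 2 ^ (c.L j t).primeFactors.card) :=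
          Nat.mul_le_mul_left _ h2
      _ = _ := by ring
  exact_mod_cast h3

end Cfg

/-- the coefficient of the large `j` -/
noncomputable def zc (ε A : ℝ) (γ : ℕ → ℝ) (j : ℕ) : ℝ :=
  (γ j) ^ A / j.divisors.card + (j : ℝ) ^ (-(thet + ε) - 1) + (j : ℝ) ^ (-(2 + ε))

/-- the coefficient in the count of exceptions, small `j` -/
noncomputable def bc (ε C4 : ℝ) (j : ℕ) : ℝ :=
  (j : ℝ) ^ (-(thet + ε)) * (C4 * j.divisors.card / j) ^ kap

/-- the coefficient in the mean, small `j` -/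
noncomputable def tc (ε C4 : ℝ) (j : ℕ) : ℝ :=
  (j : ℝ) ^ (-(2 + ε)) * (C4 * j.divisors.card)

/-- the exponent of the weights -/
noncomputable def A1 (δ : ℝ) : ℝ := 1 + v1 / (1 - δ)

theorem A1_mul {δ : ℝ} (h0 : 0 < δ) (h2 : δ ≤ 1 / 2) : 3 / 2 ≤ Real.log 2 * A1 δ := by
  obtain ⟨l0, l1, l2⟩ := l2_bds
  obtain ⟨a1, a2⟩ := v1_bds
  have h3 : 1.7 ≤ v1 / (1 - δ) := by
    rw [le_div_iff₀ (by linarith)]
    nlinarith
  unfold A1
  nlinarith

open scoped Classical in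
/-- the averaging step -/
theorem exists_good_t {δ ε a c₀ η D : ℝ} (p : Prm δ ε a c₀ η D) {B : ℕ} (hB3 : 3 ≤ B)
    (hBη : 2 ≤ B * η) :
    ∃ K : ℝ, 1 ≤ K ∧ ∀ (c : Cfg) (w : ℕ) (γ : ℕ → ℝ), Good c w B δ γ → Wts γ →
      (∀ j : ℕ, 1 ≤ j → c₀ * (j : ℝ) ^ (-a) ≤ γ j) →
      (∀ j : ℕ, 1 ≤ j → γ j ≤ (j : ℝ) ^ (-η)) → ∀ N : ℕ,
      ∃ U ⊆ c.I, 1 / 18 * ((c.X : ℝ) * c.V) ≤ U.card ∧ ∀ t ∈ U, c.ch t ≠ 0 ∧
        (∀ j ∈ Ico 1 (2 ^ w), (γ j) ^ (A1 δ) * (1 + v1) ^ (c.L j t).primeFactors.card ≤ K) ∧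
        (∑ j ∈ Ico 1 (2 ^ w), bc ε (2 ^ (2 * (4 * B + 2))) j *
            (1 + v2) ^ (c.L j t).primeFactors.card ≤ K) ∧
        (∑ j ∈ Ico 1 (2 ^ w), tc ε (2 ^ (2 * (4 * B + 2))) j *
            (1 + 1) ^ (c.L j t).primeFactors.card ≤ K) ∧
        (∀ j ∈ Ico 1 (2 ^ w), ¬ c.Sq (2 ^ (2 * w + 20)) j t) ∧
        (∑ j ∈ Ico (2 ^ w) N, (if j < c.M * t then
            zc ε (Real.log 2 * A1 δ) γ j * ((c.M * t - j).divisors.card : ℝ) else 0) ≤ K) := by
  have hd := p.d2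
  have hd0 := p.d0
  obtain ⟨a1, a2⟩ := v1_bds
  have hv1 : 0 < v1 := by linarith
  have hρ1 : 4 / 3 * (v1 / (1 + v1)) < 1 := rho_lt hv1 (by linarith)
  have hv2 := v2_pos
  have hρ2 : 4 / 3 * (v2 / (1 + v2)) < 1 := rho_lt hv2 (by linarith [v2_le])
  have hρ3 : 4 / 3 * ((1 : ℝ) / (1 + 1)) < 1 := by norm_num
  set C4 : ℝ := 2 ^ (2 * (4 * B + 2)) with hC4
  have hC4pos : 0 < C4 := by positivity
  have hZ : 0 ≤ ZZ (ε / 2) := by
    have := sum_rpow_le p.e0 ∅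
    simpa using this
  have hD := p.D1
  have hc0 := p.c0
  set S2 : ℝ := (C4 * D) ^ kap * c₀ ^ (-(v2 / (1 - δ))) * ZZ (ε / 2) with hS2
  set S3 : ℝ := C4 * D * c₀ ^ (-(1 / (1 - δ))) * ZZ (ε / 2) with hS3
  set S5 : ℝ := 1 + 2 * D * ZZ (ε / 2) with hS5
  have hS2' : 0 ≤ S2 := by positivity
  have hS3' : 0 ≤ S3 := by positivity
  have hS5' : 0 ≤ S5 := by positivity
  have k1 := KV_pos hρ1
  have k2 := KV_pos hρ2
  have k3 := KV_pos hρ3
  set T : ℝ := KV v1 * 1 + KV v2 * S2 + KV 1 * S3 + 18000 * S5 with hT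
  have hT0 : 0 ≤ T := by positivity
  refine ⟨18 * T + 1, by linarith, ?_⟩
  set K : ℝ := 18 * T + 1 with hK
  have hK0 : 0 < K := by linarith
  intro c w γ h hγ hlow hup N
  have hE1 : 1 ≤ c.E := le_trans (by norm_num) h.ok.E6
  have hE0 : (0 : ℝ) < c.E := by exact_mod_cast hE1
  have hV := Cfg.V_pos h.ok
  have hX := c.X_pos
  have hXV : 0 < (c.X : ℝ) * c.V := by positivity
  have hmem1 : ∀ j ∈ Ico 1 (2 ^ w), 1 ≤ j := fun j hj => (mem_Ico.1 hj).1
  have nb : ∀ j : ℕ, 0 ≤ bc ε C4 j := by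
    intro j
    unfold bc
    positivity
  have nt : ∀ j : ℕ, 0 ≤ tc ε C4 j := by
    intro j
    unfold tc
    positivity
  -- the five parts
  set F1 : ℕ → ℝ := fun t => ∑ j ∈ Ico 1 (2 ^ w),
    (if 1 ≤ j then (γ j) ^ (A1 δ) else 0) * (1 + v1) ^ (c.L j t).primeFactors.card with hF1
  set F2 : ℕ → ℝ := fun t => ∑ j ∈ Ico 1 (2 ^ w), bc ε C4 j *
      (1 + v2) ^ (c.L j t).primeFactors.card with hF2
  set F3 : ℕ → ℝ := fun t => ∑ j ∈ Ico 1 (2 ^ w), tc ε C4 j *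
      (1 + 1) ^ (c.L j t).primeFactors.card with hF3
  set F4 : ℕ → ℝ := fun t => ∑ j ∈ Ico 1 (2 ^ w),
    (if c.Sq (2 ^ (2 * w + 20)) j t then (1 : ℝ) else 0) with hF4
  set F5 : ℕ → ℝ := fun t => ∑ j ∈ Ico (2 ^ w) N, (if j < c.M * t then
      (if 1 ≤ j then zc ε (Real.log 2 * A1 δ) γ j else 0) *
        ((c.M * t - j).divisors.card : ℝ) else 0) with hF5
  have b1 : ∑ t ∈ c.I, c.ch t * F1 t ≤ KV v1 * 1 * ((c.X : ℝ) * c.V) := by
    apply Cfg.part_one h hγ hv1 hρ1 (fun j => if 1 ≤ j then (γ j) ^ (A1 δ) else 0)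
    · intro j
      split_ifs with hj
      · exact Real.rpow_nonneg (hγ.pos j hj).le _
      · exact le_rfl
    · refine le_trans (le_of_eq ?_) (hγ.sum (Ico 1 (2 ^ w)) hmem1)
      apply Finset.sum_congr rfl
      intro j hj
      have hj1 := hmem1 j hj
      rw [if_pos hj1, ← Real.rpow_add (hγ.pos j hj1)]
      unfold A1
      rw [show (1 + v1 / (1 - δ) + -(v1 / (1 - δ))) = 1 by ring, Real.rpow_one]
  have b2 : ∑ t ∈ c.I, c.ch t * F2 t ≤ KV v2 * S2 * ((c.X : ℝ) * c.V) := by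
    apply Cfg.part_one h hγ hv2 hρ2 (bc ε C4)
    · exact nb
    · exact beta_sum p hC4pos hlow (Ico 1 (2 ^ w)) hmem1
  have b3 : ∑ t ∈ c.I, c.ch t * F3 t ≤ KV 1 * S3 * ((c.X : ℝ) * c.V) := by
    apply Cfg.part_one h hγ one_pos hρ3 (tc ε C4)
    · exact nt
    · exact theta_sum p hC4pos hlow (Ico 1 (2 ^ w)) hmem1
  have b4 : ∑ t ∈ c.I, c.ch t * F4 t ≤ 1 / 18 * ((c.X : ℝ) * c.V) := Cfg.part_sq h
  have hzc : ∀ j : ℕ, 1 ≤ j → 0 ≤ zc ε (Real.log 2 * A1 δ) γ j := by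
    intro j hj
    have := (hγ.pos j hj).le
    unfold zc
    positivity
  have b5 : ∑ t ∈ c.I, c.ch t * F5 t ≤ 18000 * S5 * ((c.X : ℝ) * c.V) := by
    have h1 := zeta_sum p hγ hup (A1_mul hd0 hd) hB3 hBη hE1 h.EB N
    have h2 := Cfg.part_tau h (fun j => if 1 ≤ j then zc ε (Real.log 2 * A1 δ) γ j else 0)
      (fun j => by split_ifs with hj; exacts [hzc j hj, le_rfl]) N
      (S := S5 / c.E) (by
        refine le_trans (le_of_eq ?_) h1
        apply Finset.sum_congr rfl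
        intro j hj
        have hj1 : 1 ≤ j := Nat.one_le_two_pow.trans (mem_Ico.1 hj).1
        rw [if_pos hj1]
        rfl)
    refine h2.trans (le_of_eq ?_)
    field_simp
  have n1 : ∀ t, 0 ≤ F1 t := by
    intro t
    apply Finset.sum_nonneg
    intro j hj
    have hj1 := hmem1 j hj
    have := (hγ.pos j hj1).le
    rw [if_pos hj1]
    positivity
  have n2 : ∀ t, 0 ≤ F2 t := by
    intro t
    apply Finset.sum_nonneg
    intro j _
    exact mul_nonneg (nb j) (by positivity)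
  have n3 : ∀ t, 0 ≤ F3 t := by
    intro t
    apply Finset.sum_nonneg
    intro j _
    exact mul_nonneg (nt j) (by positivity)
  have n4 : ∀ t, 0 ≤ F4 t := by
    intro t
    apply Finset.sum_nonneg
    intro j _
    split_ifs <;> norm_num
  have n5 : ∀ t, 0 ≤ F5 t := by
    intro t
    apply Finset.sum_nonneg
    intro j hj
    have hj1 : 1 ≤ j := Nat.one_le_two_pow.trans (mem_Ico.1 hj).1
    have := hzc j hj1
    rw [if_pos hj1]
    split_ifs
    · positivity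
    · exact le_rfl
  obtain ⟨U, hUI, hUc, hU⟩ := Cfg.many_t h.ok
    (fun t => 1 / K * (F1 t + F2 t + F3 t + F5 t) + F4 t) (fun t _ => by
      have := n1 t
      have := n2 t
      have := n3 t
      have := n4 t
      have := n5 t
      positivity) (by
      calc ∑ t ∈ c.I, c.ch t * (1 / K * (F1 t + F2 t + F3 t + F5 t) + F4 t)
          = 1 / K * (∑ t ∈ c.I, c.ch t * F1 t + ∑ t ∈ c.I, c.ch t * F2 t +
              ∑ t ∈ c.I, c.ch t * F3 t + ∑ t ∈ c.I, c.ch t * F5 t) +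
              ∑ t ∈ c.I, c.ch t * F4 t := by
            rw [← Finset.sum_add_distrib, ← Finset.sum_add_distrib, ← Finset.sum_add_distrib,
              Finset.mul_sum, ← Finset.sum_add_distrib]
            apply Finset.sum_congr rfl
            intro t _
            ring
        _ ≤ 1 / K * (KV v1 * 1 * ((c.X : ℝ) * c.V) + KV v2 * S2 * ((c.X : ℝ) * c.V) +
              KV 1 * S3 * ((c.X : ℝ) * c.V) + 18000 * S5 * ((c.X : ℝ) * c.V)) +
              1 / 18 * ((c.X : ℝ) * c.V) := by gcongr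
        _ = (T / K) * ((c.X : ℝ) * c.V) + 1 / 18 * ((c.X : ℝ) * c.V) := by
            rw [hT]; ring
        _ ≤ 1 / 18 * ((c.X : ℝ) * c.V) + 1 / 18 * ((c.X : ℝ) * c.V) := by
            have : T / K ≤ 1 / 18 := by
              rw [div_le_div_iff₀ hK0 (by norm_num)]
              linarith
            gcongr
        _ ≤ _ := by linarith)
  refine ⟨U, hUI, hUc, ?_⟩
  intro t htU
  obtain ⟨hch, hlt⟩ := hU t htU
  refine ⟨hch, ?_⟩
  have hall : F1 t + F2 t + F3 t + F5 t ≤ K := by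
    have h1 : 1 / K * (F1 t + F2 t + F3 t + F5 t) ≤ 1 := by linarith [n4 t]
    rw [one_div, inv_mul_le_iff₀ hK0, mul_one] at h1
    exact h1
  have h4 : F4 t < 1 := by
    have : 0 ≤ 1 / K * (F1 t + F2 t + F3 t + F5 t) := by
      have := n1 t
      have := n2 t
      have := n3 t
      have := n5 t
      positivity
    linarith
  have m1 := n1 t
  have m2 := n2 t
  have m3 := n3 t
  have m5 := n5 t
  refine ⟨?_, by linarith, by linarith, ?_, ?_⟩
  · intro j hj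
    have hj1 := hmem1 j hj
    have h5 : (if 1 ≤ j then (γ j) ^ (A1 δ) else 0) * (1 + v1) ^ (c.L j t).primeFactors.card ≤
        F1 t := by
      apply Finset.single_le_sum (f := fun j => (if 1 ≤ j then (γ j) ^ (A1 δ) else 0) *
        (1 + v1) ^ (c.L j t).primeFactors.card) _ hj
      intro i hi
      have hi1 := hmem1 i hi
      have := (hγ.pos i hi1).le
      rw [if_pos hi1]
      positivity
    rw [if_pos hj1] at h5
    linarith
  · intro j hj hsq
    have h5 : (if c.Sq (2 ^ (2 * w + 20)) j t then (1 : ℝ) else 0) ≤ F4 t := by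
      apply Finset.single_le_sum (f := fun j =>
        (if c.Sq (2 ^ (2 * w + 20)) j t then (1 : ℝ) else 0)) _ hj
      intro i _
      split_ifs <;> norm_num
    rw [if_pos hsq] at h5
    linarith
  · have h5 : (∑ j ∈ Ico (2 ^ w) N, (if j < c.M * t then
            zc ε (Real.log 2 * A1 δ) γ j * ((c.M * t - j).divisors.card : ℝ) else 0)) = F5 t := by
      apply Finset.sum_congr rfl
      intro j hj
      have hj1 : 1 ≤ j := Nat.one_le_two_pow.trans (mem_Ico.1 hj).1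
      rw [if_pos hj1]
    rw [h5]
    linarith

end Pool.Agent.MP_f32cb9_nt.UW
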