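import Pool.Agent.MP_f32cb9_nt.UW.A11

set_option autoImplicit false

open Finset Filter

/-!
# Uniform windows: the core statement, consequences of the averaging step
-/

namespace Pool.Agent.MP_f32cb9_nt.UW

open Pool.Agent.MP_f32cb9_nt

theorem split_sum (f g r : ℕ → ℝ) (W y N : ℕ) (K1 K2 : ℝ) (hf : ∀ j ∈ Ico 1 W, 0 ≤ f j)
    (hg : ∀ j ∈ Ico W N, 0 ≤ g j) (h1 : ∑ j ∈ Ico 1 W, f j ≤ K1) (h2 : ∑ j ∈ Ico W N, g j ≤ K2)
    (hy : y ≤ N) (hr1 : ∀ j ∈ Ico 1 y, j < W → r j ≤ f j)
    (hr2 : ∀ j ∈ Ico 1 y, W ≤ j → r j ≤ g j) : ∑ j ∈ Ico 1 y, r j ≤ K1 + K2 := by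
  rw [← Finset.sum_filter_add_sum_filter_not (Ico 1 y) (fun j => j < W)]
  apply add_le_add
  · refine le_trans ?_ h1
    calc ∑ j ∈ (Ico 1 y).filter (fun j => j < W), r j
        ≤ ∑ j ∈ (Ico 1 y).filter (fun j => j < W), f j :=
          Finset.sum_le_sum fun j hj => hr1 j (mem_filter.1 hj).1 (mem_filter.1 hj).2
      _ ≤ ∑ j ∈ Ico 1 W, f j := by
          apply Finset.sum_le_sum_of_subset_of_nonneg
          · intro j hj
            obtain ⟨a, b⟩ := mem_filter.1 hj
            exact mem_Ico.2 ⟨(mem_Ico.1 a).1, b⟩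
          · intro j hj _
            exact hf j hj
  · refine le_trans ?_ h2
    calc ∑ j ∈ (Ico 1 y).filter (fun j => ¬ j < W), r j
        ≤ ∑ j ∈ (Ico 1 y).filter (fun j => ¬ j < W), g j :=
          Finset.sum_le_sum fun j hj => hr2 j (mem_filter.1 hj).1 (not_lt.1 (mem_filter.1 hj).2)
      _ ≤ ∑ j ∈ Ico W N, g j := by
          apply Finset.sum_le_sum_of_subset_of_nonneg
          · intro j hj
            obtain ⟨a, b⟩ := mem_filter.1 hj
            exact mem_Ico.2 ⟨not_lt.1 b, (mem_Ico.1 a).2.trans_le hy⟩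
          · intro j hj _
            exact hg j hj

theorem tau_pos {j : ℕ} (hj : 1 ≤ j) : (0 : ℝ) < j.divisors.card := by
  have : 0 < j.divisors.card := Finset.card_pos.2 ⟨1, Nat.one_mem_divisors.2 (by omega)⟩
  exact_mod_cast this

/-- the core statement -/
theorem core {δ ε a c₀ η D : ℝ} (p : Prm δ ε a c₀ η D) {B : ℕ} (hB3 : 3 ≤ B)
    (hBη : 2 ≤ B * η) :
    ∃ C : ℝ, 1 ≤ C ∧ ∀ᶠ E : ℕ in atTop, ∀ γ : ℕ → ℝ, Wts γ →
      (∀ j : ℕ, 1 ≤ j → c₀ * (j : ℝ) ^ (-a) ≤ γ j) →
      (∀ j : ℕ, 1 ≤ j → γ j ≤ (j : ℝ) ^ (-η)) →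
      ∃ U : Finset ℕ, 2 ^ (2909 * E) ≤ U.card ∧ ∀ n ∈ U, 2 ^ (2912 * E) < n ∧ n ≤ 2 ^ (2913 * E) ∧
        (∀ j : ℕ, 1 ≤ j → j < n →
          (γ j) ^ (Real.log 2 * A1 δ) * (n - j).divisors.card ≤ C * j.divisors.card) ∧
        (∀ y : ℕ, 1 ≤ y → y ≤ n →
          (((Ico 1 y).filter (fun j => j < (n - j).divisors.card)).card : ℝ) ≤
            C * (y : ℝ) ^ (thet + ε)) ∧
        (∀ y : ℕ, 1 ≤ y → y ≤ n →
          ∑ j ∈ Ico 1 y, ((n - j).divisors.card : ℝ) ≤ C * (y : ℝ) ^ (2 + ε)) := by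
  classical
  obtain ⟨K, hK1, hK⟩ := exists_good_t p hB3 hBη
  have hK0 : 0 < K := by linarith
  have hε := p.e0
  have hth := thet_ge
  obtain ⟨l0, l1, l2⟩ := l2_bds
  obtain ⟨a1, a2⟩ := v1_bds
  have hC4 : (4 : ℝ) ≤ 2 ^ (2 * (4 * B + 2)) := by
    calc (4 : ℝ) = 2 ^ 2 := by norm_num
      _ ≤ 2 ^ (2 * (4 * B + 2)) := pow_le_pow_right₀ (by norm_num) (by omega)
  refine ⟨2 ^ (2 * (4 * B + 2)) * K, by nlinarith, ?_⟩
  filter_upwards [good_exists p.d0 p.d2 B (by omega)] with E hE γ hγ hlow hup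
  obtain ⟨c, w, hcE, h⟩ := hE γ hγ
  subst hcE
  obtain ⟨U, hUI, hUc, hU⟩ := hK c w γ h hγ hlow hup (2 ^ (2913 * c.E) + 1)
  have hcard : 2 ^ (2909 * c.E) ≤ U.card := by
    have hV2 := Cfg.V_ge_two h.ok
    have hE6 := h.ok.E6
    have h1 : ((2 ^ (2909 * c.E) : ℕ) : ℝ) ≤ (U.card : ℝ) := by
      refine le_trans ?_ hUc
      rw [Cfg.X_rpow]
      have h2 : (2 : ℝ) ^ (2912 * (c.E : ℝ)) * (2 : ℝ) ^ (-(2 * (c.E : ℝ))) ≤
          (2 : ℝ) ^ (2912 * (c.E : ℝ)) * c.V := by gcongr
      have h3 : (2 : ℝ) ^ (2912 * (c.E : ℝ)) * (2 : ℝ) ^ (-(2 * (c.E : ℝ))) =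
          ((2 ^ (2909 * c.E) : ℕ) : ℝ) * ((2 ^ c.E : ℕ) : ℝ) := by
        rw [← Real.rpow_add (by norm_num)]
        push_cast
        rw [← pow_add, ← Real.rpow_natCast]
        congr 1
        push_cast
        ring
      rw [h3] at h2
      have h4 : (18 : ℝ) ≤ ((2 ^ c.E : ℕ) : ℝ) := by
        have : 2 ^ 6 ≤ 2 ^ c.E := Nat.pow_le_pow_right (by norm_num) hE6
        exact_mod_cast (show 18 ≤ 2 ^ c.E by omega)
      have h5 : (0 : ℝ) ≤ ((2 ^ (2909 * c.E) : ℕ) : ℝ) := Nat.cast_nonneg _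
      nlinarith
    exact_mod_cast h1
  have hUne : U.Nonempty := Finset.card_pos.1 (lt_of_lt_of_le (by positivity) hcard)
  obtain ⟨t₀, ht₀⟩ := hUne
  have hM : 1 ≤ c.M :=
    Nat.pos_of_mul_pos_right (Cfg.lt_Mt h.ok2 (j := 0) (by positivity) (hUI ht₀))
  refine ⟨U.image (fun t => c.M * t), ?_, ?_⟩
  · rw [Finset.card_image_of_injective _ (fun a b hab => Nat.eq_of_mul_eq_mul_left hM hab)]
    exact hcard
  intro n hn
  obtain ⟨t, htU, rfl⟩ := Finset.mem_image.1 hn
  obtain ⟨hch, q1, q2, q3, q4, q5⟩ := hU t htU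
  have ht := hUI htU
  have hMt := Cfg.Mt_le h.ok2 ht
  have htI := Cfg.mem_I.1 ht
  have hnt : t ≤ c.M * t := Nat.le_mul_of_pos_left _ hM
  set C4 : ℝ := 2 ^ (2 * (4 * B + 2)) with hC4def
  have hCK : 2 * K ≤ C4 * K := by nlinarith
  -- bounds for each j
  have small : ∀ j : ℕ, 1 ≤ j → j < 2 ^ w → ((c.M * t - j).divisors.card : ℝ) ≤
      (C4 * j.divisors.card) * 2 ^ (c.L j t).primeFactors.card := by
    intro j hj hjw
    exact Cfg.tau_sub_small h hj hjw ht (q4 j (mem_Ico.2 ⟨hj, hjw⟩))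
  set G : ℕ → ℝ := fun j => if j < c.M * t then
    zc ε (Real.log 2 * A1 δ) γ j * ((c.M * t - j).divisors.card : ℝ) else 0 with hG
  have hzc : ∀ j : ℕ, 1 ≤ j → 0 ≤ zc ε (Real.log 2 * A1 δ) γ j := by
    intro j hj
    have := (hγ.pos j hj).le
    unfold zc
    positivity
  have hG0 : ∀ j ∈ Ico (2 ^ w) (2 ^ (2913 * c.E) + 1), 0 ≤ G j := by
    intro j hj
    have hj1 : 1 ≤ j := Nat.one_le_two_pow.trans (mem_Ico.1 hj).1
    have := hzc j hj1
    simp only [hG]
    split_ifs
    · positivity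
    · exact le_rfl
  have large : ∀ j : ℕ, 2 ^ w ≤ j → j < c.M * t → G j ≤ K := by
    intro j hj hjn
    refine (Finset.single_le_sum hG0 (mem_Ico.2 ⟨hj, by omega⟩)).trans q5
  refine ⟨lt_of_lt_of_le htI.1 hnt, hMt, ?_, ?_, ?_⟩
  · intro j hj hjn
    have hγ0 := hγ.pos j hj
    have hτ := tau_pos hj
    rcases lt_or_ge j (2 ^ w) with hjw | hjw
    · have s1 := small j hj hjw
      have s2 := q1 j (mem_Ico.2 ⟨hj, hjw⟩)
      have s3 : (γ j) ^ (Real.log 2 * A1 δ) * 2 ^ (c.L j t).primeFactors.card ≤ K := by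
        rw [two_pow_eq, mul_comm (Real.log 2), Real.rpow_mul hγ0.le,
          ← Real.mul_rpow (by positivity) (by positivity)]
        calc ((γ j) ^ (A1 δ) * (1 + v1) ^ (c.L j t).primeFactors.card) ^ Real.log 2
            ≤ K ^ Real.log 2 := Real.rpow_le_rpow (by positivity) s2 l0.le
          _ ≤ K ^ (1 : ℝ) := Real.rpow_le_rpow_of_exponent_le hK1 (by linarith)
          _ = K := Real.rpow_one K
      calc (γ j) ^ (Real.log 2 * A1 δ) * ((c.M * t - j).divisors.card : ℝ)
          ≤ (γ j) ^ (Real.log 2 * A1 δ) *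
            ((C4 * j.divisors.card) * 2 ^ (c.L j t).primeFactors.card) := by gcongr
        _ = (C4 * j.divisors.card) *
            ((γ j) ^ (Real.log 2 * A1 δ) * 2 ^ (c.L j t).primeFactors.card) := by ring
        _ ≤ (C4 * j.divisors.card) * K := by gcongr
        _ = _ := by ring
    · have s1 := large j hjw hjn
      simp only [hG] at s1
      rw [if_pos hjn] at s1
      have s2 : (γ j) ^ (Real.log 2 * A1 δ) / j.divisors.card ≤
          zc ε (Real.log 2 * A1 δ) γ j := by
        have e1 : 0 ≤ (j : ℝ) ^ (-(thet + ε) - 1) := by positivity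
        have e2 : 0 ≤ (j : ℝ) ^ (-(2 + ε)) := by positivity
        unfold zc
        linarith
      have s3 : (γ j) ^ (Real.log 2 * A1 δ) / j.divisors.card *
          ((c.M * t - j).divisors.card : ℝ) ≤ K :=
        (mul_le_mul_of_nonneg_right s2 (Nat.cast_nonneg _)).trans s1
      rw [div_mul_eq_mul_div, div_le_iff₀ hτ] at s3
      refine s3.trans ?_
      apply mul_le_mul_of_nonneg_right _ hτ.le
      linarith
  · intro y hy hyn
    have hy0 : (0 : ℝ) < y := by exact_mod_cast hy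
    have hYpos : 0 < (y : ℝ) ^ (thet + ε) := by positivity
    have key := split_sum
      (fun j => bc ε C4 j * (1 + v2) ^ (c.L j t).primeFactors.card) G
      (fun j => if j < (c.M * t - j).divisors.card then (y : ℝ) ^ (-(thet + ε)) else 0)
      (2 ^ w) y (2 ^ (2913 * c.E) + 1) K K
      (by
        intro j _
        have := v2_pos
        simp only [bc]
        positivity)
      hG0 q2 q5 (by omega)
      (by
        intro j hj hjw
        have hj1 := (mem_Ico.1 hj).1
        have hj0 : (0 : ℝ) < j := by exact_mod_cast hj1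
        have hjy : (j : ℝ) ≤ y := by exact_mod_cast (mem_Ico.1 hj).2.le
        have hv := v2_pos
        split_ifs with hex
        · have hex' : (j : ℝ) ≤ ((c.M * t - j).divisors.card : ℝ) := by exact_mod_cast hex.le
          have s1 := hex'.trans (small j hj1 hjw)
          have s2 : 1 ≤ (C4 * j.divisors.card / j) * 2 ^ (c.L j t).primeFactors.card := by
            rw [div_mul_eq_mul_div, le_div_iff₀ hj0, one_mul]
            exact s1
          have s3 : 1 ≤ (C4 * j.divisors.card / j) ^ kap *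
              (1 + v2) ^ (c.L j t).primeFactors.card := by
            have e1 : ((2 : ℝ) ^ (c.L j t).primeFactors.card) ^ kap =
                (1 + v2) ^ (c.L j t).primeFactors.card := by
              rw [← two_kap, ← Real.rpow_natCast, ← Real.rpow_natCast,
                ← Real.rpow_mul (by norm_num), ← Real.rpow_mul (by norm_num), mul_comm]
            rw [← e1, ← Real.mul_rpow (by positivity) (by positivity)]
            exact Real.one_le_rpow s2 kap_pos.le
          unfold bc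
          rw [mul_assoc]
          calc (y : ℝ) ^ (-(thet + ε)) ≤ (j : ℝ) ^ (-(thet + ε)) :=
                Real.rpow_le_rpow_of_nonpos hj0 hjy (by linarith)
            _ ≤ _ := le_mul_of_one_le_right (by positivity) s3
        · unfold bc
          positivity)
      (by
        intro j hj hjw
        have hj1 := (mem_Ico.1 hj).1
        have hj0 : (0 : ℝ) < j := by exact_mod_cast hj1
        have hjy : (j : ℝ) ≤ y := by exact_mod_cast (mem_Ico.1 hj).2.le
        have hjn : j < c.M * t := (mem_Ico.1 hj).2.trans_le hyn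
        have hγ0 := (hγ.pos j hj1).le
        simp only [hG]
        rw [if_pos hjn]
        split_ifs with hex
        · have hex' : (j : ℝ) ≤ ((c.M * t - j).divisors.card : ℝ) := by exact_mod_cast hex.le
          have e0 : 0 ≤ (γ j) ^ (Real.log 2 * A1 δ) / j.divisors.card := by positivity
          have e2 : 0 ≤ (j : ℝ) ^ (-(2 + ε)) := by positivity
          calc (y : ℝ) ^ (-(thet + ε)) ≤ (j : ℝ) ^ (-(thet + ε)) :=
                Real.rpow_le_rpow_of_nonpos hj0 hjy (by linarith)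
            _ = (j : ℝ) ^ (-(thet + ε) - 1) * j := by
                nth_rewrite 3 [← Real.rpow_one (j : ℝ)]
                rw [← Real.rpow_add hj0]
                congr 1; ring
            _ ≤ (j : ℝ) ^ (-(thet + ε) - 1) * ((c.M * t - j).divisors.card : ℝ) := by gcongr
            _ ≤ _ := by
                apply mul_le_mul_of_nonneg_right _ (Nat.cast_nonneg _)
                unfold zc
                linarith
        · exact mul_nonneg (hzc j hj1) (Nat.cast_nonneg _))
    have e1 : ∑ j ∈ Ico 1 y, (if j < (c.M * t - j).divisors.card then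
        (y : ℝ) ^ (-(thet + ε)) else 0) =
        (((Ico 1 y).filter (fun j => j < (c.M * t - j).divisors.card)).card : ℝ) *
          (y : ℝ) ^ (-(thet + ε)) := by
      rw [← Finset.sum_filter, Finset.sum_const, nsmul_eq_mul]
    rw [e1, Real.rpow_neg hy0.le, ← div_eq_mul_inv, div_le_iff₀ hYpos] at key
    refine key.trans ?_
    apply mul_le_mul_of_nonneg_right _ hYpos.le
    linarith
  · intro y hy hyn
    have hy0 : (0 : ℝ) < y := by exact_mod_cast hy
    have hYpos : 0 < (y : ℝ) ^ (2 + ε) := by positivity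
    have key := split_sum
      (fun j => tc ε C4 j * (1 + 1) ^ (c.L j t).primeFactors.card) G
      (fun j => ((c.M * t - j).divisors.card : ℝ) * (y : ℝ) ^ (-(2 + ε)))
      (2 ^ w) y (2 ^ (2913 * c.E) + 1) K K
      (by
        intro j _
        simp only [tc]
        positivity)
      hG0 q3 q5 (by omega)
      (by
        intro j hj hjw
        have hj1 := (mem_Ico.1 hj).1
        have hj0 : (0 : ℝ) < j := by exact_mod_cast hj1
        have hjy : (j : ℝ) ≤ y := by exact_mod_cast (mem_Ico.1 hj).2.le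
        have s1 := small j hj1 hjw
        have s2 : (y : ℝ) ^ (-(2 + ε)) ≤ (j : ℝ) ^ (-(2 + ε)) :=
          Real.rpow_le_rpow_of_nonpos hj0 hjy (by linarith)
        calc ((c.M * t - j).divisors.card : ℝ) * (y : ℝ) ^ (-(2 + ε))
            ≤ ((C4 * j.divisors.card) * 2 ^ (c.L j t).primeFactors.card) *
              (j : ℝ) ^ (-(2 + ε)) := by gcongr
          _ = _ := by unfold tc; norm_num; ring)
      (by
        intro j hj hjw
        have hj1 := (mem_Ico.1 hj).1
        have hj0 : (0 : ℝ) < j := by exact_mod_cast hj1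
        have hjy : (j : ℝ) ≤ y := by exact_mod_cast (mem_Ico.1 hj).2.le
        have hjn : j < c.M * t := (mem_Ico.1 hj).2.trans_le hyn
        have hγ0 := (hγ.pos j hj1).le
        simp only [hG]
        rw [if_pos hjn]
        have e0 : 0 ≤ (γ j) ^ (Real.log 2 * A1 δ) / j.divisors.card := by positivity
        have e2 : 0 ≤ (j : ℝ) ^ (-(thet + ε) - 1) := by positivity
        have s2 : (y : ℝ) ^ (-(2 + ε)) ≤ (j : ℝ) ^ (-(2 + ε)) :=
          Real.rpow_le_rpow_of_nonpos hj0 hjy (by linarith)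
        calc ((c.M * t - j).divisors.card : ℝ) * (y : ℝ) ^ (-(2 + ε))
            ≤ ((c.M * t - j).divisors.card : ℝ) * (j : ℝ) ^ (-(2 + ε)) := by gcongr
          _ = (j : ℝ) ^ (-(2 + ε)) * ((c.M * t - j).divisors.card : ℝ) := by ring
          _ ≤ _ := by
              apply mul_le_mul_of_nonneg_right _ (Nat.cast_nonneg _)
              unfold zc
              linarith)
    rw [← Finset.sum_mul, Real.rpow_neg hy0.le, ← div_eq_mul_inv, div_le_iff₀ hYpos] at key
    refine key.trans ?_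
    apply mul_le_mul_of_nonneg_right _ hYpos.le
    linarith

end Pool.Agent.MP_f32cb9_nt.UW
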