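import Pool.Agent.MP_f32cb9_nt.UW.A12

set_option autoImplicit false

open Finset Filter

/-!
# Uniform windows: the statement with weights
-/

namespace Pool.Agent.MP_f32cb9_nt.UW

open Pool.Agent.MP_f32cb9_nt

/-- The bounds valid for all `j < n`: a pointwise bound for `τ (n - j)`, a bound for the number of
exceptions to `τ (n - j) ≤ j` on every initial window, and a bound for the mean. -/
def Fine (C ε : ℝ) (n : ℕ) : Prop :=
  (∀ j : ℕ, 1 ≤ j → j < n →
    ((n - j).divisors.card : ℝ) ≤ C * (j : ℝ) ^ (Real.exp 1 * Real.log 2 + ε)) ∧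
  (∀ y : ℕ, 1 ≤ y → y ≤ n →
    (((Finset.Ico 1 y).filter (fun j => j < (n - j).divisors.card)).card : ℝ) ≤
      C * (y : ℝ) ^ ((1 + Real.log (Real.log 2)) / Real.log 2 + ε)) ∧
  (∀ y : ℕ, 1 ≤ y → y ≤ n →
    ∑ j ∈ Finset.Ico 1 y, ((n - j).divisors.card : ℝ) ≤ C * (y : ℝ) ^ (2 + ε))

theorem Fine.mono {C C' ε ε' : ℝ} {n : ℕ} (h : Fine C ε n) (hC : C ≤ C') (hC0 : 0 ≤ C)
    (hε : ε ≤ ε') : Fine C' ε' n := by
  obtain ⟨h1, h2, h3⟩ := h
  have key : ∀ (y : ℕ) (x : ℝ), 1 ≤ y → C * (y : ℝ) ^ (x + ε) ≤ C' * (y : ℝ) ^ (x + ε') := by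
    intro y x hy
    have hy1 : (1 : ℝ) ≤ y := by exact_mod_cast hy
    have h4 : (y : ℝ) ^ (x + ε) ≤ (y : ℝ) ^ (x + ε') :=
      Real.rpow_le_rpow_of_exponent_le hy1 (by linarith)
    exact mul_le_mul hC h4 (by positivity) (hC0.trans hC)
  exact ⟨fun j hj hjn => (h1 j hj hjn).trans (key j _ hj),
    fun y hy hyn => (h2 y hy hyn).trans (key y _ hy),
    fun y hy hyn => (h3 y hy hyn).trans (key y _ hy)⟩

theorem count_conv (P : ℕ → Prop) (E N : ℕ) (U : Finset ℕ) (hU : 2 ^ (2909 * E) ≤ U.card)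
    (hUn : ∀ n ∈ U, n ≤ 2 ^ (2913 * E) ∧ P n) (hE : E = Nat.log 2 N / 2913) (hE1 : 115 ≤ E) :
    (N : ℝ) ^ (99 / 100 : ℝ) ≤ ({n : ℕ | n ≤ N ∧ P n}.ncard : ℝ) := by
  have hN0 : N ≠ 0 := by
    rintro rfl
    simp at hE
    omega
  have h1 : 2913 * E ≤ Nat.log 2 N := by omega
  have h2 : Nat.log 2 N < 2913 * (E + 1) := by omega
  have h3 : 2 ^ (2913 * E) ≤ N :=
    (Nat.pow_le_pow_right (by norm_num) h1).trans (Nat.pow_log_le_self 2 hN0)
  have h4 : N ≤ 2 ^ (2913 * (E + 1)) :=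
    (Nat.lt_pow_succ_log_self (by norm_num) N).le.trans
      (Nat.pow_le_pow_right (by norm_num) (by omega))
  have h5 : (N : ℝ) ≤ (2 : ℝ) ^ ((2913 * (E + 1) : ℕ) : ℝ) := by
    rw [Real.rpow_natCast]
    exact_mod_cast h4
  have h6 : (N : ℝ) ^ (99 / 100 : ℝ) ≤ ((2 ^ (2909 * E) : ℕ) : ℝ) := by
    calc (N : ℝ) ^ (99 / 100 : ℝ) ≤ ((2 : ℝ) ^ ((2913 * (E + 1) : ℕ) : ℝ)) ^ (99 / 100 : ℝ) :=
          Real.rpow_le_rpow (Nat.cast_nonneg _) h5 (by norm_num)
      _ = (2 : ℝ) ^ (((2913 * (E + 1) : ℕ) : ℝ) * (99 / 100)) := by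
          rw [← Real.rpow_mul (by norm_num)]
      _ ≤ (2 : ℝ) ^ ((2909 * E : ℕ) : ℝ) := by
          apply Real.rpow_le_rpow_of_exponent_le (by norm_num)
          have : (115 : ℝ) ≤ E := by exact_mod_cast hE1
          push_cast
          linarith
      _ = _ := by
          rw [Real.rpow_natCast]
          push_cast
          rfl
  have h7 : U.card ≤ {n : ℕ | n ≤ N ∧ P n}.ncard := by
    rw [← Set.ncard_coe_finset]
    apply Set.ncard_le_ncard
    · intro n hn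
      have := hUn n (Finset.mem_coe.1 hn)
      exact ⟨this.1.trans h3, this.2⟩
    · exact (Set.finite_Iic N).subset fun n hn => hn.1
  refine h6.trans ?_
  exact_mod_cast hU.trans h7

/-- the statement with weights -/
theorem weights {ε η : ℝ} (hε : 0 < ε) (hη : 0 < η) :
    ∃ C : ℝ, 1 ≤ C ∧ ∃ N₀ : ℕ, ∀ c : ℕ → ℝ,
      (∀ j : ℕ, 1 ≤ j → 0 ≤ c j ∧ c j ≤ (j : ℝ) ^ (-η)) →
      (∀ s : Finset ℕ, (∀ j ∈ s, 1 ≤ j) → ∑ j ∈ s, c j ≤ 1) →
      ∀ N : ℕ, N₀ ≤ N → (N : ℝ) ^ (99 / 100 : ℝ) ≤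
        ({n : ℕ | n ≤ N ∧ ((∀ j : ℕ, 1 ≤ j → j < n →
          (c j) ^ (Real.exp 1 * Real.log 2 + ε) * ((n - j).divisors.card : ℝ) ≤
            C * j.divisors.card) ∧ Fine C ε n)}.ncard : ℝ) := by
  obtain ⟨l0, l1, l2⟩ := l2_bds
  obtain ⟨a1, a2⟩ := v1_bds
  have hev : Real.exp 1 = 1 + v1 := by unfold v1; ring
  set ε' : ℝ := min ε 1 with hε'
  have e0 : 0 < ε' := lt_min hε one_pos
  have e1 : ε' ≤ 1 := min_le_right _ _
  have eε : ε' ≤ ε := min_le_left _ _
  set η' : ℝ := min η 1 with hη'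
  have n0 : 0 < η' := lt_min hη one_pos
  have n1 : η' ≤ 1 := min_le_right _ _
  have nη : η' ≤ η := min_le_left _ _
  set δ : ℝ := ε' / 16 with hδ
  set a : ℝ := 1 + ε' / 16 with ha
  obtain ⟨D, hD1, hD⟩ := Lib.helper69.card_divisors_le_rpow (ε' / 4) (by positivity)
  set Z : ℝ := ZZ (ε' / 16) with hZ
  have hZ1 : 1 ≤ Z := by
    have := sum_le_ZZ (by positivity : 0 < ε' / 16) {1}
    simpa using this
  set c₀ : ℝ := 1 / (2 * Z) with hc₀
  have hc0 : 0 < c₀ := by positivity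
  have hδ1 : 0 < 1 - δ := by linarith
  have p : Prm δ ε' a c₀ η' D := by
    refine ⟨by positivity, by linarith, e0, by positivity, hc0, n0, ?_, hD1, hD⟩
    rw [sub_le_iff_le_add, div_le_iff₀ hδ1]
    rw [ha, hδ]
    nlinarith
  -- the exponent
  set A : ℝ := Real.log 2 * A1 δ with hA
  have hA32 : 3 / 2 ≤ A := A1_mul p.d0 p.d2
  have hx : v1 / (1 - δ) ≤ v1 + v1 * (ε' / 15) := by
    rw [div_le_iff₀ hδ1, hδ]
    nlinarith [mul_pos e0 e0, mul_pos (mul_pos e0 (by linarith : 0 < v1)) (by norm_num : (0:ℝ) < 1)]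
  have l3 : Real.log 2 < 0.6932 := by
    have := Real.log_two_lt_d9
    linarith
  have hA2 : A ≤ Real.exp 1 * Real.log 2 + ε' / 12 := by
    rw [hA, hev]
    unfold A1
    have h1 : v1 * (ε' / 15) ≤ 1.72 * (ε' / 15) :=
      mul_le_mul_of_nonneg_right a2.le (by linarith)
    have h2 : Real.log 2 * (1.72 * (ε' / 15)) ≤ 0.6932 * (1.72 * (ε' / 15)) :=
      mul_le_mul_of_nonneg_right (by linarith) (by linarith)
    have h3 : Real.log 2 * (1 + v1 / (1 - δ)) ≤ Real.log 2 * (1 + v1 + 1.72 * (ε' / 15)) :=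
      mul_le_mul_of_nonneg_left (by linarith) l0.le
    have h4 : Real.log 2 * (1 + v1 + 1.72 * (ε' / 15)) =
        (1 + v1) * Real.log 2 + Real.log 2 * (1.72 * (ε' / 15)) := by ring
    linarith
  have hA3 : A ≤ 2 := by
    have : Real.exp 1 * Real.log 2 ≤ 1.9 := by rw [hev]; nlinarith
    linarith
  obtain ⟨B, hB⟩ := exists_nat_ge (2 / η')
  have hB' : 2 ≤ ((max 3 B : ℕ) : ℝ) * η' := by
    rw [div_le_iff₀ n0] at hB
    refine hB.trans ?_
    have : (B : ℝ) ≤ ((max 3 B : ℕ) : ℝ) := by exact_mod_cast le_max_right _ _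
    gcongr
  obtain ⟨C, hC1, hC⟩ := core p (B := max 3 B) (le_max_left _ _) hB'
  obtain ⟨E₀, hE₀⟩ := Filter.eventually_atTop.1 hC
  have hcpow : 1 ≤ c₀ ^ (-A) := by
    apply Real.one_le_rpow_of_pos_of_le_one_of_nonpos hc0 _ (by linarith)
    rw [hc₀, div_le_one (by positivity)]
    linarith
  have hC0 : 0 < C := by linarith
  set C' : ℝ := 4 * C * D * c₀ ^ (-A) with hC'
  have hD0 : 0 < D := by linarith
  have hCC1 : C ≤ C' := by
    have : 1 ≤ 4 * D * c₀ ^ (-A) := by nlinarith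
    calc C = C * 1 := by ring
      _ ≤ C * (4 * D * c₀ ^ (-A)) := by gcongr
      _ = C' := by rw [hC']; ring
  refine ⟨C', hC1.trans hCC1, 2 ^ (2913 * max E₀ 115), ?_⟩
  intro c hc1 hc2 N hN
  have hE : max E₀ 115 ≤ Nat.log 2 N / 2913 := by
    rw [Nat.le_div_iff_mul_le (by norm_num), mul_comm]
    exact Nat.le_log_of_pow_le (by norm_num) hN
  set E : ℕ := Nat.log 2 N / 2913 with hEdef
  -- the perturbed weights
  set γ : ℕ → ℝ := fun j => (c j + 1 / Z * (j : ℝ) ^ (-a)) / 2 with hγ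
  have hja : ∀ j : ℕ, 1 ≤ j → 1 / Z * (j : ℝ) ^ (-a) ≤ (j : ℝ) ^ (-η') := by
    intro j hj
    have hj1 : (1 : ℝ) ≤ j := by exact_mod_cast hj
    have h1 : 1 / Z ≤ 1 := by rw [div_le_one (by linarith)]; exact hZ1
    have h2 : (j : ℝ) ^ (-a) ≤ (j : ℝ) ^ (-η') :=
      Real.rpow_le_rpow_of_exponent_le hj1 (by rw [ha]; linarith)
    have h3 : 0 ≤ (j : ℝ) ^ (-a) := by positivity
    calc 1 / Z * (j : ℝ) ^ (-a) ≤ 1 * (j : ℝ) ^ (-a) := by gcongr
      _ = (j : ℝ) ^ (-a) := one_mul _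
      _ ≤ _ := h2
  have hlow : ∀ j : ℕ, 1 ≤ j → c₀ * (j : ℝ) ^ (-a) ≤ γ j := by
    intro j hj
    have := (hc1 j hj).1
    have h2 : c₀ * (j : ℝ) ^ (-a) = (1 / Z * (j : ℝ) ^ (-a)) / 2 := by
      rw [hc₀]; field_simp
    simp only [hγ]
    rw [h2]
    linarith
  have hup : ∀ j : ℕ, 1 ≤ j → γ j ≤ (j : ℝ) ^ (-η') := by
    intro j hj
    have hj1 : (1 : ℝ) ≤ j := by exact_mod_cast hj
    have h1 := hja j hj
    have h2 : c j ≤ (j : ℝ) ^ (-η') :=
      (hc1 j hj).2.trans (Real.rpow_le_rpow_of_exponent_le hj1 (by linarith))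
    simp only [hγ]
    linarith
  have hW : Wts γ := by
    refine ⟨fun j hj => ?_, fun s hs => ?_⟩
    · refine lt_of_lt_of_le ?_ (hlow j hj)
      have hj0 : (0 : ℝ) < j := by exact_mod_cast hj
      positivity
    · simp only [hγ]
      rw [← Finset.sum_div, Finset.sum_add_distrib, ← Finset.mul_sum]
      have h1 := hc2 s hs
      have h2 : ∑ j ∈ s, (j : ℝ) ^ (-a) ≤ Z := by
        refine le_trans (le_of_eq ?_) (sum_le_ZZ (by positivity : 0 < ε' / 16) s)
        apply Finset.sum_congr rfl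
        intro j _
        rw [Real.rpow_neg (Nat.cast_nonneg _), one_div]
      have h3 : 1 / Z * ∑ j ∈ s, (j : ℝ) ^ (-a) ≤ 1 := by
        rw [one_div, inv_mul_le_iff₀ (by linarith), mul_one]
        exact h2
      linarith
  obtain ⟨U, hU, hUn⟩ := hE₀ E (le_trans (le_max_left _ _) hE) γ hW hlow hup
  refine count_conv _ E N U hU ?_ rfl (le_trans (le_max_right _ _) hE)
  intro n hn
  obtain ⟨_, hn2, m1, m2, m3⟩ := hUn n hn
  refine ⟨hn2, ?_, ?_, ?_, ?_⟩
  · intro j hj hjn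
    have hcj := (hc1 j hj).1
    have hj1 : (1 : ℝ) ≤ j := by exact_mod_cast hj
    have hcj1 : c j ≤ 1 := by
      refine (hc1 j hj).2.trans ?_
      exact Real.rpow_le_one_of_one_le_of_nonpos hj1 (by linarith)
    have h1 := m1 j hj hjn
    have h2 : (c j) ^ (Real.exp 1 * Real.log 2 + ε) ≤ (c j) ^ A := by
      rcases hcj.eq_or_lt with h0 | h0
      · rw [← h0, Real.zero_rpow (by positivity), Real.zero_rpow (by linarith)]
      · exact Real.rpow_le_rpow_of_exponent_ge h0 hcj1 (by linarith)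
    have h3 : (c j) ^ A ≤ 4 * (γ j) ^ A := by
      have h4 : c j ≤ 2 * γ j := by
        simp only [hγ]
        have : 0 ≤ 1 / Z * (j : ℝ) ^ (-a) := by positivity
        linarith
      have h5 := hW.pos j hj
      calc (c j) ^ A ≤ (2 * γ j) ^ A := Real.rpow_le_rpow hcj h4 (by linarith)
        _ = 2 ^ A * (γ j) ^ A := Real.mul_rpow (by norm_num) h5.le
        _ ≤ 2 ^ (2 : ℝ) * (γ j) ^ A := by
            gcongr
            norm_num
        _ = _ := by norm_num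
    have hτ := tau_pos hj
    calc (c j) ^ (Real.exp 1 * Real.log 2 + ε) * ((n - j).divisors.card : ℝ)
        ≤ (4 * (γ j) ^ A) * ((n - j).divisors.card : ℝ) := by
          gcongr
          exact h2.trans h3
      _ = 4 * ((γ j) ^ A * ((n - j).divisors.card : ℝ)) := by ring
      _ ≤ 4 * (C * j.divisors.card) := by gcongr
      _ = (4 * C) * j.divisors.card := by ring
      _ ≤ C' * j.divisors.card := by
          apply mul_le_mul_of_nonneg_right _ hτ.le
          rw [hC']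
          have : 1 ≤ D * c₀ ^ (-A) := by nlinarith
          calc 4 * C = 4 * C * 1 := by ring
            _ ≤ 4 * C * (D * c₀ ^ (-A)) := by gcongr
            _ = _ := by ring
  · intro j hj hjn
    have hj1 : (1 : ℝ) ≤ j := by exact_mod_cast hj
    have hj0 : (0 : ℝ) < j := by linarith
    have h1 := m1 j hj hjn
    have h5 := hW.pos j hj
    have h6 : (γ j) ^ (-A) ≤ c₀ ^ (-A) * (j : ℝ) ^ (a * A) := by
      calc (γ j) ^ (-A) ≤ (c₀ * (j : ℝ) ^ (-a)) ^ (-A) :=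
            Real.rpow_le_rpow_of_nonpos (by positivity) (hlow j hj) (by linarith)
        _ = c₀ ^ (-A) * (j : ℝ) ^ (a * A) := by
            rw [Real.mul_rpow hc0.le (by positivity), ← Real.rpow_mul hj0.le]
            congr 2; ring
    have h7 : ((n - j).divisors.card : ℝ) ≤ (γ j) ^ (-A) * (C * j.divisors.card) := by
      rw [Real.rpow_neg h5.le, ← div_eq_inv_mul, le_div_iff₀ (by positivity), mul_comm]
      exact h1
    calc ((n - j).divisors.card : ℝ) ≤ (γ j) ^ (-A) * (C * j.divisors.card) := h7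
      _ ≤ (c₀ ^ (-A) * (j : ℝ) ^ (a * A)) * (C * (D * (j : ℝ) ^ (ε' / 4))) := by
          gcongr
          exact hD j hj
      _ = (C * D * c₀ ^ (-A)) * (j : ℝ) ^ (a * A + ε' / 4) := by
          rw [Real.rpow_add hj0]; ring
      _ ≤ C' * (j : ℝ) ^ (Real.exp 1 * Real.log 2 + ε) := by
          have h8 : a * A + ε' / 4 ≤ Real.exp 1 * Real.log 2 + ε := by
            rw [ha]
            nlinarith
          have h9 : C * D * c₀ ^ (-A) ≤ C' := by
            rw [hC']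
            have : 0 ≤ C * D * c₀ ^ (-A) := by positivity
            linarith
          have h10 : (j : ℝ) ^ (a * A + ε' / 4) ≤ (j : ℝ) ^ (Real.exp 1 * Real.log 2 + ε) :=
            Real.rpow_le_rpow_of_exponent_le hj1 h8
          exact mul_le_mul h9 h10 (by positivity) (by linarith)
  · intro y hy hyn
    have hy1 : (1 : ℝ) ≤ y := by exact_mod_cast hy
    refine (m2 y hy hyn).trans ?_
    have h10 : (y : ℝ) ^ (thet + ε') ≤
        (y : ℝ) ^ ((1 + Real.log (Real.log 2)) / Real.log 2 + ε) :=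
      Real.rpow_le_rpow_of_exponent_le hy1 (by unfold thet; linarith)
    exact mul_le_mul hCC1 h10 (by positivity) (by linarith)
  · intro y hy hyn
    have hy1 : (1 : ℝ) ≤ y := by exact_mod_cast hy
    refine (m3 y hy hyn).trans ?_
    have h10 : (y : ℝ) ^ (2 + ε') ≤ (y : ℝ) ^ (2 + ε) :=
      Real.rpow_le_rpow_of_exponent_le hy1 (by linarith)
    exact mul_le_mul hCC1 h10 (by positivity) (by linarith)

end Pool.Agent.MP_f32cb9_nt.UW
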