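import Pool.Agent.MP_f32cb9_nt.UW.A13

set_option autoImplicit false

open Finset Filter

/-!
# Uniform windows: sparse sets
-/

namespace Pool.Agent.MP_f32cb9_nt.UW

open Pool.Agent.MP_f32cb9_nt

/-- the constant in the dyadic summation -/
noncomputable def KS (σ β : ℝ) : ℝ := 2 ^ σ / (1 - 2 ^ (-β))

theorem two_neg_lt {β : ℝ} (hβ : 0 < β) : (2 : ℝ) ^ (-β) < 1 :=
  Real.rpow_lt_one_of_one_lt_of_neg (by norm_num) (by linarith)

theorem one_le_KS {σ β : ℝ} (hσ : 0 ≤ σ) (hβ : 0 < β) : 1 ≤ KS σ β := by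
  have h1 := two_neg_lt hβ
  have h2 : (0 : ℝ) < 2 ^ (-β) := by positivity
  unfold KS
  rw [le_div_iff₀ (by linarith)]
  have : (1 : ℝ) ≤ 2 ^ σ := Real.one_le_rpow (by norm_num) hσ
  linarith

theorem sparse_sum {σ β B : ℝ} (hσ : 0 ≤ σ) (hβ : 0 < β) (hB : 0 ≤ B) {S : Set ℕ}
    (hS : ∀ y : ℕ, 1 ≤ y → ({j : ℕ | j ∈ S ∧ 1 ≤ j ∧ j ≤ y}.ncard : ℝ) ≤ B * (y : ℝ) ^ σ)
    (s : Finset ℕ) (hs : ∀ j ∈ s, j ∈ S ∧ 1 ≤ j) :
    ∑ j ∈ s, (j : ℝ) ^ (-(σ + β)) ≤ B * KS σ β := by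
  have hr := two_neg_lt hβ
  have hr0 : (0 : ℝ) < 2 ^ (-β) := by positivity
  set K : ℕ := s.sup id + 1 with hK
  have hmaps : ∀ j ∈ s, Nat.log 2 j ∈ range K := by
    intro j hj
    rw [mem_range]
    have h1 : j ≤ s.sup id := Finset.le_sup (f := id) hj
    have h2 : Nat.log 2 j ≤ j := Nat.log_le_self 2 j
    omega
  rw [← Finset.sum_fiberwise_of_maps_to hmaps]
  have hterm : ∀ k ∈ range K, ∑ j ∈ s.filter (fun j => Nat.log 2 j = k),
      (j : ℝ) ^ (-(σ + β)) ≤ B * 2 ^ σ * ((2 : ℝ) ^ (-β)) ^ k := by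
    intro k _
    have h1 : ∀ j ∈ s.filter (fun j => Nat.log 2 j = k),
        (j : ℝ) ^ (-(σ + β)) ≤ ((2 : ℝ) ^ (k : ℝ)) ^ (-(σ + β)) := by
      intro j hj
      obtain ⟨hj1, hj2⟩ := mem_filter.1 hj
      have hj0 : j ≠ 0 := by have := (hs j hj1).2; omega
      have h2 : 2 ^ k ≤ j := by
        rw [← hj2]
        exact Nat.pow_log_le_self 2 hj0
      have h3 : (2 : ℝ) ^ (k : ℝ) ≤ j := by
        rw [Real.rpow_natCast]
        exact_mod_cast h2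
      exact Real.rpow_le_rpow_of_nonpos (by positivity) h3 (by linarith)
    have h4 : ((s.filter (fun j => Nat.log 2 j = k)).card : ℝ) ≤
        B * ((2 ^ (k + 1) : ℕ) : ℝ) ^ σ := by
      refine le_trans ?_ (hS (2 ^ (k + 1)) Nat.one_le_two_pow)
      have h5 : (s.filter (fun j => Nat.log 2 j = k)).card ≤
          {j : ℕ | j ∈ S ∧ 1 ≤ j ∧ j ≤ 2 ^ (k + 1)}.ncard := by
        rw [← Set.ncard_coe_finset]
        apply Set.ncard_le_ncard
        · intro j hj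
          obtain ⟨hj1, hj2⟩ := mem_filter.1 (Finset.mem_coe.1 hj)
          refine ⟨(hs j hj1).1, (hs j hj1).2, ?_⟩
          rw [← hj2]
          exact (Nat.lt_pow_succ_log_self (by norm_num) j).le
        · exact (Set.finite_Iic (2 ^ (k + 1))).subset fun j hj => hj.2.2
      exact_mod_cast h5
    calc ∑ j ∈ s.filter (fun j => Nat.log 2 j = k), (j : ℝ) ^ (-(σ + β))
        ≤ ∑ _j ∈ s.filter (fun j => Nat.log 2 j = k), ((2 : ℝ) ^ (k : ℝ)) ^ (-(σ + β)) :=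
          Finset.sum_le_sum h1
      _ = ((s.filter (fun j => Nat.log 2 j = k)).card : ℝ) * ((2 : ℝ) ^ (k : ℝ)) ^ (-(σ + β)) := by
          rw [Finset.sum_const, nsmul_eq_mul]
      _ ≤ (B * ((2 ^ (k + 1) : ℕ) : ℝ) ^ σ) * ((2 : ℝ) ^ (k : ℝ)) ^ (-(σ + β)) := by gcongr
      _ = B * (((2 ^ (k + 1) : ℕ) : ℝ) ^ σ * ((2 : ℝ) ^ (k : ℝ)) ^ (-(σ + β))) := by ring
      _ = B * (2 ^ σ * ((2 : ℝ) ^ (-β)) ^ k) := by
          congr 1
          have e1 : ((2 ^ (k + 1) : ℕ) : ℝ) = (2 : ℝ) ^ ((k : ℝ) + 1) := by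
            push_cast
            rw [← Real.rpow_natCast]
            push_cast
            rfl
          rw [e1, ← Real.rpow_mul (by norm_num), ← Real.rpow_mul (by norm_num),
            ← Real.rpow_natCast (n := k), ← Real.rpow_mul (by norm_num),
            ← Real.rpow_add (by norm_num), ← Real.rpow_add (by norm_num)]
          congr 1
          ring
      _ = _ := by ring
  refine (Finset.sum_le_sum hterm).trans ?_
  rw [← Finset.mul_sum]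
  have h6 : ∑ k ∈ range K, ((2 : ℝ) ^ (-β)) ^ k ≤ (1 - (2 : ℝ) ^ (-β))⁻¹ := by
    rw [← tsum_geometric_of_lt_one hr0.le hr]
    exact (summable_geometric_of_lt_one hr0.le hr).sum_le_tsum _ (fun _ _ => by positivity)
  calc B * 2 ^ σ * ∑ k ∈ range K, ((2 : ℝ) ^ (-β)) ^ k
      ≤ B * 2 ^ σ * (1 - (2 : ℝ) ^ (-β))⁻¹ := by gcongr
    _ = _ := by unfold KS; ring

/-- sparse sets -/
theorem sparse {ε σ : ℝ} (B : ℝ) (hε : 0 < ε) (hσ : 0 ≤ σ) (hσ1 : σ ≤ 1) :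
    ∃ C : ℝ, 1 ≤ C ∧ ∃ N₀ : ℕ, ∀ S : Set ℕ,
      (∀ y : ℕ, 1 ≤ y → ({j : ℕ | j ∈ S ∧ 1 ≤ j ∧ j ≤ y}.ncard : ℝ) ≤ B * (y : ℝ) ^ σ) →
      ∀ N : ℕ, N₀ ≤ N → (N : ℝ) ^ (99 / 100 : ℝ) ≤
        ({n : ℕ | n ≤ N ∧ ((∀ j ∈ S, 1 ≤ j → j < n →
          ((n - j).divisors.card : ℝ) ≤ C * (j : ℝ) ^ (σ * (Real.exp 1 * Real.log 2) + ε)) ∧
            Fine C ε n)}.ncard : ℝ) := by
  classical
  obtain ⟨l0, l1, l2⟩ := l2_bds
  obtain ⟨a1, a2⟩ := v1_bds
  have hev : Real.exp 1 = 1 + v1 := by unfold v1; ring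
  set L : ℝ := Real.exp 1 * Real.log 2 with hL
  have hL2 : L ≤ 2 := by rw [hL, hev]; nlinarith
  have hL0 : 0 < L := by positivity
  set ε₁ : ℝ := min ε 1 with hε₁
  have e0 : 0 < ε₁ := lt_min hε one_pos
  have e1 : ε₁ ≤ 1 := min_le_right _ _
  have eε : ε₁ ≤ ε := min_le_left _ _
  set β : ℝ := ε₁ / 8 with hβ
  have hβ0 : 0 < β := by positivity
  set B' : ℝ := max B 1 with hB'
  have hB1 : 1 ≤ B' := le_max_right _ _
  have hKS := one_le_KS hσ hβ0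
  set κ : ℝ := 1 / (B' * KS σ β) with hκ
  have hBK : 1 ≤ B' * KS σ β := by nlinarith
  have hκ0 : 0 < κ := by positivity
  have hκ1 : κ ≤ 1 := by rw [hκ, div_le_one (by positivity)]; exact hBK
  obtain ⟨D, hD1, hD⟩ := Lib.helper69.card_divisors_le_rpow (ε₁ / 4) (by positivity)
  obtain ⟨C, hC1, N₀, hC⟩ := weights (ε := ε₁ / 4) (η := β) (by positivity) hβ0
  have hC0 : 0 < C := by linarith
  have hκp : 1 ≤ κ ^ (-(L + ε₁ / 4)) :=
    Real.one_le_rpow_of_pos_of_le_one_of_nonpos hκ0 hκ1 (by linarith)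
  set C' : ℝ := C * D * κ ^ (-(L + ε₁ / 4)) with hC'
  have hDκ : 1 ≤ D * κ ^ (-(L + ε₁ / 4)) := by nlinarith
  have hCC : C ≤ C' := by
    calc C = C * 1 := by ring
      _ ≤ C * (D * κ ^ (-(L + ε₁ / 4))) := by gcongr
      _ = _ := by rw [hC']; ring
  refine ⟨C', hC1.trans hCC, N₀, ?_⟩
  intro S hS N hN
  have hS' : ∀ y : ℕ, 1 ≤ y →
      ({j : ℕ | j ∈ S ∧ 1 ≤ j ∧ j ≤ y}.ncard : ℝ) ≤ B' * (y : ℝ) ^ σ := by
    intro y hy
    refine (hS y hy).trans ?_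
    exact mul_le_mul_of_nonneg_right (le_max_left _ _) (by positivity)
  set c : ℕ → ℝ := fun j => if j ∈ S then κ * (j : ℝ) ^ (-(σ + β)) else 0 with hc
  have hc1 : ∀ j : ℕ, 1 ≤ j → 0 ≤ c j ∧ c j ≤ (j : ℝ) ^ (-β) := by
    intro j hj
    have hj1 : (1 : ℝ) ≤ j := by exact_mod_cast hj
    simp only [hc]
    split_ifs
    · refine ⟨by positivity, ?_⟩
      calc κ * (j : ℝ) ^ (-(σ + β)) ≤ 1 * (j : ℝ) ^ (-(σ + β)) := by gcongr
        _ = (j : ℝ) ^ (-(σ + β)) := one_mul _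
        _ ≤ _ := Real.rpow_le_rpow_of_exponent_le hj1 (by linarith)
    · exact ⟨le_rfl, by positivity⟩
  have hc2 : ∀ s : Finset ℕ, (∀ j ∈ s, 1 ≤ j) → ∑ j ∈ s, c j ≤ 1 := by
    intro s hs
    simp only [hc]
    rw [← Finset.sum_filter, ← Finset.mul_sum]
    have h1 := sparse_sum hσ hβ0 (by linarith) hS' (s.filter (fun j => j ∈ S))
      (fun j hj => ⟨(mem_filter.1 hj).2, hs j (mem_filter.1 hj).1⟩)
    calc κ * ∑ j ∈ s.filter (fun j => j ∈ S), (j : ℝ) ^ (-(σ + β)) ≤ κ * (B' * KS σ β) := by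
          gcongr
      _ = 1 := by rw [hκ]; field_simp
  refine (hC c hc1 hc2 N hN).trans ?_
  have hsub : {n : ℕ | n ≤ N ∧ ((∀ j : ℕ, 1 ≤ j → j < n →
          (c j) ^ (L + ε₁ / 4) * ((n - j).divisors.card : ℝ) ≤
            C * j.divisors.card) ∧ Fine C (ε₁ / 4) n)} ⊆
      {n : ℕ | n ≤ N ∧ ((∀ j ∈ S, 1 ≤ j → j < n →
          ((n - j).divisors.card : ℝ) ≤ C' * (j : ℝ) ^ (σ * L + ε)) ∧
            Fine C' ε n)} := by
    rintro n ⟨hn1, hn2, hn3⟩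
    refine ⟨hn1, ?_, hn3.mono hCC hC0.le (by linarith)⟩
    intro j hjS hj hjn
    have hj1 : (1 : ℝ) ≤ j := by exact_mod_cast hj
    have hj0 : (0 : ℝ) < j := by linarith
    have h1 := hn2 j hj hjn
    simp only [hc] at h1
    rw [if_pos hjS] at h1
    have h2 : 0 < κ * (j : ℝ) ^ (-(σ + β)) := by positivity
    have h3 : ((n - j).divisors.card : ℝ) ≤
        (κ * (j : ℝ) ^ (-(σ + β))) ^ (-(L + ε₁ / 4)) * (C * j.divisors.card) := by
      rw [Real.rpow_neg h2.le, ← div_eq_inv_mul, le_div_iff₀ (by positivity), mul_comm]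
      exact h1
    have h4 : (κ * (j : ℝ) ^ (-(σ + β))) ^ (-(L + ε₁ / 4)) =
        κ ^ (-(L + ε₁ / 4)) * (j : ℝ) ^ ((σ + β) * (L + ε₁ / 4)) := by
      rw [Real.mul_rpow hκ0.le (by positivity), ← Real.rpow_mul hj0.le]
      congr 2; ring
    rw [h4] at h3
    calc ((n - j).divisors.card : ℝ)
        ≤ κ ^ (-(L + ε₁ / 4)) * (j : ℝ) ^ ((σ + β) * (L + ε₁ / 4)) * (C * j.divisors.card) := h3
      _ ≤ κ ^ (-(L + ε₁ / 4)) * (j : ℝ) ^ ((σ + β) * (L + ε₁ / 4)) *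
          (C * (D * (j : ℝ) ^ (ε₁ / 4))) := by
          gcongr
          exact hD j hj
      _ = C' * (j : ℝ) ^ ((σ + β) * (L + ε₁ / 4) + ε₁ / 4) := by
          rw [Real.rpow_add hj0, hC']; ring
      _ ≤ C' * (j : ℝ) ^ (σ * L + ε) := by
          have h5 : (σ + β) * (L + ε₁ / 4) + ε₁ / 4 ≤ σ * L + ε := by
            have h6 : σ * (ε₁ / 4) ≤ 1 * (ε₁ / 4) :=
              mul_le_mul_of_nonneg_right hσ1 (by linarith)
            have h7 : β * (L + ε₁ / 4) ≤ β * (9 / 4) :=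
              mul_le_mul_of_nonneg_left (by linarith) hβ0.le
            have h8 : (σ + β) * (L + ε₁ / 4) = σ * L + σ * (ε₁ / 4) + β * (L + ε₁ / 4) := by
              ring
            rw [h8]
            linarith
          have h9 : 0 ≤ C' := by positivity
          apply mul_le_mul_of_nonneg_left _ h9
          exact Real.rpow_le_rpow_of_exponent_le hj1 h5
  have h10 := Set.ncard_le_ncard hsub ((Set.finite_Iic N).subset fun n hn => hn.1)
  exact_mod_cast h10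

/-- sparse sets, the case of small exponent -/
theorem sparse_good {σ : ℝ} (B : ℝ) (hσ : 0 ≤ σ) (hσ1 : σ * (Real.exp 1 * Real.log 2) < 1) :
    ∃ C N₀ : ℕ, ∀ S : Set ℕ,
      (∀ y : ℕ, 1 ≤ y → ({j : ℕ | j ∈ S ∧ 1 ≤ j ∧ j ≤ y}.ncard : ℝ) ≤ B * (y : ℝ) ^ σ) →
      ∀ N : ℕ, N₀ ≤ N → (N : ℝ) ^ (99 / 100 : ℝ) ≤
        ({n : ℕ | n ≤ N ∧ (∀ j ∈ S, 1 ≤ j → j < n →
          (n - j).divisors.card ≤ j + C ∧ (C ≤ j → (n - j).divisors.card ≤ j))}.ncard : ℝ) := by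
  obtain ⟨l0, l1, l2⟩ := l2_bds
  obtain ⟨a1, a2⟩ := v1_bds
  have hev : Real.exp 1 = 1 + v1 := by unfold v1; ring
  set L : ℝ := Real.exp 1 * Real.log 2 with hL
  have hL1 : 1 ≤ L := by rw [hL, hev]; nlinarith
  have hσ' : σ ≤ 1 := by nlinarith
  obtain ⟨C, hC1, N₀, hC⟩ := sparse B (ε := (1 - σ * L) / 2) (by linarith) hσ hσ'
  set θ : ℝ := σ * L + (1 - σ * L) / 2 with hθ
  have hθ1 : 0 < 1 - θ := by rw [hθ]; linarith
  have hθ0 : 0 ≤ θ := by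
    have : 0 ≤ σ * L := by positivity
    rw [hθ]; linarith
  set J : ℝ := C ^ (1 / (1 - θ)) with hJ
  have hJ1 : 1 ≤ J := Real.one_le_rpow hC1 (by positivity)
  have hJp : J ^ (1 - θ) = C := by
    rw [hJ, ← Real.rpow_mul (by linarith), one_div_mul_cancel hθ1.ne', Real.rpow_one]
  refine ⟨⌈J⌉₊, N₀, ?_⟩
  intro S hS N hN
  refine (hC S hS N hN).trans ?_
  have hsub : {n : ℕ | n ≤ N ∧ ((∀ j ∈ S, 1 ≤ j → j < n →
          ((n - j).divisors.card : ℝ) ≤ C * (j : ℝ) ^ θ) ∧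
            Fine C ((1 - σ * L) / 2) n)} ⊆
      {n : ℕ | n ≤ N ∧ (∀ j ∈ S, 1 ≤ j → j < n →
          (n - j).divisors.card ≤ j + ⌈J⌉₊ ∧
            (⌈J⌉₊ ≤ j → (n - j).divisors.card ≤ j))} := by
    rintro n ⟨hn1, hn2, _⟩
    refine ⟨hn1, ?_⟩
    intro j hjS hj hjn
    have hj1 : (1 : ℝ) ≤ j := by exact_mod_cast hj
    have hj0 : (0 : ℝ) < j := by linarith
    have h1 := hn2 j hjS hj hjn
    have h2 : J ≤ j → ((n - j).divisors.card : ℝ) ≤ j := by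
      intro hJj
      refine h1.trans ?_
      calc C * (j : ℝ) ^ θ = J ^ (1 - θ) * (j : ℝ) ^ θ := by rw [hJp]
        _ ≤ (j : ℝ) ^ (1 - θ) * (j : ℝ) ^ θ := by gcongr
        _ = j := by rw [← Real.rpow_add hj0]; norm_num
    constructor
    · rcases le_total J j with h3 | h3
      · have : (n - j).divisors.card ≤ j := by exact_mod_cast h2 h3
        omega
      · have h4 : ((n - j).divisors.card : ℝ) ≤ J := by
          refine h1.trans ?_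
          calc C * (j : ℝ) ^ θ ≤ C * J ^ θ := by gcongr
            _ = J ^ (1 - θ) * J ^ θ := by rw [hJp]
            _ = J := by rw [← Real.rpow_add (by linarith)]; norm_num
        have h5 : ((n - j).divisors.card : ℝ) ≤ (⌈J⌉₊ : ℝ) := h4.trans (Nat.le_ceil J)
        have h6 : (n - j).divisors.card ≤ ⌈J⌉₊ := by exact_mod_cast h5
        omega
    · intro hJj
      have h7 : J ≤ j := (Nat.le_ceil J).trans (by exact_mod_cast hJj)
      exact_mod_cast h2 h7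
  have h10 := Set.ncard_le_ncard hsub ((Set.finite_Iic N).subset fun n hn => hn.1)
  exact_mod_cast h10

end Pool.Agent.MP_f32cb9_nt.UW
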