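import Pool.Agent.MP_f32cb9_nt.UW.A1

set_option autoImplicit false

open Finset

/-!
# Uniform windows: level of the sieve
-/

namespace Pool.Agent.MP_f32cb9_nt.UW

open Pool.Agent.MP_f32cb9_nt

/-- the errors of the blocks -/
noncomputable def ep (i : ℕ) : ℝ := 1 / (8 * 4 ^ i)

theorem ep_nonneg (i : ℕ) : 0 ≤ ep i := by unfold ep; positivity

theorem sum_ep (m : ℕ) : ∑ i ∈ range m, ep i ≤ 1 / 4 := by
  have h : ∑ i ∈ range m, ep i = 1 / 6 - 1 / (6 * 4 ^ m) := by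
    induction m with
    | zero => norm_num
    | succ m ih =>
      rw [Finset.sum_range_succ, ih]
      unfold ep
      rw [pow_succ]
      field_simp
      ring
  rw [h]
  have : (0 : ℝ) ≤ 1 / (6 * 4 ^ m) := by positivity
  linarith

theorem exp11 : Real.exp (11 / 10) ≤ 5 := by
  have h1 : Real.exp 1 < 2.7182818286 := Real.exp_one_lt_d9
  have h2 : Real.exp (1 / 10) ≤ 1 / (1 - 1 / 10) :=
    Real.exp_bound_div_one_sub_of_interval (by norm_num) (by norm_num)
  have e : Real.exp (11 / 10) = Real.exp 1 * Real.exp (1 / 10) := by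
    rw [← Real.exp_add]; norm_num
  rw [e]
  have h3 : 0 < Real.exp (1 / 10) := Real.exp_pos _
  have h4 : Real.exp (1 / 10) ≤ 10 / 9 := by
    refine h2.trans (by norm_num)
  nlinarith

/-- Pure inequality behind the block estimate. -/
theorem pow_fact_le (n : ℕ) (hn : 0 < n) (κ d : ℝ) (h0 : 0 ≤ κ) (h1 : 20 * κ ≤ n)
    (hd : 10 * d ≤ n) : κ ^ n / n.factorial * Real.exp d ≤ (1 / 4) ^ n := by
  have hn0 : (0 : ℝ) < n := by exact_mod_cast hn
  have hf : (0 : ℝ) < n.factorial := by exact_mod_cast n.factorial_pos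
  have h2 : (n : ℝ) ^ n / n.factorial ≤ Real.exp n := Real.pow_div_factorial_le_exp n hn0.le n
  have h3 : κ ^ n ≤ (1 / 20) ^ n * (n : ℝ) ^ n := by
    rw [← mul_pow]
    apply pow_le_pow_left₀ h0
    linarith
  have h4 : κ ^ n / n.factorial ≤ (1 / 20) ^ n * Real.exp n := by
    calc κ ^ n / n.factorial ≤ ((1 / 20) ^ n * (n : ℝ) ^ n) / n.factorial :=
          div_le_div_of_nonneg_right h3 hf.le
      _ = (1 / 20) ^ n * ((n : ℝ) ^ n / n.factorial) := by ring
      _ ≤ _ := by gcongr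
  have h5 : Real.exp d ≤ Real.exp (n / 10) := Real.exp_le_exp.2 (by linarith)
  calc κ ^ n / n.factorial * Real.exp d ≤ ((1 / 20) ^ n * Real.exp n) * Real.exp (n / 10) := by
        gcongr
    _ = (1 / 20) ^ n * (Real.exp (11 / 10)) ^ n := by
        rw [mul_assoc, ← Real.exp_add, ← Real.exp_nat_mul]
        congr 2
        ring
    _ ≤ (1 / 20) ^ n * 5 ^ n := by
        have := exp11
        gcongr
    _ = (1 / 4) ^ n := by
        rw [← mul_pow]; norm_num

namespace Cfg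

variable {c : Cfg}

theorem esy_small (h : c.Ok) (i : ℕ) :
    esy (dens c.R) (2 * c.b i + 1) (c.B i) ≤ ep i * Vb c.R c.B i := by
  have h1 := esy_le (dens c.R) (2 * c.b i + 1) (c.B i) (fun p hp => (dens_bounds h hp).1)
  have hk := kappa_le h i
  have hs0 : 0 ≤ ∑ p ∈ c.B i, dens c.R p := Finset.sum_nonneg fun p hp => (dens_bounds h hp).1
  set n := 2 * c.b i + 1 with hn
  have hn40 : (40 * (c.cnt i : ℝ)) + 2 * i + 9 = n := by
    rw [hn, b]; push_cast; ring
  have hi0 : (0 : ℝ) ≤ i := Nat.cast_nonneg i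
  have hc0 : (0 : ℝ) ≤ c.cnt i := Nat.cast_nonneg _
  have h2 := pow_fact_le n (by omega) (∑ p ∈ c.B i, dens c.R p) (4 * c.cnt i) hs0
    (by linarith) (by linarith)
  have h3 : ((1 : ℝ) / 4) ^ n ≤ ep i := by
    have h4 : 2 * i + 9 ≤ n := by rw [hn, b]; omega
    have h5 : ((1 : ℝ) / 4) ^ n ≤ (1 / 4) ^ (2 * i + 9) :=
      pow_le_pow_of_le_one (by norm_num) (by norm_num) h4
    refine h5.trans ?_
    unfold ep
    rw [one_div_pow]
    apply one_div_le_one_div_of_le (by positivity)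
    have h6 : (4 : ℝ) ^ (2 * i + 9) = 4 ^ i * 4 ^ i * 4 ^ 9 := by
      rw [pow_add, two_mul, pow_add]
    rw [h6]
    have h7 : (1 : ℝ) ≤ 4 ^ i := one_le_pow₀ (by norm_num)
    nlinarith
  have hexp : 0 < Real.exp (-(4 * c.cnt i : ℝ)) := Real.exp_pos _
  have h8 : esy (dens c.R) n (c.B i) * Real.exp (4 * c.cnt i) ≤ ep i := by
    refine le_trans ?_ (h2.trans h3)
    exact mul_le_mul_of_nonneg_right h1 (Real.exp_pos _).le
  have h9 : esy (dens c.R) n (c.B i) ≤ ep i * Real.exp (-(4 * c.cnt i)) := by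
    have h10 := mul_le_mul_of_nonneg_right h8 hexp.le
    rwa [mul_assoc, ← Real.exp_add, add_neg_cancel, Real.exp_zero, mul_one] at h10
  exact h9.trans (mul_le_mul_of_nonneg_left (Vb_ge h i) (ep_nonneg i))

theorem block_level (h : c.Ok) (i : ℕ) :
    Wt c.R (2 * c.b i + 1) (c.B i) ≤
      (2 : ℝ) ^ (2 * ((c.E : ℝ) / 2 ^ i) * (40 * (c.cnt i : ℝ) + 2 * i + 9)) := by
  rcases (c.B i).eq_empty_or_nonempty with he | ⟨p, hp⟩
  · rw [he]
    have : Wt c.R (2 * c.b i + 1) ∅ = 1 := by simp [Wt]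
    rw [this]
    exact Real.one_le_rpow (by norm_num) (by positivity)
  · have hp' := c.mem_B.1 hp
    have hD := h.D
    have hge : c.g < c.e i := by
      by_contra hcon
      have := Nat.pow_le_pow_right (n := 2) (by norm_num) (not_lt.1 hcon)
      omega
    have hcard : ∑ p ∈ c.B i, ((c.R p).card : ℝ) ≤ c.J.card * 2 ^ c.e i := by
      have h1 : ∀ p ∈ c.B i, ((c.R p).card : ℝ) ≤ c.J.card := by
        intro p hp
        exact_mod_cast (R_card' h hp).trans (c.cnt_le i)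
      refine (Finset.sum_le_sum h1).trans ?_
      rw [Finset.sum_const, nsmul_eq_mul, mul_comm]
      have h2 : (c.B i).card ≤ 2 ^ c.e i := by
        have h3 : c.B i ⊆ Icc 1 (2 ^ c.e i) := by
          intro q hq
          have := c.mem_B.1 hq
          rw [mem_Icc]
          exact ⟨this.2.2.2.one_le, this.2.2.1⟩
        simpa using Finset.card_le_card h3
      have h4 : ((c.B i).card : ℝ) ≤ 2 ^ c.e i := by exact_mod_cast h2
      exact mul_le_mul_of_nonneg_left h4 (Nat.cast_nonneg _)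
    have hb : (1 : ℝ) + ∑ p ∈ c.B i, ((c.R p).card : ℝ) ≤ 2 ^ (2 * c.e i) := by
      have h1 : (c.J.card : ℝ) + 1 ≤ 2 ^ c.e i := by
        have h2 : 2 ^ c.g ≤ 2 ^ c.e i := Nat.pow_le_pow_right (by norm_num) hge.le
        have h3 : c.J.card + 1 ≤ 2 ^ c.e i := by omega
        exact_mod_cast h3
      have h0 : (1 : ℝ) ≤ 2 ^ c.e i := one_le_pow₀ (by norm_num)
      have e : (2 : ℝ) ^ (2 * c.e i) = 2 ^ c.e i * 2 ^ c.e i := by rw [two_mul, pow_add]
      rw [e]
      nlinarith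
    have h0 : (0 : ℝ) ≤ 1 + ∑ p ∈ c.B i, ((c.R p).card : ℝ) := by positivity
    calc Wt c.R (2 * c.b i + 1) (c.B i)
        ≤ (1 + ∑ p ∈ c.B i, ((c.R p).card : ℝ)) ^ (2 * c.b i + 1) := Wt_le _ _ _
      _ ≤ (2 ^ (2 * c.e i)) ^ (2 * c.b i + 1) := pow_le_pow_left₀ h0 hb _
      _ = (2 : ℝ) ^ ((2 * c.e i * (2 * c.b i + 1) : ℕ) : ℝ) := by
          rw [Real.rpow_natCast, ← pow_mul]
      _ ≤ _ := by
          apply Real.rpow_le_rpow_of_exponent_le (by norm_num)
          have h2 := c.e_le i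
          have h3 : (((2 * c.e i * (2 * c.b i + 1) : ℕ) : ℝ)) =
              2 * (c.e i : ℝ) * (40 * (c.cnt i : ℝ) + 2 * i + 9) := by
            unfold b; push_cast; ring
          rw [h3]
          gcongr

theorem sum_idx (m : ℕ) : ∑ i ∈ range m, (2 * (i : ℝ) + 9) / 2 ^ i ≤ 22 := by
  have h : ∑ i ∈ range m, (2 * (i : ℝ) + 9) / 2 ^ i = 22 - (4 * (m : ℝ) + 22) / 2 ^ m := by
    induction m with
    | zero => norm_num
    | succ m ih =>
      rw [Finset.sum_range_succ, ih, pow_succ]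
      push_cast
      field_simp
      ring
  rw [h]
  have : (0 : ℝ) ≤ (4 * (m : ℝ) + 22) / 2 ^ m := by positivity
  linarith

theorem WW_le (h : c.Ok) : WW c.R c.B c.b c.m ≤ (2 : ℝ) ^ (364 * (c.E : ℝ)) := by
  unfold WW
  calc ∏ i ∈ range c.m, Wt c.R (2 * c.b i + 1) (c.B i)
      ≤ ∏ i ∈ range c.m, (2 : ℝ) ^ (2 * ((c.E : ℝ) / 2 ^ i) * (40 * (c.cnt i : ℝ) + 2 * i + 9)) :=
        Finset.prod_le_prod (fun i _ => Wt_nonneg _ _ _) fun i _ => block_level h i
    _ = (2 : ℝ) ^ (∑ i ∈ range c.m,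
          2 * ((c.E : ℝ) / 2 ^ i) * (40 * (c.cnt i : ℝ) + 2 * i + 9)) := by
        rw [Real.rpow_sum_of_pos (by norm_num)]
    _ ≤ _ := by
        apply Real.rpow_le_rpow_of_exponent_le (by norm_num)
        have e1 : ∑ i ∈ range c.m, 2 * ((c.E : ℝ) / 2 ^ i) * (40 * (c.cnt i : ℝ) + 2 * i + 9) =
            2 * c.E * (40 * ∑ i ∈ range c.m, (c.cnt i : ℝ) / 2 ^ i +
              ∑ i ∈ range c.m, (2 * (i : ℝ) + 9) / 2 ^ i) := by
          rw [Finset.mul_sum, ← Finset.sum_add_distrib, Finset.mul_sum]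
          apply Finset.sum_congr rfl
          intro i _
          field_simp
          ring
        rw [e1]
        have h1 := h.S
        have h2 := sum_idx c.m
        have hE : (0 : ℝ) ≤ c.E := Nat.cast_nonneg _
        nlinarith

/-- the sieve density -/
noncomputable def V (c : Cfg) : ℝ := VV c.R c.B c.m

theorem V_ge (h : c.Ok) : Real.exp (-(c.E : ℝ)) ≤ c.V := by
  unfold V VV
  have h1 : ∏ i ∈ range c.m, Real.exp (-(4 * c.cnt i : ℝ)) ≤ ∏ i ∈ range c.m, Vb c.R c.B i :=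
    Finset.prod_le_prod (fun _ _ => (Real.exp_pos _).le) fun i _ => Vb_ge h i
  refine le_trans ?_ h1
  rw [← Real.exp_sum]
  apply Real.exp_le_exp.2
  rw [Finset.sum_neg_distrib, ← Finset.mul_sum]
  have h2 : (4 : ℝ) * ∑ i ∈ range c.m, (c.cnt i : ℝ) ≤ c.E := by exact_mod_cast h.L
  linarith

theorem V_pos (h : c.Ok) : 0 < c.V := lt_of_lt_of_le (Real.exp_pos _) (V_ge h)

/-- `exp (-E) ≥ 2 ^ (-2 E)` -/
theorem V_ge_two (h : c.Ok) : (2 : ℝ) ^ (-(2 * (c.E : ℝ))) ≤ c.V := by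
  refine le_trans ?_ (V_ge h)
  rw [Real.rpow_def_of_pos (by norm_num)]
  apply Real.exp_le_exp.2
  have h1 := Real.log_two_gt_d9
  have hE : (0 : ℝ) ≤ c.E := Nat.cast_nonneg _
  nlinarith

/-- the length of the interval -/
def X (c : Cfg) : ℕ := 2 ^ (2912 * c.E)

theorem X_rpow (c : Cfg) : (c.X : ℝ) = (2 : ℝ) ^ (2912 * (c.E : ℝ)) := by
  unfold X
  push_cast
  rw [← Real.rpow_natCast]
  push_cast
  rfl

theorem X_pos (c : Cfg) : (0 : ℝ) < c.X := by unfold X; positivity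

theorem m_le (h : c.Ok) : 6 * ((c.m : ℝ) + 1) ≤ (2 : ℝ) ^ (2 * (c.E : ℝ)) := by
  have h6 := h.E6
  have h1 : c.m ≤ c.E + 1 := by
    unfold m
    have := Nat.log_le_self 2 c.E
    omega
  have h2 : 6 * (c.m + 1) ≤ 2 ^ (2 * c.E) := by
    have h3 : ∀ n : ℕ, 6 ≤ n → 6 * (n + 2) ≤ 2 ^ (2 * n) := by
      intro n hn
      induction n, hn using Nat.le_induction with
      | base => norm_num
      | succ n hn ih =>
        have e : 2 ^ (2 * (n + 1)) = 4 * 2 ^ (2 * n) := by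
          rw [mul_add, pow_add]; ring
        rw [e]
        omega
    have := h3 c.E h6
    omega
  have h3 : (2 : ℝ) ^ (2 * (c.E : ℝ)) = ((2 ^ (2 * c.E) : ℕ) : ℝ) := by
    push_cast
    rw [← Real.rpow_natCast]
    push_cast
    rfl
  rw [h3]
  exact_mod_cast h2

/-- the sifting function -/
noncomputable def ch (c : Cfg) (t : ℕ) : ℝ := chi c.R c.B c.m t

/-- the interval -/
def I (c : Cfg) : Finset ℕ := ivl c.X c.X

theorem lower (h : c.Ok) : (1 / 3) * (c.X : ℝ) * c.V ≤ ∑ t ∈ c.I, c.ch t := by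
  have h1 := sieve_lower c.R c.B c.b c.X c.X c.m
    (c.B_prime _) (fun i _ j _ hij => c.B_disj hij) (fun i _ p _ => c.R_subset _)
  have hd : ∀ i < c.m, ∀ p ∈ c.B i, 0 ≤ dens c.R p ∧ dens c.R p ≤ 1 :=
    fun i _ p hp => ⟨(dens_bounds h hp).1, by linarith [(dens_bounds h hp).2]⟩
  have h2 := HA_ge c.R c.B c.b ep ep_nonneg c.m (sum_ep _) hd (fun i _ => esy_small h i)
  have h3 := WW_le h
  have h4 := sum_ep c.m
  have hV := V_pos h
  have hV2 := V_ge_two h
  have hX := c.X_pos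
  have h5 : (1 / 2) * c.V ≤ HA c.R c.B c.b c.m := by
    refine le_trans ?_ h2
    apply mul_le_mul_of_nonneg_right _ hV.le
    linarith
  have h6 : ((c.m : ℝ) + 1) * WW c.R c.B c.b c.m ≤ (1 / 6) * (c.X : ℝ) * c.V := by
    have hm := m_le h
    have hE : (0 : ℝ) ≤ c.E := Nat.cast_nonneg _
    have hm0 : (0 : ℝ) ≤ (c.m : ℝ) + 1 := by positivity
    calc ((c.m : ℝ) + 1) * WW c.R c.B c.b c.m
        ≤ (1 / 6 * (2 : ℝ) ^ (2 * (c.E : ℝ))) * (2 : ℝ) ^ (364 * (c.E : ℝ)) := by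
          have : (c.m : ℝ) + 1 ≤ 1 / 6 * (2 : ℝ) ^ (2 * (c.E : ℝ)) := by linarith
          gcongr
          exact Finset.prod_nonneg fun i _ => Wt_nonneg _ _ _
      _ = 1 / 6 * (2 : ℝ) ^ (366 * (c.E : ℝ)) := by
          rw [mul_assoc, ← Real.rpow_add (by norm_num)]
          congr 2
          ring
      _ ≤ 1 / 6 * (2 : ℝ) ^ (2912 * (c.E : ℝ) + -(2 * (c.E : ℝ))) := by
          apply mul_le_mul_of_nonneg_left _ (by norm_num)
          apply Real.rpow_le_rpow_of_exponent_le (by norm_num)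
          linarith
      _ = 1 / 6 * (c.X : ℝ) * (2 : ℝ) ^ (-(2 * (c.E : ℝ))) := by
          rw [Real.rpow_add (by norm_num), X_rpow]
          ring
      _ ≤ _ := by gcongr
  have h7 := mul_le_mul_of_nonneg_left h5 hX.le
  unfold ch I
  linarith

end Cfg

end Pool.Agent.MP_f32cb9_nt.UW
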