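import Pool.Agent.MP_f32cb9_nt.UW.A2

set_option autoImplicit false

open Finset

/-!
# Uniform windows: upper bound in progressions
-/

namespace Pool.Agent.MP_f32cb9_nt.UW

open Pool.Agent.MP_f32cb9_nt

namespace Cfg

/-- the correction factor for a modulus -/
noncomputable def H (c : Cfg) (q : ℕ) : ℝ :=
  ∏ p ∈ q.primeFactors.filter (fun p => 2 ^ c.g < p), (1 + 2 * (c.J.card : ℝ) / p)

theorem one_le_prod_real {ι : Type*} (s : Finset ι) (f : ι → ℝ) (h : ∀ i ∈ s, 1 ≤ f i) :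
    1 ≤ ∏ i ∈ s, f i := by
  calc (1 : ℝ) = ∏ i ∈ s, 1 := by simp
    _ ≤ _ := Finset.prod_le_prod (fun _ _ => zero_le_one) h

theorem prod_le_prod_sub {ι : Type*} {s t : Finset ι} (f : ι → ℝ) (hst : s ⊆ t)
    (h : ∀ i ∈ t, 1 ≤ f i) : ∏ i ∈ s, f i ≤ ∏ i ∈ t, f i := by
  classical
  rw [← Finset.prod_sdiff hst]
  have h1 : 0 ≤ ∏ i ∈ s, f i := Finset.prod_nonneg fun i hi => zero_le_one.trans (h i (hst hi))
  exact le_mul_of_one_le_left h1
    (one_le_prod_real _ f fun i hi => h i (Finset.mem_sdiff.1 hi).1)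

theorem one_le_H (c : Cfg) (q : ℕ) : 1 ≤ c.H q := by
  unfold H
  apply one_le_prod_real
  intro p _
  have : (0 : ℝ) ≤ 2 * (c.J.card : ℝ) / p := by positivity
  linarith

variable {c : Cfg}

theorem inv_one_sub {x y : ℝ} (h0 : 0 ≤ x) (h1 : x ≤ 1 / 2) (hy : x ≤ y) :
    1 ≤ (1 - x) * (1 + 2 * y) := by
  nlinarith [mul_nonneg h0 (by linarith : (0 : ℝ) ≤ 1 / 2 - x),
    mul_nonneg (by linarith : (0 : ℝ) ≤ 1 - x) (by linarith : (0 : ℝ) ≤ y - x)]

theorem upper (h : c.Ok) {d : ℕ} (hd0 : 0 < d) (hdX : (d : ℝ) ≤ (2 : ℝ) ^ (2329 * (c.E : ℝ)))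
    (r : ℕ) :
    ∑ t ∈ c.I.filter (fun t => t ≡ r [MOD d]), c.ch t ≤ 3 * (c.X : ℝ) * c.V * c.H d / d := by
  classical
  set m := c.m with hm
  set B' : ℕ → Finset ℕ := fun i => (c.B i).filter (fun p => ¬ p ∣ d) with hB'
  have hsub : ∀ i, B' i ⊆ c.B i := fun i => Finset.filter_subset _ _
  have hdens : ∀ i, ∀ p ∈ c.B i, 0 ≤ dens c.R p ∧ dens c.R p ≤ 1 :=
    fun i p hp => ⟨(dens_bounds h hp).1, by linarith [(dens_bounds h hp).2]⟩
  have h1 := sieve_upper c.R B' c.b c.X c.X m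
    (fun i hi p hp => c.B_prime m i hi p (hsub i hp))
    (fun i _ j _ hij => (c.B_disj hij).mono (hsub i) (hsub j))
    (fun i _ p _ => c.R_subset _) d r hd0 (fun i _ p hp => (Finset.mem_filter.1 hp).2)
  have h2 : ∑ t ∈ c.I.filter (fun t => t ≡ r [MOD d]), c.ch t ≤
      ∑ t ∈ (ivl c.X c.X).filter (fun t => t ≡ r [MOD d]), chi c.R B' m t := by
    unfold I ch
    apply Finset.sum_le_sum
    intro t _
    unfold chi
    apply Finset.prod_le_prod
    · intro i _
      exact Finset.prod_nonneg fun p _ => by linarith [hit_le_one c.R t p]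
    · intro i _
      rw [← Finset.prod_filter_mul_prod_filter_not (c.B i) (fun p => ¬ p ∣ d)]
      have h3 : 0 ≤ ∏ p ∈ (c.B i).filter (fun p => ¬ p ∣ d), (1 - hit c.R t p) :=
        Finset.prod_nonneg fun p _ => by linarith [hit_le_one c.R t p]
      have h4 : ∏ p ∈ (c.B i).filter (fun p => ¬ ¬ p ∣ d), (1 - hit c.R t p) ≤ 1 := by
        apply Finset.prod_le_one
        · intro p _; linarith [hit_le_one c.R t p]
        · intro p _; linarith [hit_nonneg c.R t p]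
      exact mul_le_of_le_one_right h3 h4
  have hVb : ∀ i, Vb c.R c.B i ≤ Vb c.R B' i := by
    intro i
    unfold Vb
    rw [← Finset.prod_filter_mul_prod_filter_not (c.B i) (fun p => ¬ p ∣ d)]
    have h3 : 0 ≤ ∏ p ∈ (c.B i).filter (fun p => ¬ p ∣ d), (1 - dens c.R p) :=
      Finset.prod_nonneg fun p hp => by linarith [(hdens i p (Finset.mem_filter.1 hp).1).2]
    apply mul_le_of_le_one_right h3
    apply Finset.prod_le_one
    · intro p hp; linarith [(hdens i p (Finset.mem_filter.1 hp).1).2]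
    · intro p hp; linarith [(hdens i p (Finset.mem_filter.1 hp).1).1]
  have hesy : ∀ i < m, esy (dens c.R) (2 * c.b i + 1) (B' i) ≤ ep i * Vb c.R B' i := by
    intro i _
    have h3 : esy (dens c.R) (2 * c.b i + 1) (B' i) ≤ esy (dens c.R) (2 * c.b i + 1) (c.B i) := by
      unfold esy
      apply Finset.sum_le_sum_of_subset_of_nonneg
      · exact Finset.powersetCard_mono (hsub i)
      · intro Q hQ _
        exact Finset.prod_nonneg fun p hp => (hdens i p ((mem_powersetCard.1 hQ).1 hp)).1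
    refine h3.trans ((esy_small h i).trans ?_)
    exact mul_le_mul_of_nonneg_left (hVb i) (ep_nonneg i)
  obtain ⟨_, h5⟩ := GA_le c.R B' c.b ep m (fun i _ p hp => hdens i p (hsub i hp)) hesy
  have hVV' : 0 ≤ VV c.R B' m := VV_nonneg c.R B' m (fun i _ p hp => hdens i p (hsub i hp))
  have hexp : Real.exp (∑ i ∈ range m, ep i) ≤ 4 / 3 := by
    have h4 : Real.exp (∑ i ∈ range m, ep i) ≤ Real.exp (1 / 4) := Real.exp_le_exp.2 (sum_ep m)
    have h5 : Real.exp (1 / 4) ≤ 1 / (1 - 1 / 4) :=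
      Real.exp_bound_div_one_sub_of_interval (by norm_num) (by norm_num)
    linarith [show (1 : ℝ) / (1 - 1 / 4) = 4 / 3 by norm_num]
  -- the removed primes
  set T : Finset ℕ := (PP c.B m).filter (fun p => p ∣ d) with hT
  have hTprime : ∀ p ∈ T, p ∈ d.primeFactors.filter (fun p => 2 ^ c.g < p) := by
    intro p hp
    obtain ⟨hp1, hp2⟩ := Finset.mem_filter.1 hp
    obtain ⟨i, hi, hpi⟩ := (mem_PP _).1 hp1
    have hpi' := c.mem_B.1 hpi
    exact Finset.mem_filter.2 ⟨Nat.mem_primeFactors.2 ⟨hpi'.2.2.2, hp2, hd0.ne'⟩, hpi'.2.1⟩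
  have hsplit : VV c.R c.B m = VV c.R B' m * ∏ p ∈ T, (1 - dens c.R p) := by
    have e1 : ∏ p ∈ T, (1 - dens c.R p) =
        ∏ i ∈ range m, ∏ p ∈ (c.B i).filter (fun p => ¬ ¬ p ∣ d), (1 - dens c.R p) := by
      have e2 : T = (range m).biUnion (fun i => (c.B i).filter (fun p => ¬ ¬ p ∣ d)) := by
        ext p
        simp only [hT, Finset.mem_filter, mem_PP, mem_biUnion, mem_range, not_not]
        constructor
        · rintro ⟨⟨i, hi, hpi⟩, hpd⟩; exact ⟨i, hi, hpi, hpd⟩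
        · rintro ⟨i, hi, hpi, hpd⟩; exact ⟨⟨i, hi, hpi⟩, hpd⟩
      rw [e2, Finset.prod_biUnion]
      intro i _ i' _ hii
      exact (c.B_disj hii).mono (Finset.filter_subset _ _) (Finset.filter_subset _ _)
    rw [e1]
    unfold VV Vb
    rw [← Finset.prod_mul_distrib]
    apply Finset.prod_congr rfl
    intro i _
    rw [← Finset.prod_filter_mul_prod_filter_not (c.B i) (fun p => ¬ p ∣ d)]
  have hTprod : 1 ≤ (∏ p ∈ T, (1 - dens c.R p)) * c.H d := by
    have h6 : ∏ p ∈ T, (1 + 2 * (c.J.card : ℝ) / p) ≤ c.H d := by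
      unfold H
      apply prod_le_prod_sub
      · intro p hp; exact hTprime p hp
      · intro p _
        have : (0 : ℝ) ≤ 2 * (c.J.card : ℝ) / p := by positivity
        linarith
    have h7 : 0 ≤ ∏ p ∈ T, (1 - dens c.R p) := by
      apply Finset.prod_nonneg
      intro p hp
      obtain ⟨hp1, hp2⟩ := Finset.mem_filter.1 hp
      obtain ⟨i, hi, hpi⟩ := (mem_PP _).1 hp1
      linarith [(hdens i p hpi).2]
    refine le_trans ?_ (mul_le_mul_of_nonneg_left h6 h7)
    rw [← Finset.prod_mul_distrib]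
    have h8 : ∀ p ∈ T, 1 ≤ (1 - dens c.R p) * (1 + 2 * (c.J.card : ℝ) / p) := by
      intro p hp
      obtain ⟨hp1, hp2⟩ := Finset.mem_filter.1 hp
      obtain ⟨i, hi, hpi⟩ := (mem_PP _).1 hp1
      have h9 := dens_bounds h hpi
      have h10 := dens_le h hpi
      have h11 := inv_one_sub h9.1 h9.2 h10
      have e : 2 * (c.J.card : ℝ) / p = 2 * ((c.J.card : ℝ) / p) := by ring
      rw [e]
      exact h11
    calc (1 : ℝ) = ∏ p ∈ T, 1 := by simp
      _ ≤ _ := Finset.prod_le_prod (fun _ _ => zero_le_one) h8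
  have hH1 := c.one_le_H d
  have hVpos := V_pos h
  have hVge := V_ge_two h
  have hVV2 : VV c.R B' m ≤ c.V * c.H d := by
    have e : c.V = VV c.R c.B m := rfl
    rw [e, hsplit, mul_assoc]
    exact le_mul_of_one_le_right hVV' hTprod
  have hX := c.X_pos
  have hd0' : (0 : ℝ) < d := by exact_mod_cast hd0
  have hVH : 0 < c.V * c.H d := by positivity
  have hG : GA c.R B' c.b m ≤ (4 / 3) * (c.V * c.H d) := by
    calc GA c.R B' c.b m ≤ Real.exp (∑ i ∈ range m, ep i) * VV c.R B' m := h5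
      _ ≤ (4 / 3) * (c.V * c.H d) := by gcongr
  have hW : WW c.R B' c.b m ≤ (c.X : ℝ) / d * c.V := by
    have h6 : WW c.R B' c.b m ≤ WW c.R c.B c.b m := by
      unfold WW
      exact Finset.prod_le_prod (fun i _ => Wt_nonneg _ _ _) fun i _ => Wt_mono c.R le_rfl (hsub i)
    have h7 := WW_le h
    have hE : (0 : ℝ) ≤ c.E := Nat.cast_nonneg _
    have h8 : (2 : ℝ) ^ (583 * (c.E : ℝ)) ≤ (c.X : ℝ) / d := by
      rw [le_div_iff₀ hd0']
      have e : (c.X : ℝ) = (2 : ℝ) ^ (583 * (c.E : ℝ)) * (2 : ℝ) ^ (2329 * (c.E : ℝ)) := by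
        rw [← Real.rpow_add (by norm_num), X_rpow]
        congr 1
        ring
      rw [e]
      exact mul_le_mul_of_nonneg_left hdX (by positivity)
    calc WW c.R B' c.b m ≤ _ := h6
      _ ≤ (2 : ℝ) ^ (364 * (c.E : ℝ)) := h7
      _ ≤ (2 : ℝ) ^ (583 * (c.E : ℝ) + -(2 * (c.E : ℝ))) := by
          apply Real.rpow_le_rpow_of_exponent_le (by norm_num)
          linarith
      _ = (2 : ℝ) ^ (583 * (c.E : ℝ)) * (2 : ℝ) ^ (-(2 * (c.E : ℝ))) := by
          rw [Real.rpow_add (by norm_num)]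
      _ ≤ (c.X : ℝ) / d * c.V := by
          apply mul_le_mul h8 hVge (by positivity) (by positivity)
  have hfin : (c.X : ℝ) / d * GA c.R B' c.b m ≤ (c.X : ℝ) / d * ((4 / 3) * (c.V * c.H d)) :=
    mul_le_mul_of_nonneg_left hG (by positivity)
  have hXd : 0 < (c.X : ℝ) / d * c.V := by positivity
  have hlast : (c.X : ℝ) / d * c.V ≤ (c.X : ℝ) / d * c.V * c.H d := le_mul_of_one_le_right hXd.le hH1
  have e : 3 * (c.X : ℝ) * c.V * c.H d / d = 3 * ((c.X : ℝ) / d * c.V * c.H d) := by ring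
  have e2 : (c.X : ℝ) / d * ((4 / 3) * (c.V * c.H d)) = 4 / 3 * ((c.X : ℝ) / d * c.V * c.H d) := by ring
  rw [e]
  rw [e2] at hfin
  have hpos : 0 ≤ (c.X : ℝ) / d * c.V * c.H d := by positivity
  linarith

end Cfg

end Pool.Agent.MP_f32cb9_nt.UW
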