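import Pool.Agent.MP_f32cb9_nt.UW.A3

set_option autoImplicit false

open Finset

/-!
# Uniform windows: the linear forms
-/

namespace Pool.Agent.MP_f32cb9_nt.UW

open Pool.Agent.MP_f32cb9_nt

namespace Cfg

/-- further conditions: the modulus `M` is divisible by the `e`-th powers of the small primes -/
structure Ok2 (c : Cfg) (w : ℕ) : Prop where
  Mpos : 0 < c.M
  Mp : ∀ p : ℕ, p.Prime → p ≤ 2 ^ c.g → p ^ w ∣ c.M
  Msz : 2 * c.M ≤ 2 ^ c.E
  wE : w ≤ c.E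

/-- the part of `j` composed of small primes -/
def u (c : Cfg) (j : ℕ) : ℕ := Nat.gcd j c.M

/-- the linear forms: `M t - j = u j * L j t` -/
def L (c : Cfg) (j t : ℕ) : ℕ := c.M / c.u j * t - j / c.u j

variable {c : Cfg}

theorem u_pos {j : ℕ} (hj : 1 ≤ j) : 0 < c.u j := Nat.gcd_pos_of_pos_left _ hj

theorem u_dvd (j : ℕ) : c.u j ∣ j := Nat.gcd_dvd_left _ _

theorem u_dvd_M (j : ℕ) : c.u j ∣ c.M := Nat.gcd_dvd_right _ _

theorem cop_form {j : ℕ} (hj : 1 ≤ j) : Nat.Coprime (c.M / c.u j) (j / c.u j) :=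
  (Nat.coprime_div_gcd_div_gcd (u_pos hj)).symm

theorem mul_form (j t : ℕ) : c.u j * (c.M / c.u j * t) = c.M * t := by
  rw [← mul_assoc, Nat.mul_div_cancel' (u_dvd_M j)]

theorem sub_eq (j t : ℕ) : c.M * t - j = c.u j * c.L j t := by
  unfold L
  rw [Nat.mul_sub, mul_form, Nat.mul_div_cancel' (u_dvd j)]

theorem L_add {j t : ℕ} (hj : 1 ≤ j) (ht : j < c.M * t) :
    c.L j t + j / c.u j = c.M / c.u j * t := by
  unfold L
  apply Nat.sub_add_cancel
  have h1 : c.u j * (j / c.u j) ≤ c.u j * (c.M / c.u j * t) := by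
    rw [mul_form, Nat.mul_div_cancel' (u_dvd j)]
    exact ht.le
  exact Nat.le_of_mul_le_mul_left h1 (u_pos hj)

theorem L_pos {j t : ℕ} (hj : 1 ≤ j) (ht : j < c.M * t) : 1 ≤ c.L j t := by
  have h1 := sub_eq (c := c) j t
  have h2 : c.L j t ≠ 0 := by
    intro h
    rw [h, mul_zero] at h1
    omega
  omega

theorem L_le (j t : ℕ) : c.L j t ≤ c.M * t := by
  unfold L
  calc c.M / c.u j * t - j / c.u j ≤ c.M / c.u j * t := Nat.sub_le _ _
    _ ≤ c.M * t := Nat.mul_le_mul_right _ (Nat.div_le_self _ _)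

theorem small_dvd {w : ℕ} (h2 : c.Ok2 w) {j : ℕ} (hj : 1 ≤ j) (hjw : j < 2 ^ w) {p : ℕ}
    (hp : p.Prime) (hpg : p ≤ 2 ^ c.g) : p ∣ c.M / c.u j := by
  by_contra hcon
  have h3 : Nat.Coprime (p ^ w) (c.M / c.u j) :=
    Nat.Coprime.pow_left _ ((Nat.Prime.coprime_iff_not_dvd hp).2 hcon)
  have h4 : p ^ w ∣ c.u j * (c.M / c.u j) := by
    rw [Nat.mul_div_cancel' (u_dvd_M j)]
    exact h2.Mp p hp hpg
  have h5 : p ^ w ∣ c.u j := h3.dvd_of_dvd_mul_right h4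
  have h6 : p ^ w ≤ j := Nat.le_of_dvd hj (h5.trans (u_dvd j))
  have h7 : 2 ^ w ≤ p ^ w := Nat.pow_le_pow_left hp.two_le w
  omega

theorem prime_gt {w : ℕ} (h2 : c.Ok2 w) {j t : ℕ} (hj : 1 ≤ j) (hjw : j < 2 ^ w)
    (ht : j < c.M * t) {p : ℕ} (hp : p.Prime) (hd : p ∣ c.L j t) : 2 ^ c.g < p := by
  by_contra hcon
  have h3 := small_dvd h2 hj hjw hp (not_lt.1 hcon)
  have h4 : p ∣ c.L j t + j / c.u j := by
    rw [L_add hj ht]
    exact h3.mul_right _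
  have h5 : p ∣ j / c.u j := (Nat.dvd_add_right hd).1 h4
  exact Nat.not_coprime_of_dvd_of_dvd hp.one_lt h3 h5 (cop_form hj)

theorem coprime_u_L {w : ℕ} (h : c.Ok) (h2 : c.Ok2 w) {j t : ℕ} (hj : 1 ≤ j) (hjw : j < 2 ^ w)
    (ht : j < c.M * t) : Nat.Coprime (c.u j) (c.L j t) := by
  rw [Nat.coprime_iff_gcd_eq_one]
  by_contra hcon
  obtain ⟨p, hp, hpd⟩ := Nat.exists_prime_and_dvd hcon
  have h3 := prime_gt h2 hj hjw ht hp (hpd.trans (Nat.gcd_dvd_right _ _))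
  exact h.M0 p hp h3 ((hpd.trans (Nat.gcd_dvd_left _ _)).trans (u_dvd_M j))

theorem coprime_div {j t d : ℕ} (hj : 1 ≤ j) (ht : j < c.M * t) (hd : d ∣ c.L j t) :
    Nat.Coprime d (c.M / c.u j) := by
  rw [Nat.coprime_iff_gcd_eq_one]
  by_contra hcon
  obtain ⟨p, hp, hpd⟩ := Nat.exists_prime_and_dvd hcon
  have h3 : p ∣ c.M / c.u j := hpd.trans (Nat.gcd_dvd_right _ _)
  have h4 : p ∣ c.L j t + j / c.u j := by
    rw [L_add hj ht]
    exact h3.mul_right _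
  have h5 : p ∣ j / c.u j := (Nat.dvd_add_right ((hpd.trans (Nat.gcd_dvd_left _ _)).trans hd)).1 h4
  exact Nat.not_coprime_of_dvd_of_dvd hp.one_lt h3 h5 (cop_form hj)

theorem L_class {j t s d : ℕ} (hj : 1 ≤ j) (ht : j < c.M * t) (hs : j < c.M * s)
    (hd : d ∣ c.L j t) (hd' : d ∣ c.L j s) : t ≡ s [MOD d] := by
  have hc := coprime_div hj ht hd
  apply Nat.ModEq.cancel_left_of_coprime hc
  rw [← L_add hj ht, ← L_add hj hs]
  exact Nat.ModEq.add_right _ (((Nat.modEq_zero_iff_dvd).2 hd).trans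
    ((Nat.modEq_zero_iff_dvd).2 hd').symm)

theorem tau_mul_le (a b : ℕ) :
    (a * b).divisors.card ≤ a.divisors.card * b.divisors.card := by
  classical
  rw [Nat.divisors_mul]
  exact Finset.card_mul_le

theorem tau_le_of_dvd {a b : ℕ} (h : a ∣ b) (hb : b ≠ 0) : a.divisors.card ≤ b.divisors.card :=
  Finset.card_le_card (Nat.divisors_subset_of_dvd hb h)

theorem tau_sub_le {j t : ℕ} (hj : 1 ≤ j) :
    (c.M * t - j).divisors.card ≤ j.divisors.card * (c.L j t).divisors.card := by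
  rw [sub_eq]
  refine (tau_mul_le _ _).trans ?_
  exact Nat.mul_le_mul_right _ (tau_le_of_dvd (u_dvd j) (by omega))

theorem ch_nonneg (t : ℕ) : 0 ≤ c.ch t := chi_nonneg _ _ _ _

theorem ch_zero_or_one (t : ℕ) : c.ch t = 0 ∨ c.ch t = 1 := by
  unfold ch chi
  by_cases h : ∃ i ∈ range c.m, ∃ p ∈ c.B i, t % p ∈ c.R p
  · obtain ⟨i, hi, p, hp, hr⟩ := h
    left
    apply Finset.prod_eq_zero hi
    apply Finset.prod_eq_zero hp
    unfold hit
    rw [if_pos hr, sub_self]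
  · right
    push Not at h
    apply Finset.prod_eq_one
    intro i hi
    apply Finset.prod_eq_one
    intro p hp
    unfold hit
    rw [if_neg (h i hi p hp), sub_zero]

theorem ch_notMem {t i p : ℕ} (h : c.ch t ≠ 0) (hi : i < c.m) (hp : p ∈ c.B i) :
    t % p ∉ c.R p := by
  intro hr
  apply h
  unfold ch chi
  apply Finset.prod_eq_zero (mem_range.2 hi)
  apply Finset.prod_eq_zero hp
  unfold hit
  rw [if_pos hr, sub_self]

/-- the sifting limit of the form `j` -/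
def s (c : Cfg) (j : ℕ) : ℕ := if j ∈ c.J then max c.g (c.l j) else c.g

theorem g_le_s (j : ℕ) : c.g ≤ c.s j := by
  unfold s
  split_ifs
  · exact le_max_left _ _
  · exact le_rfl

theorem rough_L {w : ℕ} (h : c.Ok) (h2 : c.Ok2 w) {j t : ℕ} (hj : 1 ≤ j) (hjw : j < 2 ^ w)
    (ht : j < c.M * t) (hc : c.ch t ≠ 0) : Rough (2 ^ c.s j) (c.L j t) := by
  intro p hp hpd
  have h3 := prime_gt h2 hj hjw ht hp hpd
  unfold s
  split_ifs with hJ
  · by_contra hcon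
    have hcon' : p ≤ 2 ^ c.l j := by
      rcases le_total c.g (c.l j) with h4 | h4
      · rw [max_eq_right h4] at hcon
        omega
      · rw [max_eq_left h4] at hcon
        omega
    have hpE : p ≤ 2 ^ c.E := hcon'.trans (Nat.pow_le_pow_right (by norm_num) (h.lE j hJ))
    obtain ⟨i, hi, hpi⟩ := c.B_cover hp h3 hpE
    apply ch_notMem hc hi hpi
    rw [mod_mem_R _ hp.pos]
    refine ⟨j, hJ, hcon', ?_⟩
    have h5 : p ∣ c.M * t - j := by
      rw [sub_eq]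
      exact hpd.mul_left _
    exact ((Nat.modEq_iff_dvd' ht.le).2 h5).symm
  · exact h3

theorem mem_I {t : ℕ} : t ∈ c.I ↔ c.X < t ∧ t ≤ c.X + c.X := by
  unfold I
  exact mem_ivl

/-- for `t` in the interval all small `j` are less than `M t` -/
theorem lt_Mt {w : ℕ} (h2 : c.Ok2 w) {j t : ℕ} (hjw : j < 2 ^ w) (ht : t ∈ c.I) :
    j < c.M * t := by
  rw [mem_I] at ht
  have h3 : 2 ^ w ≤ 2 ^ c.E := Nat.pow_le_pow_right (by norm_num) h2.wE
  have h4 : 2 ^ c.E ≤ c.X := Nat.pow_le_pow_right (by norm_num) (by omega)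
  have h5 : t ≤ c.M * t := Nat.le_mul_of_pos_left _ h2.Mpos
  omega

theorem Mt_le {w : ℕ} (h2 : c.Ok2 w) {t : ℕ} (ht : t ∈ c.I) : c.M * t ≤ 2 ^ (2913 * c.E) := by
  rw [mem_I] at ht
  calc c.M * t ≤ c.M * (c.X + c.X) := Nat.mul_le_mul_left _ ht.2
    _ = (2 * c.M) * c.X := by ring
    _ ≤ 2 ^ c.E * c.X := Nat.mul_le_mul_right _ h2.Msz
    _ = _ := by unfold X; rw [← pow_add]; congr 1; ring

/-- sifted elements with `d ∣ L j t` -/
theorem upper_dvd {w : ℕ} (h : c.Ok) (h2 : c.Ok2 w) {j : ℕ} (hj : 1 ≤ j) (hjw : j < 2 ^ w)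
    {d : ℕ} (hd0 : 0 < d) (hdX : (d : ℝ) ≤ (2 : ℝ) ^ (2329 * (c.E : ℝ))) :
    ∑ t ∈ c.I.filter (fun t => d ∣ c.L j t), c.ch t ≤ 3 * (c.X : ℝ) * c.V * c.H d / d := by
  classical
  have hV := V_pos h
  have hX := c.X_pos
  have hH := c.one_le_H d
  have hrhs : 0 ≤ 3 * (c.X : ℝ) * c.V * c.H d / d := by positivity
  by_cases hex : ∃ t, t ∈ c.I.filter (fun t => d ∣ c.L j t)
  · obtain ⟨r, hr⟩ := hex
    obtain ⟨hr1, hr2⟩ := Finset.mem_filter.1 hr
    refine le_trans ?_ (upper h hd0 hdX r)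
    apply Finset.sum_le_sum_of_subset_of_nonneg
    · intro t ht
      obtain ⟨ht1, ht2⟩ := Finset.mem_filter.1 ht
      exact Finset.mem_filter.2 ⟨ht1, L_class hj (lt_Mt h2 hjw ht1) (lt_Mt h2 hjw hr1) ht2 hr2⟩
    · intro t _ _
      exact ch_nonneg _
  · push Not at hex
    rw [Finset.eq_empty_of_forall_notMem hex, Finset.sum_empty]
    exact hrhs

end Cfg

end Pool.Agent.MP_f32cb9_nt.UW
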