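import Pool.Agent.MP_f32cb9_nt.UW.A4

set_option autoImplicit false

open Finset

/-!
# Uniform windows: moments of `(1 + v) ^ ω (L j t)` over the sifted set
-/

namespace Pool.Agent.MP_f32cb9_nt.UW

open Pool.Agent.MP_f32cb9_nt

/-- `∑ 1 / p ^ 2` over primes in `(y, x]` -/
theorem sum_inv_sq_PI (y x : ℕ) (hy : 1 ≤ y) : ∑ p ∈ PI y x, (1 : ℝ) / (p : ℝ) ^ 2 ≤ 1 / y := by
  have h1 : ∑ p ∈ PI y x, (1 : ℝ) / (p : ℝ) ^ 2 ≤ ∑ p ∈ Ioc y x, (1 : ℝ) / (p : ℝ) ^ 2 := by
    apply Finset.sum_le_sum_of_subset_of_nonneg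
    · intro p hp
      have := mem_PI.1 hp
      exact mem_Ioc.2 ⟨this.1, this.2.1⟩
    · intro p _ _; positivity
  refine h1.trans ?_
  rcases le_or_gt y x with h | h
  · have h2 := sum_Ioc_inv_sq_le_sub (α := ℝ) (by omega : y ≠ 0) h
    have h3 : ∑ p ∈ Ioc y x, (1 : ℝ) / (p : ℝ) ^ 2 = ∑ p ∈ Ioc y x, ((p : ℝ) ^ 2)⁻¹ := by
      apply Finset.sum_congr rfl; intro p _; rw [one_div]
    rw [h3]
    refine h2.trans ?_
    rw [one_div]
    have : (0 : ℝ) ≤ (x : ℝ)⁻¹ := by positivity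
    linarith
  · rw [Finset.Ioc_eq_empty (by omega), Finset.sum_empty]
    positivity

namespace Cfg

variable {c : Cfg}

theorem prod_small {w : ℕ} (h2 : c.Ok2 w) {j t P : ℕ}
    (ht : t ∈ c.I) (hP : P ^ 4 ≤ (c.L j t) ^ 3) :
    (P : ℝ) ≤ (2 : ℝ) ^ (2329 * (c.E : ℝ)) := by
  have h3 : c.L j t ≤ 2 ^ (2913 * c.E) := (L_le j t).trans (Mt_le h2 ht)
  have h4 : P ^ 4 ≤ (2 ^ (2329 * c.E)) ^ 4 := by
    calc P ^ 4 ≤ (c.L j t) ^ 3 := hP
      _ ≤ (2 ^ (2913 * c.E)) ^ 3 := Nat.pow_le_pow_left h3 3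
      _ = 2 ^ (8739 * c.E) := by rw [← pow_mul]; congr 1; ring
      _ ≤ 2 ^ (9316 * c.E) := Nat.pow_le_pow_right (by norm_num) (by omega)
      _ = _ := by rw [← pow_mul]; congr 1; ring
  have h5 : P ≤ 2 ^ (2329 * c.E) := (Nat.pow_le_pow_iff_left (by norm_num)).1 h4
  have h6 : (2 : ℝ) ^ (2329 * (c.E : ℝ)) = ((2 ^ (2329 * c.E) : ℕ) : ℝ) := by
    push_cast
    rw [← Real.rpow_natCast]
    push_cast
    rfl
  rw [h6]
  exact_mod_cast h5

/-- sum over square-free divisors -/
theorem moment_sum {w : ℕ} (h : c.Ok) (h2 : c.Ok2 w) {j : ℕ} (hj : 1 ≤ j) (hjw : j < 2 ^ w)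
    (v : ℝ) (hv : 0 < v) :
    (1 - 4 / 3 * (v / (1 + v))) *
      ∑ t ∈ c.I, c.ch t * (1 + v) ^ (c.L j t).primeFactors.card ≤
    3 * (c.X : ℝ) * c.V *
      ∏ p ∈ PI (2 ^ c.s j) c.X, (1 + v / p * (1 + 2 * (c.J.card : ℝ) / p)) := by
  classical
  have hX1 : 1 ≤ c.X := Nat.one_le_two_pow
  set I := c.I with hI
  set Q := PI (2 ^ c.s j) c.X with hQ
  set Q' := Q.powerset.filter (fun D => ((∏ p ∈ D, p : ℕ) : ℝ) ≤ (2 : ℝ) ^ (2329 * (c.E : ℝ))) with hQ'
  have hVpos := V_pos h
  have hXpos := c.X_pos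
  rw [Finset.mul_sum]
  calc ∑ t ∈ I, (1 - 4 / 3 * (v / (1 + v))) * (c.ch t * (1 + v) ^ (c.L j t).primeFactors.card)
      ≤ ∑ t ∈ I, ∑ D ∈ Q', (if (∏ p ∈ D, p) ∣ c.L j t then v ^ D.card * c.ch t else 0) := by
        apply Finset.sum_le_sum
        intro t ht
        have htM := lt_Mt h2 hjw ht
        rcases ch_zero_or_one (c := c) t with h0 | h0
        · rw [h0]; simp
        · rw [h0, one_mul]
          have h3 := moment v hv (c.L j t) (L_pos hj htM)
          refine h3.trans ?_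
          rw [← Finset.sum_filter]
          simp only [mul_one]
          apply Finset.sum_le_sum_of_subset_of_nonneg
          · intro D hD
            obtain ⟨hD1, hD2⟩ := Finset.mem_filter.1 hD
            have hDP := mem_powerset.1 hD1
            have hsm := prod_small h2 ht hD2
            refine Finset.mem_filter.2 ⟨Finset.mem_filter.2 ⟨mem_powerset.2 ?_, hsm⟩, ?_⟩
            · intro p hp
              have hpp := Nat.mem_primeFactors.1 (hDP hp)
              rw [hQ, mem_PI]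
              refine ⟨rough_L h h2 hj hjw htM (by rw [h0]; norm_num) p hpp.1 hpp.2.1, ?_, hpp.1⟩
              have h4 : p ≤ ∏ q ∈ D, q := by
                apply Nat.le_of_dvd
                · exact Finset.prod_pos fun q hq => (Nat.prime_of_mem_primeFactors (hDP hq)).pos
                · exact Finset.dvd_prod_of_mem _ hp
              have h5 : (p : ℝ) ≤ c.X := by
                have h6 : (p : ℝ) ≤ ((∏ q ∈ D, q : ℕ) : ℝ) := by exact_mod_cast h4
                refine h6.trans (hsm.trans ?_)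
                rw [X_rpow]
                apply Real.rpow_le_rpow_of_exponent_le (by norm_num)
                have : (0 : ℝ) ≤ (c.E : ℝ) := Nat.cast_nonneg _
                linarith
              exact_mod_cast h5
            · apply Finset.prod_primes_dvd
              · intro p hp
                exact (Nat.prime_of_mem_primeFactors (hDP hp)).prime
              · intro p hp
                exact Nat.dvd_of_mem_primeFactors (hDP hp)
          · intro D _ _
            positivity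
    _ = ∑ D ∈ Q', v ^ D.card * ∑ t ∈ I.filter (fun t => (∏ p ∈ D, p) ∣ c.L j t), c.ch t := by
        rw [Finset.sum_comm]
        apply Finset.sum_congr rfl
        intro D _
        rw [← Finset.sum_filter, Finset.mul_sum]
    _ ≤ ∑ D ∈ Q', v ^ D.card * (3 * (c.X : ℝ) * c.V *
          (∏ p ∈ D, (1 + 2 * (c.J.card : ℝ) / p)) / (∏ p ∈ D, p : ℕ)) := by
        apply Finset.sum_le_sum
        intro D hD
        obtain ⟨hD1, hD2⟩ := Finset.mem_filter.1 hD
        have hDQ := mem_powerset.1 hD1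
        have hDp : ∀ p ∈ D, p.Prime := fun p hp => (mem_PI.1 (hDQ hp)).2.2
        apply mul_le_mul_of_nonneg_left _ (by positivity)
        have h3 := upper_dvd h h2 hj hjw (d := ∏ p ∈ D, p)
          (Finset.prod_pos fun p hp => (hDp p hp).pos) hD2
        refine h3.trans (le_of_eq ?_)
        congr 2
        unfold H
        rw [Nat.primeFactors_prod hDp]
        apply Finset.prod_congr _ (fun _ _ => rfl)
        apply Finset.filter_true_of_mem
        intro p hp
        have h4 := (mem_PI.1 (hDQ hp)).1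
        have h5 := Nat.pow_le_pow_right (n := 2) (by norm_num) (g_le_s (c := c) j)
        omega
    _ ≤ ∑ D ∈ Q.powerset, v ^ D.card * (3 * (c.X : ℝ) * c.V *
          (∏ p ∈ D, (1 + 2 * (c.J.card : ℝ) / p)) / (∏ p ∈ D, p : ℕ)) := by
        apply Finset.sum_le_sum_of_subset_of_nonneg (Finset.filter_subset _ _)
        intro D _ _
        have : 0 ≤ ∏ p ∈ D, (1 + 2 * (c.J.card : ℝ) / p) :=
          Finset.prod_nonneg fun p _ => by positivity
        positivity
    _ = 3 * (c.X : ℝ) * c.V * ∏ p ∈ Q, (1 + v / p * (1 + 2 * (c.J.card : ℝ) / p)) := by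
        rw [Finset.prod_one_add, Finset.mul_sum]
        apply Finset.sum_congr rfl
        intro D _
        rw [Finset.prod_mul_distrib, Finset.prod_div_distrib, Finset.prod_const]
        push_cast
        ring

/-- explicit moment bound -/
theorem moment_bound {w : ℕ} (h : c.Ok) (h2 : c.Ok2 w) {j : ℕ} (hj : 1 ≤ j) (hjw : j < 2 ^ w)
    (hsE : c.s j ≤ 2912 * c.E) (v : ℝ) (hv : 0 < v) :
    (1 - 4 / 3 * (v / (1 + v))) *
      ∑ t ∈ c.I, c.ch t * (1 + v) ^ (c.L j t).primeFactors.card ≤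
    3 * Real.exp (10 * v) * ((c.E : ℝ) / c.s j) ^ v * 2912 ^ v * ((c.X : ℝ) * c.V) := by
  have h3 := moment_sum h h2 hj hjw v hv
  refine h3.trans ?_
  have hVpos := V_pos h
  have hXpos := c.X_pos
  have hg := h.g16
  have hs1 : 16 ≤ c.s j := hg.trans (g_le_s j)
  have hs0 : (0 : ℝ) < c.s j := by
    have : 0 < c.s j := by omega
    exact_mod_cast this
  have hE0 : (0 : ℝ) < c.E := by
    have := h.E6
    have : 0 < c.E := by omega
    exact_mod_cast this
  have hD0 : (0 : ℝ) ≤ c.J.card := Nat.cast_nonneg _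
  have hprod : ∏ p ∈ PI (2 ^ c.s j) c.X, (1 + v / p * (1 + 2 * (c.J.card : ℝ) / p)) ≤
      Real.exp (10 * v) * ((c.E : ℝ) / c.s j * 2912) ^ v := by
    have e0 : c.X = 2 ^ (2912 * c.E) := rfl
    calc ∏ p ∈ PI (2 ^ c.s j) c.X, (1 + v / p * (1 + 2 * (c.J.card : ℝ) / p))
        ≤ ∏ p ∈ PI (2 ^ c.s j) c.X, Real.exp (v * (1 / p) + 2 * v * c.J.card * (1 / (p : ℝ) ^ 2)) := by
          apply Finset.prod_le_prod
          · intro p _; positivity
          · intro p hp
            have hp0 : (0 : ℝ) < p := by exact_mod_cast (mem_PI.1 hp).2.2.pos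
            have := Real.add_one_le_exp (v * (1 / p) + 2 * v * c.J.card * (1 / (p : ℝ) ^ 2))
            refine le_trans (le_of_eq ?_) this
            field_simp
            ring
      _ = Real.exp (v * ∑ p ∈ PI (2 ^ c.s j) c.X, (1 : ℝ) / p +
            2 * v * c.J.card * ∑ p ∈ PI (2 ^ c.s j) c.X, (1 : ℝ) / (p : ℝ) ^ 2) := by
          rw [← Real.exp_sum, Finset.sum_add_distrib, Finset.mul_sum, Finset.mul_sum]
      _ ≤ Real.exp (v * (Real.log (((2912 * c.E : ℕ) : ℝ) / c.s j) + 8 / c.s j) + v) := by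
          apply Real.exp_le_exp.2
          have h4 := sum_inv_PI_two (s := c.s j) (t := 2912 * c.E) (by omega) hsE
          have h5 := sum_inv_sq_PI (2 ^ c.s j) c.X Nat.one_le_two_pow
          have h6 : (2 : ℝ) * c.J.card * ∑ p ∈ PI (2 ^ c.s j) c.X, (1 : ℝ) / (p : ℝ) ^ 2 ≤ 1 := by
            have h7 : (2 : ℝ) * c.J.card ≤ ((2 ^ c.s j : ℕ) : ℝ) := by
              have h8 := h.D
              have h9 := Nat.pow_le_pow_right (n := 2) (by norm_num) (g_le_s (c := c) j)
              have h10 : 2 * c.J.card ≤ 2 ^ c.s j := by omega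
              exact_mod_cast h10
            have h8 : (0 : ℝ) < ((2 ^ c.s j : ℕ) : ℝ) := by positivity
            calc (2 : ℝ) * c.J.card * ∑ p ∈ PI (2 ^ c.s j) c.X, (1 : ℝ) / (p : ℝ) ^ 2
                ≤ (2 : ℝ) * c.J.card * (1 / ((2 ^ c.s j : ℕ) : ℝ)) := by gcongr
              _ ≤ 1 := by rw [mul_one_div, div_le_one h8]; exact h7
          rw [e0]
          apply add_le_add (mul_le_mul_of_nonneg_left h4 hv.le)
          rw [← e0]
          have e1 : 2 * v * c.J.card * ∑ p ∈ PI (2 ^ c.s j) c.X, (1 : ℝ) / (p : ℝ) ^ 2 =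
              v * (2 * c.J.card * ∑ p ∈ PI (2 ^ c.s j) c.X, (1 : ℝ) / (p : ℝ) ^ 2) := by ring
          rw [e1]
          exact mul_le_of_le_one_right hv.le h6
      _ ≤ Real.exp (v * Real.log ((c.E : ℝ) / c.s j * 2912) + 10 * v) := by
          apply Real.exp_le_exp.2
          have h4 : (8 : ℝ) / c.s j ≤ 8 := by
            rw [div_le_iff₀ hs0]
            have : (1 : ℝ) ≤ c.s j := by exact_mod_cast (by omega : 1 ≤ c.s j)
            linarith
          have e1 : ((2912 * c.E : ℕ) : ℝ) / c.s j = (c.E : ℝ) / c.s j * 2912 := by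
            push_cast; ring
          rw [e1]
          nlinarith
      _ = _ := by
          rw [Real.exp_add, mul_comm (Real.exp (v * _)),
            Real.rpow_def_of_pos (by positivity : (0 : ℝ) < (c.E : ℝ) / c.s j * 2912),
            mul_comm v (Real.log _)]
  have e1 : ((c.E : ℝ) / c.s j * 2912) ^ v = ((c.E : ℝ) / c.s j) ^ v * 2912 ^ v := by
    rw [Real.mul_rpow (by positivity) (by norm_num)]
  rw [e1] at hprod
  calc 3 * (c.X : ℝ) * c.V * ∏ p ∈ PI (2 ^ c.s j) c.X, (1 + v / p * (1 + 2 * (c.J.card : ℝ) / p))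
      ≤ 3 * (c.X : ℝ) * c.V * (Real.exp (10 * v) * (((c.E : ℝ) / c.s j) ^ v * 2912 ^ v)) := by
        gcongr
    _ = _ := by ring

end Cfg

end Pool.Agent.MP_f32cb9_nt.UW
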