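import Pool.Agent.MP_f32cb9_nt.UW.A5

set_option autoImplicit false

open Finset

/-!
# Uniform windows: the first moment of `τ (M t - j)` over the sifted set, for all `j`
-/

namespace Pool.Agent.MP_f32cb9_nt.UW

open Pool.Agent.MP_f32cb9_nt

theorem tau_le_two (m : ℕ) (hm : 1 ≤ m) :
    m.divisors.card ≤ 2 * (m.divisors.filter (fun d => d * d ≤ m)).card := by
  classical
  have h1 := Finset.card_filter_add_card_filter_not (s := m.divisors) (fun d => d * d ≤ m)
  have h2 : (m.divisors.filter (fun d => ¬ d * d ≤ m)).card ≤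
      (m.divisors.filter (fun d => d * d ≤ m)).card := by
    apply Finset.card_le_card_of_injOn (fun d => m / d)
    · intro d hd
      rw [Finset.mem_coe] at hd ⊢
      obtain ⟨hd1, hd2⟩ := Finset.mem_filter.1 hd
      have hdm := (Nat.mem_divisors.1 hd1).1
      have hd0 : 0 < d := Nat.pos_of_mem_divisors hd1
      refine Finset.mem_filter.2 ⟨Nat.mem_divisors.2 ⟨Nat.div_dvd_of_dvd hdm, by omega⟩, ?_⟩
      obtain ⟨k, hk⟩ := hdm
      have h3 : m / d = k := by rw [hk]; exact Nat.mul_div_cancel_left k hd0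
      simp only [h3]
      have h4 : m < d * d := not_le.1 hd2
      have h5 : k < d := by
        rw [hk] at h4
        exact Nat.lt_of_mul_lt_mul_left h4
      rw [hk]
      exact Nat.mul_le_mul_right k h5.le
    · intro d hd d' hd' hdd
      obtain ⟨hd1, _⟩ := Finset.mem_filter.1 (Finset.mem_coe.1 hd)
      obtain ⟨hd1', _⟩ := Finset.mem_filter.1 (Finset.mem_coe.1 hd')
      have e1 := Nat.div_mul_cancel (Nat.mem_divisors.1 hd1).1
      have e2 := Nat.div_mul_cancel (Nat.mem_divisors.1 hd1').1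
      simp only at hdd
      rw [← hdd] at e2
      have h0 : 0 < m / d := Nat.div_pos (Nat.le_of_dvd (by omega) (Nat.mem_divisors.1 hd1).1)
        (Nat.pos_of_mem_divisors hd1)
      exact Nat.eq_of_mul_eq_mul_left h0 (e1.trans e2.symm)
  omega

namespace Cfg

/-- the bound for the divisors -/
def Y (c : Cfg) : ℕ := 2 ^ (1457 * c.E)

variable {c : Cfg}

theorem Y_le : (c.Y : ℝ) ≤ (2 : ℝ) ^ (2329 * (c.E : ℝ)) := by
  have h1 : c.Y ≤ 2 ^ (2329 * c.E) := Nat.pow_le_pow_right (by norm_num) (by omega)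
  have h6 : (2 : ℝ) ^ (2329 * (c.E : ℝ)) = ((2 ^ (2329 * c.E) : ℕ) : ℝ) := by
    push_cast
    rw [← Real.rpow_natCast]
    push_cast
    rfl
  rw [h6]
  exact_mod_cast h1

theorem one_class (h : c.Ok) {j d : ℕ} (hd : d ∈ Icc 1 c.Y) :
    ∑ t ∈ (c.I.filter (fun t => j < c.M * t)).filter (fun t => d ∣ c.M * t - j), c.ch t ≤
      if Nat.gcd d c.M ∣ j then
        3 * (c.X : ℝ) * c.V * (c.H (d / Nat.gcd d c.M) / (d / Nat.gcd d c.M : ℕ)) else 0 := by
  classical
  obtain ⟨hd1, hdY⟩ := mem_Icc.1 hd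
  have hV := V_pos h
  have hX := c.X_pos
  have hH := c.one_le_H (d / Nat.gcd d c.M)
  have hnn : 0 ≤ (if Nat.gcd d c.M ∣ j then
        3 * (c.X : ℝ) * c.V * (c.H (d / Nat.gcd d c.M) / (d / Nat.gcd d c.M : ℕ)) else 0) := by
    split_ifs
    · positivity
    · exact le_rfl
  by_cases hex : ∃ t, t ∈ (c.I.filter (fun t => j < c.M * t)).filter (fun t => d ∣ c.M * t - j)
  · obtain ⟨r, hr⟩ := hex
    obtain ⟨hr1, hr2⟩ := Finset.mem_filter.1 hr
    obtain ⟨hr3, hr4⟩ := Finset.mem_filter.1 hr1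
    have hg : Nat.gcd d c.M ∣ j := by
      have h3 : Nat.gcd d c.M ∣ c.M * r := (Nat.gcd_dvd_right _ _).mul_right _
      have h4 : Nat.gcd d c.M ∣ c.M * r - j := (Nat.gcd_dvd_left _ _).trans hr2
      have h5 : c.M * r - j + j = c.M * r := Nat.sub_add_cancel hr4.le
      rw [← h5] at h3
      exact (Nat.dvd_add_right h4).1 h3
    rw [if_pos hg]
    have hg0 : 0 < Nat.gcd d c.M := Nat.gcd_pos_of_pos_left _ hd1
    have hq0 : 0 < d / Nat.gcd d c.M :=
      Nat.div_pos (Nat.le_of_dvd hd1 (Nat.gcd_dvd_left _ _)) hg0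
    have hqY : ((d / Nat.gcd d c.M : ℕ) : ℝ) ≤ (2 : ℝ) ^ (2329 * (c.E : ℝ)) := by
      refine le_trans ?_ (Y_le (c := c))
      exact_mod_cast (Nat.div_le_self _ _).trans hdY
    have h6 := upper h hq0 hqY r
    have e : 3 * (c.X : ℝ) * c.V * (c.H (d / Nat.gcd d c.M) / (d / Nat.gcd d c.M : ℕ)) =
        3 * (c.X : ℝ) * c.V * c.H (d / Nat.gcd d c.M) / (d / Nat.gcd d c.M : ℕ) := by ring
    rw [e]
    refine le_trans ?_ h6
    apply Finset.sum_le_sum_of_subset_of_nonneg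
    · intro t ht
      obtain ⟨ht1, ht2⟩ := Finset.mem_filter.1 ht
      obtain ⟨ht3, ht4⟩ := Finset.mem_filter.1 ht1
      refine Finset.mem_filter.2 ⟨ht3, ?_⟩
      have h7 : c.M * t ≡ c.M * r [MOD d] :=
        ((Nat.modEq_iff_dvd' ht4.le).2 ht2).symm.trans ((Nat.modEq_iff_dvd' hr4.le).2 hr2)
      exact Nat.ModEq.cancel_left_div_gcd hd1 h7
    · intro t _ _
      exact ch_nonneg _
  · push Not at hex
    rw [Finset.eq_empty_of_forall_notMem hex, Finset.sum_empty]
    exact hnn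

theorem sum_pairs {j : ℕ} (hj : 1 ≤ j) (f : ℕ → ℝ) (hf : ∀ q, 0 ≤ f q) (hM : 0 < c.M) :
    ∑ d ∈ Icc 1 c.Y, (if Nat.gcd d c.M ∣ j then f (d / Nat.gcd d c.M) else 0) ≤
      j.divisors.card * ∑ q ∈ Icc 1 c.Y, f q := by
  classical
  rw [← Finset.sum_filter]
  set S := (Icc 1 c.Y).filter (fun d => Nat.gcd d c.M ∣ j) with hS
  set φ : ℕ → ℕ × ℕ := fun d => (Nat.gcd d c.M, d / Nat.gcd d c.M) with hφ
  have hinj : Set.InjOn φ S := by
    intro d _ d' _ hdd
    simp only [hφ, Prod.mk.injEq] at hdd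
    have e1 := Nat.mul_div_cancel' (Nat.gcd_dvd_left d c.M)
    have e2 := Nat.mul_div_cancel' (Nat.gcd_dvd_left d' c.M)
    rw [← hdd.2, ← hdd.1] at e2
    exact e1.symm.trans e2
  calc ∑ d ∈ S, f (d / Nat.gcd d c.M) = ∑ x ∈ S.image φ, f x.2 := by
        rw [Finset.sum_image hinj]
    _ ≤ ∑ x ∈ j.divisors ×ˢ Icc 1 c.Y, f x.2 := by
        apply Finset.sum_le_sum_of_subset_of_nonneg
        · intro x hx
          obtain ⟨d, hd, rfl⟩ := Finset.mem_image.1 hx
          obtain ⟨hd1, hd2⟩ := Finset.mem_filter.1 hd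
          obtain ⟨hd3, hd4⟩ := mem_Icc.1 hd1
          have hg0 : 0 < Nat.gcd d c.M := Nat.gcd_pos_of_pos_left _ hd3
          refine Finset.mem_product.2 ⟨Nat.mem_divisors.2 ⟨hd2, by omega⟩, mem_Icc.2 ⟨?_, ?_⟩⟩
          · exact Nat.div_pos (Nat.le_of_dvd hd3 (Nat.gcd_dvd_left _ _)) hg0
          · exact (Nat.div_le_self _ _).trans hd4
        · intro x _ _
          exact hf _
    _ = j.divisors.card * ∑ q ∈ Icc 1 c.Y, f q := by
        rw [Finset.sum_product]
        simp only [Finset.sum_const, nsmul_eq_mul]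

theorem sum_mult (P N : ℕ) (hP : 0 < P) :
    ∑ q ∈ (Icc 1 N).filter (fun q => P ∣ q), (1 : ℝ) / q ≤
      1 / P * ∑ q ∈ Icc 1 N, (1 : ℝ) / q := by
  classical
  have hinj : Set.InjOn (fun q => q / P) ((Icc 1 N).filter (fun q => P ∣ q) : Finset ℕ) := by
    intro a ha b hb hab
    have h1 := Nat.mul_div_cancel' (Finset.mem_filter.1 (Finset.mem_coe.1 ha)).2
    have h2 := Nat.mul_div_cancel' (Finset.mem_filter.1 (Finset.mem_coe.1 hb)).2
    simp only at hab
    rw [← hab] at h2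
    exact h1.symm.trans h2
  calc ∑ q ∈ (Icc 1 N).filter (fun q => P ∣ q), (1 : ℝ) / q
      = ∑ q ∈ (Icc 1 N).filter (fun q => P ∣ q), 1 / P * (1 / ((q / P : ℕ) : ℝ)) := by
        apply Finset.sum_congr rfl
        intro q hq
        have h1 := Nat.mul_div_cancel' (Finset.mem_filter.1 hq).2
        have h2 : (q : ℝ) = P * ((q / P : ℕ) : ℝ) := by exact_mod_cast h1.symm
        rw [h2]
        rw [one_div_mul_one_div]
    _ = 1 / P * ∑ q ∈ (Icc 1 N).filter (fun q => P ∣ q), 1 / ((q / P : ℕ) : ℝ) := by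
        rw [Finset.mul_sum]
    _ = 1 / P * ∑ x ∈ ((Icc 1 N).filter (fun q => P ∣ q)).image (fun q => q / P), 1 / (x : ℝ) := by
        rw [Finset.sum_image hinj]
    _ ≤ _ := by
        apply mul_le_mul_of_nonneg_left _ (by positivity)
        apply Finset.sum_le_sum_of_subset_of_nonneg
        · intro x hx
          obtain ⟨q, hq, rfl⟩ := Finset.mem_image.1 hx
          obtain ⟨hq1, hq2⟩ := Finset.mem_filter.1 hq
          obtain ⟨hq3, hq4⟩ := mem_Icc.1 hq1
          exact mem_Icc.2 ⟨Nat.div_pos (Nat.le_of_dvd hq3 hq2) hP, (Nat.div_le_self _ _).trans hq4⟩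
        · intro x _ _
          positivity

theorem harm_le (h : c.Ok) : ∑ q ∈ Icc 1 c.Y, (1 : ℝ) / q ≤ 1020 * c.E := by
  have h1 := harmonic_le_one_add_log c.Y
  have h2 : ((harmonic c.Y : ℚ) : ℝ) = ∑ q ∈ Icc 1 c.Y, (1 : ℝ) / q := by
    rw [harmonic_eq_sum_Icc]
    push_cast
    apply Finset.sum_congr rfl
    intro q _
    rw [one_div]
  rw [← h2]
  refine h1.trans ?_
  have h3 : Real.log (c.Y : ℝ) = 1457 * c.E * Real.log 2 := by
    unfold Y
    push_cast
    rw [Real.log_pow]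
    push_cast
    ring
  rw [h3]
  have h4 := Real.log_two_lt_d9
  have h5 : (6 : ℝ) ≤ c.E := by exact_mod_cast h.E6
  nlinarith

theorem sum_H (h : c.Ok) : ∑ q ∈ Icc 1 c.Y, c.H q / q ≤ 3000 * c.E := by
  classical
  set P := PI (2 ^ c.g) c.Y with hP
  have hPp : ∀ p ∈ P, p.Prime := fun p hp => (mem_PI.1 hp).2.2
  have h1 : ∀ q ∈ Icc 1 c.Y, c.H q / q ≤
      ∑ F ∈ P.powerset, (if (∏ p ∈ F, p) ∣ q then (∏ p ∈ F, 2 * (c.J.card : ℝ) / p) * (1 / q) else 0) := by
    intro q hq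
    obtain ⟨hq1, hq2⟩ := mem_Icc.1 hq
    unfold H
    rw [Finset.prod_one_add, Finset.sum_div, ← Finset.sum_filter]
    have h2 : ∑ F ∈ (q.primeFactors.filter (fun p => 2 ^ c.g < p)).powerset,
        (∏ p ∈ F, 2 * (c.J.card : ℝ) / p) / q =
        ∑ F ∈ (q.primeFactors.filter (fun p => 2 ^ c.g < p)).powerset,
        (∏ p ∈ F, 2 * (c.J.card : ℝ) / p) * (1 / q) := by
      apply Finset.sum_congr rfl; intro F _; ring
    rw [h2]
    apply Finset.sum_le_sum_of_subset_of_nonneg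
    · intro F hF
      have hF' := mem_powerset.1 hF
      refine Finset.mem_filter.2 ⟨mem_powerset.2 ?_, ?_⟩
      · intro p hp
        obtain ⟨hp1, hp2⟩ := Finset.mem_filter.1 (hF' hp)
        rw [hP, mem_PI]
        exact ⟨hp2, (Nat.le_of_dvd (by omega) (Nat.dvd_of_mem_primeFactors hp1)).trans hq2,
          Nat.prime_of_mem_primeFactors hp1⟩
      · apply Finset.prod_primes_dvd
        · intro p hp
          exact (Nat.prime_of_mem_primeFactors (Finset.mem_filter.1 (hF' hp)).1).prime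
        · intro p hp
          exact Nat.dvd_of_mem_primeFactors (Finset.mem_filter.1 (hF' hp)).1
    · intro F _ _
      have : 0 ≤ ∏ p ∈ F, 2 * (c.J.card : ℝ) / p := Finset.prod_nonneg fun p _ => by positivity
      positivity
  refine (Finset.sum_le_sum h1).trans ?_
  rw [Finset.sum_comm]
  have hh := harm_le h
  have hh0 : 0 ≤ ∑ q ∈ Icc 1 c.Y, (1 : ℝ) / q := Finset.sum_nonneg fun q _ => by positivity
  have h3 : ∀ F ∈ P.powerset, ∑ q ∈ Icc 1 c.Y,
      (if (∏ p ∈ F, p) ∣ q then (∏ p ∈ F, 2 * (c.J.card : ℝ) / p) * (1 / q) else 0) ≤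
      (∏ p ∈ F, 2 * (c.J.card : ℝ) * (1 / (p : ℝ) ^ 2)) * ∑ q ∈ Icc 1 c.Y, (1 : ℝ) / q := by
    intro F hF
    have hF' := mem_powerset.1 hF
    have hF0 : 0 < ∏ p ∈ F, p := Finset.prod_pos fun p hp => (hPp p (hF' hp)).pos
    rw [← Finset.sum_filter, ← Finset.mul_sum]
    have h4 := sum_mult (∏ p ∈ F, p) c.Y hF0
    have h5 : 0 ≤ ∏ p ∈ F, 2 * (c.J.card : ℝ) / p := Finset.prod_nonneg fun p _ => by positivity
    refine (mul_le_mul_of_nonneg_left h4 h5).trans (le_of_eq ?_)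
    rw [← mul_assoc]
    congr 1
    push_cast
    rw [one_div, ← Finset.prod_inv_distrib, ← Finset.prod_mul_distrib]
    apply Finset.prod_congr rfl
    intro p hp
    have hp0 : (p : ℝ) ≠ 0 := by
      have := (hPp p (hF' hp)).pos
      positivity
    field_simp
  refine (Finset.sum_le_sum h3).trans ?_
  rw [← Finset.sum_mul, ← Finset.prod_one_add]
  have h6 : ∏ p ∈ P, (1 + 2 * (c.J.card : ℝ) * (1 / (p : ℝ) ^ 2)) ≤ Real.exp 1 := by
    calc ∏ p ∈ P, (1 + 2 * (c.J.card : ℝ) * (1 / (p : ℝ) ^ 2))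
        ≤ ∏ p ∈ P, Real.exp (2 * (c.J.card : ℝ) * (1 / (p : ℝ) ^ 2)) := by
          apply Finset.prod_le_prod
          · intro p _; positivity
          · intro p _
            have := Real.add_one_le_exp (2 * (c.J.card : ℝ) * (1 / (p : ℝ) ^ 2))
            linarith
      _ = Real.exp (2 * c.J.card * ∑ p ∈ P, (1 : ℝ) / (p : ℝ) ^ 2) := by
          rw [← Real.exp_sum, Finset.mul_sum]
      _ ≤ Real.exp 1 := by
          apply Real.exp_le_exp.2
          have h7 := sum_inv_sq_PI (2 ^ c.g) c.Y Nat.one_le_two_pow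
          have h8 : (2 : ℝ) * c.J.card ≤ ((2 ^ c.g : ℕ) : ℝ) := by
            have := h.D
            exact_mod_cast (by omega : 2 * c.J.card ≤ 2 ^ c.g)
          have h9 : (0 : ℝ) < ((2 ^ c.g : ℕ) : ℝ) := by positivity
          calc (2 : ℝ) * c.J.card * ∑ p ∈ P, (1 : ℝ) / (p : ℝ) ^ 2
              ≤ (2 : ℝ) * c.J.card * (1 / ((2 ^ c.g : ℕ) : ℝ)) := by gcongr
            _ ≤ 1 := by rw [mul_one_div, div_le_one h9]; exact h8
  have h7 : Real.exp 1 < 2.7182818286 := Real.exp_one_lt_d9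
  have hE : (0 : ℝ) ≤ c.E := Nat.cast_nonneg _
  calc (∏ p ∈ P, (1 + 2 * (c.J.card : ℝ) * (1 / (p : ℝ) ^ 2))) * ∑ q ∈ Icc 1 c.Y, (1 : ℝ) / q
      ≤ Real.exp 1 * (1020 * c.E) := by gcongr
    _ ≤ 3000 * c.E := by nlinarith

/-- **First moment.** -/
theorem sum_tau {w : ℕ} (h : c.Ok) (h2 : c.Ok2 w) {j : ℕ} (hj : 1 ≤ j) :
    ∑ t ∈ c.I.filter (fun t => j < c.M * t), c.ch t * ((c.M * t - j).divisors.card : ℝ) ≤
      18000 * c.E * j.divisors.card * ((c.X : ℝ) * c.V) := by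
  classical
  have hV := V_pos h
  have hX := c.X_pos
  set T := c.I.filter (fun t => j < c.M * t) with hT
  calc ∑ t ∈ T, c.ch t * ((c.M * t - j).divisors.card : ℝ)
      ≤ ∑ t ∈ T, 2 * ∑ d ∈ Icc 1 c.Y, (if d ∣ c.M * t - j then c.ch t else 0) := by
        apply Finset.sum_le_sum
        intro t ht
        obtain ⟨ht1, ht2⟩ := Finset.mem_filter.1 ht
        have h3 := tau_le_two (c.M * t - j) (by omega)
        have h4 : ((c.M * t - j).divisors.filter (fun d => d * d ≤ c.M * t - j)).card ≤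
            ((Icc 1 c.Y).filter (fun d => d ∣ c.M * t - j)).card := by
          apply Finset.card_le_card
          intro d hd
          obtain ⟨hd1, hd2⟩ := Finset.mem_filter.1 hd
          refine Finset.mem_filter.2 ⟨mem_Icc.2 ⟨Nat.pos_of_mem_divisors hd1, ?_⟩,
            (Nat.mem_divisors.1 hd1).1⟩
          by_contra hcon
          have h5 : c.Y * c.Y < d * d := by
            have : c.Y < d := not_le.1 hcon
            exact Nat.mul_self_lt_mul_self this
          have h6 : c.Y * c.Y = 2 ^ (2914 * c.E) := by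
            unfold Y; rw [← pow_add]; congr 1; ring
          have h7 : 2 ^ (2913 * c.E) ≤ 2 ^ (2914 * c.E) :=
            Nat.pow_le_pow_right (by norm_num) (by omega)
          have h8 := Mt_le h2 ht1
          omega
        have h5 : ((c.M * t - j).divisors.card : ℝ) ≤
            2 * (((Icc 1 c.Y).filter (fun d => d ∣ c.M * t - j)).card : ℝ) := by
          exact_mod_cast h3.trans (Nat.mul_le_mul_left 2 h4)
        refine (mul_le_mul_of_nonneg_left h5 (ch_nonneg t)).trans (le_of_eq ?_)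
        rw [← Finset.sum_filter, Finset.sum_const, nsmul_eq_mul]
        ring
    _ = 2 * ∑ d ∈ Icc 1 c.Y, ∑ t ∈ T.filter (fun t => d ∣ c.M * t - j), c.ch t := by
        rw [← Finset.mul_sum, Finset.sum_comm]
        congr 1
        apply Finset.sum_congr rfl
        intro d _
        exact (Finset.sum_filter _ _).symm
    _ ≤ 2 * ∑ d ∈ Icc 1 c.Y, (if Nat.gcd d c.M ∣ j then
          3 * (c.X : ℝ) * c.V * (c.H (d / Nat.gcd d c.M) / (d / Nat.gcd d c.M : ℕ)) else 0) := by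
        apply mul_le_mul_of_nonneg_left _ (by norm_num)
        exact Finset.sum_le_sum fun d hd => one_class h hd
    _ ≤ 2 * (j.divisors.card * ∑ q ∈ Icc 1 c.Y, 3 * (c.X : ℝ) * c.V * (c.H q / q)) := by
        apply mul_le_mul_of_nonneg_left _ (by norm_num)
        apply sum_pairs hj (fun q => 3 * (c.X : ℝ) * c.V * (c.H q / q)) _ h2.Mpos
        intro q
        have := c.one_le_H q
        positivity
    _ = 6 * (j.divisors.card : ℝ) * ((c.X : ℝ) * c.V) * ∑ q ∈ Icc 1 c.Y, c.H q / q := by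
        rw [← Finset.mul_sum]; ring
    _ ≤ 6 * (j.divisors.card : ℝ) * ((c.X : ℝ) * c.V) * (3000 * c.E) := by
        apply mul_le_mul_of_nonneg_left (sum_H h) (by positivity)
    _ = _ := by ring

end Cfg

end Pool.Agent.MP_f32cb9_nt.UW
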