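import Pool.Agent.MP_f32cb9_nt.UW.A6

set_option autoImplicit false

open Finset

/-!
# Uniform windows: square divisors
-/

namespace Pool.Agent.MP_f32cb9_nt.UW

open Pool.Agent.MP_f32cb9_nt

theorem tau_squarefree_le {m n : ℕ} (hm : Squarefree m) (hmn : m ∣ n) (hn : n ≠ 0) :
    m.divisors.card ≤ 2 ^ n.primeFactors.card := by
  rw [Nat.card_divisors hm.ne_zero]
  calc ∏ x ∈ m.primeFactors, (m.factorization x + 1) ≤ ∏ _x ∈ m.primeFactors, 2 := by
        apply Finset.prod_le_prod'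
        intro x _
        have := hm.natFactorization_le_one x
        omega
    _ = 2 ^ m.primeFactors.card := by rw [Finset.prod_const]
    _ ≤ _ := Nat.pow_le_pow_right (by norm_num)
        (Finset.card_le_card (Nat.primeFactors_mono hmn hn))

/-- If all prime factors of `q` exceed `2 ^ g` then `τ q ^ g ≤ q`. -/
theorem rough_tau (g : ℕ) (q : ℕ) (hq : 1 ≤ q)
    (h : ∀ p : ℕ, p.Prime → p ∣ q → 2 ^ g < p) : q.divisors.card ^ g ≤ q := by
  induction q using Nat.strong_induction_on with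
  | _ q ih =>
    rcases Nat.eq_or_lt_of_le hq with h1 | h1
    · rw [← h1]; simp
    · have hp := Nat.minFac_prime (by omega : q ≠ 1)
      have hpq := Nat.minFac_dvd q
      set p := q.minFac
      obtain ⟨r, hr⟩ := hpq
      have hr0 : 1 ≤ r := by
        rcases Nat.eq_zero_or_pos r with h2 | h2
        · rw [h2, mul_zero] at hr; omega
        · exact h2
      have hrq : r < q := by
        have h3 := hp.one_lt
        calc r = 1 * r := (one_mul r).symm
          _ < p * r := Nat.mul_lt_mul_of_pos_right h3 hr0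
          _ = q := hr.symm
      have h4 := ih r hrq hr0 (fun p' hp' hd => h p' hp' (by rw [hr]; exact hd.mul_left _))
      have h5 : q.divisors.card ≤ 2 * r.divisors.card := by
        rw [hr]
        refine (Cfg.tau_mul_le _ _).trans ?_
        have : p.divisors.card = 2 := by
          rw [hp.divisors, Finset.card_pair hp.one_lt.ne]
        rw [this]
      have h6 : 2 ^ g < p := h p hp (by rw [hr]; exact dvd_mul_right _ _)
      calc q.divisors.card ^ g ≤ (2 * r.divisors.card) ^ g := Nat.pow_le_pow_left h5 g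
        _ = 2 ^ g * r.divisors.card ^ g := by rw [mul_pow]
        _ ≤ p * r := Nat.mul_le_mul h6.le h4
        _ = q := hr.symm

theorem sum_sqrt (Q Y : ℕ) (hQ : 1 ≤ Q) (hQY : Q ≤ Y) :
    ∑ q ∈ Ioc Q Y, Real.sqrt q / (q : ℝ) ^ 2 ≤ 2 / Real.sqrt Q - 2 / Real.sqrt Y := by
  induction Y, hQY using Nat.le_induction with
  | base => simp
  | succ n hn ih =>
    rw [← Finset.insert_Ioc_right_eq_Ioc_add_one hn, Finset.sum_insert (by simp)]
    have hn0 : (0 : ℝ) < n := by exact_mod_cast (by omega : 0 < n)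
    set a := Real.sqrt (n : ℝ) with ha
    set b := Real.sqrt ((n + 1 : ℕ) : ℝ) with hb
    have ha0 : 0 < a := Real.sqrt_pos.2 hn0
    have hb0 : 0 < b := Real.sqrt_pos.2 (by positivity)
    have ha2 : a ^ 2 = n := Real.sq_sqrt hn0.le
    have hb2 : b ^ 2 = ((n + 1 : ℕ) : ℝ) := Real.sq_sqrt (by positivity)
    have hab : a ≤ b := Real.sqrt_le_sqrt (by push_cast; linarith)
    have hd : b ^ 2 - a ^ 2 = 1 := by rw [ha2, hb2]; push_cast; ring
    have key : b / ((n + 1 : ℕ) : ℝ) ^ 2 ≤ 2 / a - 2 / b := by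
      rw [← hb2]
      have e1 : b / (b ^ 2) ^ 2 = 1 / b ^ 3 := by field_simp
      have e2 : 2 / a - 2 / b = 2 * (b - a) / (a * b) := by field_simp
      rw [e1, e2, div_le_div_iff₀ (by positivity) (by positivity)]
      have h3 : (b - a) * (b + a) = 1 := by linarith [hd]
      have h4 : 0 ≤ b - a := by linarith
      have h5 : 1 ≤ 2 * (b - a) * b := by nlinarith
      have h6 : a * b ≤ b ^ 2 := by nlinarith
      calc 1 * (a * b) ≤ 1 * b ^ 2 := by linarith
        _ ≤ (2 * (b - a) * b) * b ^ 2 := by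
            apply mul_le_mul_of_nonneg_right h5 (by positivity)
        _ = 2 * (b - a) * b ^ 3 := by ring
    linarith

namespace Cfg

variable {c : Cfg}

theorem H_sq_le {w : ℕ} (h : c.Ok) (h2 : c.Ok2 w) {j t q : ℕ} (hj : 1 ≤ j) (hjw : j < 2 ^ w)
    (ht : j < c.M * t) (hd : q ^ 2 ∣ c.L j t) (hq : 1 ≤ q) : c.H (q ^ 2) ≤ Real.sqrt q := by
  have hr : ∀ p : ℕ, p.Prime → p ∣ q → 2 ^ c.g < p := fun p hp hpq =>
    prime_gt h2 hj hjw ht hp ((hpq.trans (dvd_pow_self q (by norm_num))).trans hd)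
  apply Real.le_sqrt_of_sq_le
  unfold H
  rw [Nat.primeFactors_pow _ (by norm_num), ← Finset.prod_pow]
  have h3 : ∏ p ∈ q.primeFactors.filter (fun p => 2 ^ c.g < p), (1 + 2 * (c.J.card : ℝ) / p) ^ 2 ≤
      ∏ p ∈ q.primeFactors, (p : ℝ) := by
    rw [Finset.filter_true_of_mem (fun p hp => hr p (Nat.prime_of_mem_primeFactors hp)
      (Nat.dvd_of_mem_primeFactors hp))]
    apply Finset.prod_le_prod
    · intro p _; positivity
    · intro p hp
      have h4 := hr p (Nat.prime_of_mem_primeFactors hp) (Nat.dvd_of_mem_primeFactors hp)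
      have h5 := h.D
      have h6 : 2 ^ 16 ≤ 2 ^ c.g := Nat.pow_le_pow_right (by norm_num) h.g16
      have hp0 : (0 : ℝ) < p := by exact_mod_cast (Nat.prime_of_mem_primeFactors hp).pos
      have h7 : 2 * (c.J.card : ℝ) / p ≤ 1 := by
        rw [div_le_one hp0]
        exact_mod_cast (by omega : 2 * c.J.card ≤ p)
      have h8 : (4 : ℝ) ≤ p := by
        have : 4 ≤ p := by omega
        exact_mod_cast this
      have h9 : 0 ≤ 2 * (c.J.card : ℝ) / p := by positivity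
      nlinarith
  refine h3.trans ?_
  have h4 : ∏ p ∈ q.primeFactors, p ≤ q := Nat.le_of_dvd hq (Nat.prod_primeFactors_dvd q)
  calc ∏ p ∈ q.primeFactors, (p : ℝ) = ((∏ p ∈ q.primeFactors, p : ℕ) : ℝ) := by push_cast; rfl
    _ ≤ q := by exact_mod_cast h4

/-- the event that `L j t` has a large square divisor -/
def Sq (c : Cfg) (Q j t : ℕ) : Prop := ∃ q : ℕ, Q < q ∧ q ^ 2 ∣ c.L j t

theorem card_class (q r : ℕ) (hq : 0 < q) :
    ∑ t ∈ c.I.filter (fun t => t ≡ r [MOD q]), c.ch t ≤ (c.X : ℝ) / q + 1 := by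
  have h1 := count_ivl c.X c.X q r hq
  have h2 : ∑ t ∈ c.I.filter (fun t => t ≡ r [MOD q]), c.ch t ≤
      ((c.I.filter (fun t => t ≡ r [MOD q])).card : ℝ) := by
    have : ∀ t ∈ c.I.filter (fun t => t ≡ r [MOD q]), c.ch t ≤ 1 := by
      intro t _
      rcases ch_zero_or_one (c := c) t with h0 | h0 <;> rw [h0] <;> norm_num
    refine (Finset.sum_le_sum this).trans ?_
    simp
  have h3 := (abs_le.1 h1).2
  unfold I at h2 ⊢
  linarith

open scoped Classical in
theorem sq_event {w : ℕ} (h : c.Ok) (h2 : c.Ok2 w) {j : ℕ} (hj : 1 ≤ j) (hjw : j < 2 ^ w)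
    {Q : ℕ} (hQ : 1 ≤ Q) (hQE : Q ≤ 2 ^ c.E) :
    ∑ t ∈ c.I.filter (fun t => c.Sq Q j t), c.ch t ≤
      6 / Real.sqrt Q * ((c.X : ℝ) * c.V) + (2 : ℝ) ^ (1750 * (c.E : ℝ)) := by
  have hV := V_pos h
  have hX := c.X_pos
  set Z : ℕ := 2 ^ (1164 * c.E) with hZ
  have hQZ : Q ≤ Z := hQE.trans (Nat.pow_le_pow_right (by norm_num) (by omega))
  have hZY : Z ≤ c.Y := Nat.pow_le_pow_right (by norm_num) (by omega)
  have hZ0 : 1 ≤ Z := Nat.one_le_two_pow
  -- union over q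
  have h3 : ∑ t ∈ c.I.filter (fun t => c.Sq Q j t), c.ch t ≤
      ∑ q ∈ Ioc Q c.Y, ∑ t ∈ c.I.filter (fun t => q ^ 2 ∣ c.L j t), c.ch t := by
    have h4 : ∀ t ∈ c.I.filter (fun t => c.Sq Q j t), c.ch t ≤
        ∑ q ∈ Ioc Q c.Y, (if q ^ 2 ∣ c.L j t then c.ch t else 0) := by
      intro t ht
      obtain ⟨ht1, q, hq1, hq2⟩ := Finset.mem_filter.1 ht
      have htM := lt_Mt h2 hjw ht1
      have hL0 := L_pos hj htM
      have hqY : q ≤ c.Y := by
        have h5 : q ^ 2 ≤ c.L j t := Nat.le_of_dvd hL0 hq2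
        have h6 : c.L j t ≤ 2 ^ (2913 * c.E) := (L_le j t).trans (Mt_le h2 ht1)
        have h7 : 2 ^ (2913 * c.E) ≤ 2 ^ (2914 * c.E) :=
          Nat.pow_le_pow_right (by norm_num) (by omega)
        have h8 : c.Y ^ 2 = 2 ^ (2914 * c.E) := by
          unfold Y; rw [← pow_mul]; congr 1; ring
        exact (Nat.pow_le_pow_iff_left (by norm_num)).1 (h5.trans (h6.trans (h7.trans h8.symm.le)))
      have h9 := Finset.single_le_sum (f := fun q => if q ^ 2 ∣ c.L j t then c.ch t else 0)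
        (s := Ioc Q c.Y) (a := q) (fun q _ => by
          split_ifs
          · exact ch_nonneg t
          · exact le_rfl) (mem_Ioc.2 ⟨hq1, hqY⟩)
      simp only [if_pos hq2] at h9
      exact h9
    refine (Finset.sum_le_sum h4).trans ?_
    rw [Finset.sum_comm]
    apply Finset.sum_le_sum
    intro q _
    rw [← Finset.sum_filter]
    apply Finset.sum_le_sum_of_subset_of_nonneg
    · intro t ht
      obtain ⟨ht1, ht2⟩ := Finset.mem_filter.1 ht
      exact Finset.mem_filter.2 ⟨(Finset.mem_filter.1 ht1).1, ht2⟩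
    · intro t _ _
      exact ch_nonneg t
  refine h3.trans ?_
  have hsplit : ∑ q ∈ Ioc Q c.Y, ∑ t ∈ c.I.filter (fun t => q ^ 2 ∣ c.L j t), c.ch t =
      ∑ q ∈ Ioc Q Z, ∑ t ∈ c.I.filter (fun t => q ^ 2 ∣ c.L j t), c.ch t +
      ∑ q ∈ Ioc Z c.Y, ∑ t ∈ c.I.filter (fun t => q ^ 2 ∣ c.L j t), c.ch t :=
    (Finset.sum_Ioc_consecutive _ hQZ hZY).symm
  rw [hsplit]
  apply add_le_add
  · -- small q
    have h4 : ∀ q ∈ Ioc Q Z, ∑ t ∈ c.I.filter (fun t => q ^ 2 ∣ c.L j t), c.ch t ≤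
        3 * ((c.X : ℝ) * c.V) * (Real.sqrt q / (q : ℝ) ^ 2) := by
      intro q hq
      obtain ⟨hq1, hq2⟩ := mem_Ioc.1 hq
      by_cases hex : ∃ t, t ∈ c.I.filter (fun t => q ^ 2 ∣ c.L j t)
      · obtain ⟨r, hr⟩ := hex
        obtain ⟨hr1, hr2⟩ := Finset.mem_filter.1 hr
        have hH := H_sq_le h h2 hj hjw (lt_Mt h2 hjw hr1) hr2 (by omega)
        have hq0 : 0 < q ^ 2 := by
          have : 0 < q := by omega
          positivity
        have hqX : ((q ^ 2 : ℕ) : ℝ) ≤ (2 : ℝ) ^ (2329 * (c.E : ℝ)) := by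
          have h5 : q ^ 2 ≤ 2 ^ (2329 * c.E) := by
            calc q ^ 2 ≤ Z ^ 2 := Nat.pow_le_pow_left hq2 2
              _ = 2 ^ (2328 * c.E) := by rw [hZ, ← pow_mul]; congr 1; ring
              _ ≤ _ := Nat.pow_le_pow_right (by norm_num) (by omega)
          have h6 : (2 : ℝ) ^ (2329 * (c.E : ℝ)) = ((2 ^ (2329 * c.E) : ℕ) : ℝ) := by
            push_cast
            rw [← Real.rpow_natCast]
            push_cast
            rfl
          rw [h6]
          exact_mod_cast h5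
        have h7 := upper_dvd h h2 hj hjw hq0 hqX
        refine h7.trans ?_
        have hq0' : (0 : ℝ) < (q : ℝ) ^ 2 := by exact_mod_cast hq0
        push_cast
        calc 3 * (c.X : ℝ) * c.V * c.H (q ^ 2) / (q : ℝ) ^ 2
            ≤ 3 * (c.X : ℝ) * c.V * Real.sqrt q / (q : ℝ) ^ 2 := by gcongr
          _ = _ := by ring
      · push Not at hex
        rw [Finset.eq_empty_of_forall_notMem hex, Finset.sum_empty]
        positivity
    refine (Finset.sum_le_sum h4).trans ?_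
    rw [← Finset.mul_sum]
    have h5 := sum_sqrt Q Z hQ hQZ
    have h6 : 0 ≤ 2 / Real.sqrt (Z : ℝ) := by positivity
    have h7 : 0 ≤ 3 * ((c.X : ℝ) * c.V) := by positivity
    calc 3 * ((c.X : ℝ) * c.V) * ∑ q ∈ Ioc Q Z, Real.sqrt q / (q : ℝ) ^ 2
        ≤ 3 * ((c.X : ℝ) * c.V) * (2 / Real.sqrt Q) := by
          apply mul_le_mul_of_nonneg_left _ h7
          linarith
      _ = _ := by ring
  · -- large q
    have h4 : ∀ q ∈ Ioc Z c.Y, ∑ t ∈ c.I.filter (fun t => q ^ 2 ∣ c.L j t), c.ch t ≤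
        (c.X : ℝ) * (1 / (q : ℝ) ^ 2) + 1 := by
      intro q hq
      obtain ⟨hq1, hq2⟩ := mem_Ioc.1 hq
      by_cases hex : ∃ t, t ∈ c.I.filter (fun t => q ^ 2 ∣ c.L j t)
      · obtain ⟨r, hr⟩ := hex
        obtain ⟨hr1, hr2⟩ := Finset.mem_filter.1 hr
        have hq0 : 0 < q ^ 2 := by
          have : 0 < q := by omega
          positivity
        have h7 := card_class (c := c) (q ^ 2) r hq0
        have e : (c.X : ℝ) * (1 / (q : ℝ) ^ 2) + 1 = (c.X : ℝ) / ((q ^ 2 : ℕ) : ℝ) + 1 := by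
          push_cast; ring
        rw [e]
        refine le_trans ?_ h7
        apply Finset.sum_le_sum_of_subset_of_nonneg
        · intro t ht
          obtain ⟨ht1, ht2⟩ := Finset.mem_filter.1 ht
          exact Finset.mem_filter.2 ⟨ht1, L_class hj (lt_Mt h2 hjw ht1) (lt_Mt h2 hjw hr1) ht2 hr2⟩
        · intro t _ _
          exact ch_nonneg _
      · push Not at hex
        rw [Finset.eq_empty_of_forall_notMem hex, Finset.sum_empty]
        positivity
    refine (Finset.sum_le_sum h4).trans ?_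
    rw [Finset.sum_add_distrib, ← Finset.mul_sum, Finset.sum_const, nsmul_eq_mul, mul_one,
      Nat.card_Ioc]
    have h5 : ∑ q ∈ Ioc Z c.Y, (1 : ℝ) / (q : ℝ) ^ 2 ≤ (1 : ℝ) / (Z : ℝ) := by
      have h6 := sum_Ioc_inv_sq_le_sub (α := ℝ) (by omega : Z ≠ 0) hZY
      have h7 : ∑ p ∈ Ioc Z c.Y, (1 : ℝ) / (p : ℝ) ^ 2 = ∑ p ∈ Ioc Z c.Y, ((p : ℝ) ^ 2)⁻¹ := by
        apply Finset.sum_congr rfl; intro p _; rw [one_div]
      rw [h7]
      refine h6.trans ?_
      rw [one_div]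
      have : (0 : ℝ) ≤ (c.Y : ℝ)⁻¹ := by positivity
      linarith
    have hE : (0 : ℝ) ≤ c.E := Nat.cast_nonneg _
    have hE6 : (6 : ℝ) ≤ c.E := by exact_mod_cast h.E6
    have h8 : (c.X : ℝ) * ((1 : ℝ) / (Z : ℝ)) = (2 : ℝ) ^ (1748 * (c.E : ℝ)) := by
      have e1 : (Z : ℝ) = (2 : ℝ) ^ (1164 * (c.E : ℝ)) := by
        rw [hZ]; push_cast; rw [← Real.rpow_natCast]; push_cast; rfl
      rw [X_rpow, e1, mul_one_div, ← Real.rpow_sub (by norm_num)]
      congr 1; ring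
    have h9 : ((c.Y - Z : ℕ) : ℝ) ≤ (2 : ℝ) ^ (1748 * (c.E : ℝ)) := by
      have e1 : (c.Y : ℝ) = (2 : ℝ) ^ (1457 * (c.E : ℝ)) := by
        unfold Y; push_cast; rw [← Real.rpow_natCast]; push_cast; rfl
      calc ((c.Y - Z : ℕ) : ℝ) ≤ (c.Y : ℝ) := by exact_mod_cast Nat.sub_le _ _
        _ = _ := e1
        _ ≤ _ := Real.rpow_le_rpow_of_exponent_le (by norm_num) (by linarith)
    calc (c.X : ℝ) * ∑ q ∈ Ioc Z c.Y, (1 : ℝ) / (q : ℝ) ^ 2 + ((c.Y - Z : ℕ) : ℝ)
        ≤ (c.X : ℝ) * ((1 : ℝ) / (Z : ℝ)) + (2 : ℝ) ^ (1748 * (c.E : ℝ)) :=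
          add_le_add (mul_le_mul_of_nonneg_left h5 hX.le) h9
      _ = (2 : ℝ) ^ (1748 * (c.E : ℝ) + 1) := by
          rw [h8, Real.rpow_add (by norm_num), Real.rpow_one]; ring
      _ ≤ _ := Real.rpow_le_rpow_of_exponent_le (by norm_num) (by linarith)

/-- outside of the event the divisor function of `L j t` is controlled by the number of primes -/
theorem tau_good {w : ℕ} (h : c.Ok) (h2 : c.Ok2 w) {j t : ℕ} (hj : 1 ≤ j) (hjw : j < 2 ^ w)
    (ht : j < c.M * t) {Q κ : ℕ} (hQ : Q ≤ 2 ^ (κ * c.g)) (hs : ¬ c.Sq Q j t) :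
    (c.L j t).divisors.card ≤ 2 ^ (2 * κ) * 2 ^ (c.L j t).primeFactors.card := by
  have hL0 := L_pos hj ht
  obtain ⟨a, b, ha0, hb0, hab, hsq⟩ := Nat.sq_mul_squarefree_of_pos hL0
  have hbQ : b ≤ Q := by
    by_contra hcon
    exact hs ⟨b, not_le.1 hcon, ⟨a, hab.symm⟩⟩
  have hb1 := rough_tau c.g b hb0 (fun p hp hpb => prime_gt h2 hj hjw ht hp
    ((hpb.trans (dvd_pow_self b (by norm_num))).trans ⟨a, hab.symm⟩))
  have hg := h.g16
  have hb2 : b.divisors.card ≤ 2 ^ κ := by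
    have h3 : b.divisors.card ^ c.g ≤ (2 ^ κ) ^ c.g := by
      rw [← pow_mul]
      exact hb1.trans (hbQ.trans hQ)
    exact (Nat.pow_le_pow_iff_left (by omega)).1 h3
  have h4 : (b ^ 2).divisors.card ≤ 2 ^ (2 * κ) := by
    rw [pow_two]
    refine (tau_mul_le _ _).trans ((Nat.mul_le_mul hb2 hb2).trans (le_of_eq ?_))
    rw [← pow_add]; congr 1; ring
  have h5 : a.divisors.card ≤ 2 ^ (c.L j t).primeFactors.card :=
    tau_squarefree_le hsq ⟨b ^ 2, by rw [mul_comm]; exact hab.symm⟩ (by omega)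
  calc (c.L j t).divisors.card = (b ^ 2 * a).divisors.card := by rw [hab]
    _ ≤ (b ^ 2).divisors.card * a.divisors.card := tau_mul_le _ _
    _ ≤ _ := Nat.mul_le_mul h4 h5

end Cfg

end Pool.Agent.MP_f32cb9_nt.UW
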