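import Pool.Agent.MP_f32cb9_nt.UW.A7

set_option autoImplicit false

open Finset Filter

/-!
# Uniform windows: choice of the parameters
-/

namespace Pool.Agent.MP_f32cb9_nt.UW

open Pool.Agent.MP_f32cb9_nt

theorem log_small {δ : ℝ} (hδ : 0 < δ) (C : ℝ) :
    ∀ᶠ E : ℕ in atTop, C * ((Nat.log 2 E : ℝ) + 1) ≤ (E : ℝ) ^ δ := by
  set D : ℝ := max C 0 + 1 with hD
  have hD0 : 0 < D := by
    have := le_max_right C 0
    linarith
  have hCD : C ≤ D := by
    have := le_max_left C 0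
    linarith
  have h1 : ∀ᶠ x : ℝ in atTop, Real.log x ≤ 1 / (4 * D) * x ^ δ := by
    have h2 := (isLittleO_log_rpow_atTop hδ).bound (show (0 : ℝ) < 1 / (4 * D) by positivity)
    filter_upwards [h2, eventually_ge_atTop (1 : ℝ)] with x hx hx1
    rw [Real.norm_of_nonneg (Real.log_nonneg hx1), Real.norm_of_nonneg (by positivity)] at hx
    exact hx
  have h2 : ∀ᶠ x : ℝ in atTop, 2 * D ≤ x ^ δ := (tendsto_rpow_atTop hδ).eventually_ge_atTop _
  have h3 := tendsto_natCast_atTop_atTop (R := ℝ)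
  filter_upwards [h3.eventually h1, h3.eventually h2, eventually_ge_atTop 1] with E hE1 hE2 hE3
  have hE0 : (0 : ℝ) < E := by exact_mod_cast hE3
  have h4 : (Nat.log 2 E : ℝ) ≤ 2 * Real.log E := by
    have h5 : (2 : ℝ) ^ (Nat.log 2 E) ≤ E := by
      exact_mod_cast Nat.pow_log_le_self 2 (by omega)
    have h6 := Real.log_le_log (by positivity) h5
    rw [Real.log_pow] at h6
    have h7 := Real.log_two_gt_d9
    have h8 : (0 : ℝ) ≤ Nat.log 2 E := Nat.cast_nonneg _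
    nlinarith
  have h9 : (0 : ℝ) ≤ (Nat.log 2 E : ℝ) + 1 := by positivity
  calc C * ((Nat.log 2 E : ℝ) + 1) ≤ D * ((Nat.log 2 E : ℝ) + 1) :=
        mul_le_mul_of_nonneg_right hCD h9
    _ ≤ D * (2 * (1 / (4 * D) * (E : ℝ) ^ δ) + 1) := by
        apply mul_le_mul_of_nonneg_left _ hD0.le
        linarith
    _ = (E : ℝ) ^ δ / 2 + D := by field_simp; ring
    _ ≤ (E : ℝ) ^ δ := by linarith

theorem geo_filter (m : ℕ) (x : ℝ) (hx : 0 < x) :
    ∑ i ∈ (range m).filter (fun i => (1 : ℝ) / 2 ^ i < x), (1 : ℝ) / 2 ^ i ≤ 2 * x := by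
  classical
  by_cases hex : ∃ i : ℕ, (1 : ℝ) / 2 ^ i < x
  · set a := Nat.find hex with ha
    have ha1 : (1 : ℝ) / 2 ^ a < x := Nat.find_spec hex
    have h1 : ∑ i ∈ (range m).filter (fun i => (1 : ℝ) / 2 ^ i < x), (1 : ℝ) / 2 ^ i ≤
        ∑ i ∈ Ico a m, (1 / 2 : ℝ) ^ i := by
      have e : ∀ i ∈ (range m).filter (fun i => (1 : ℝ) / 2 ^ i < x),
          (1 : ℝ) / 2 ^ i = (1 / 2 : ℝ) ^ i := by
        intro i _
        rw [one_div_pow]
      rw [Finset.sum_congr rfl e]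
      apply Finset.sum_le_sum_of_subset_of_nonneg
      · intro i hi
        obtain ⟨hi1, hi2⟩ := Finset.mem_filter.1 hi
        exact mem_Ico.2 ⟨Nat.find_min' hex hi2, mem_range.1 hi1⟩
      · intro i _ _
        positivity
    have h2 := geom_sum_Ico_le_of_lt_one (x := (1 / 2 : ℝ)) (m := a) (n := m) (by norm_num)
      (by norm_num)
    have h3 : (1 / 2 : ℝ) ^ a / (1 - 1 / 2) = 2 * (1 / 2 ^ a) := by
      rw [one_div_pow]; ring
    rw [h3] at h2
    linarith
  · push Not at hex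
    rw [Finset.filter_false_of_mem (fun i _ => not_lt.2 (hex i)), Finset.sum_empty]
    linarith

/-- the weights: positive, with total mass at most `1` -/
structure Wts (γ : ℕ → ℝ) : Prop where
  pos : ∀ j, 1 ≤ j → 0 < γ j
  sum : ∀ s : Finset ℕ, (∀ j ∈ s, 1 ≤ j) → ∑ j ∈ s, γ j ≤ 1

theorem Wts.le_one {γ : ℕ → ℝ} (h : Wts γ) {j : ℕ} (hj : 1 ≤ j) : γ j ≤ 1 := by
  have := h.sum {j} (by simpa using hj)
  simpa using this

theorem cfg_exists {δ : ℝ} (hδ : 0 < δ) (hδ2 : δ ≤ 1 / 2) (B : ℕ) (hB : 1 ≤ B) :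
    ∀ᶠ E : ℕ in atTop, ∀ γ : ℕ → ℝ, Wts γ →
      ∃ (c : Cfg) (w : ℕ), c.E = E ∧ c.Ok ∧ c.Ok2 w ∧ (E : ℝ) ^ B ≤ (2 : ℝ) ^ w ∧
        2 * w + 20 ≤ E ∧ 2 * w + 20 ≤ (4 * B + 2) * c.g ∧
        ∀ j, 1 ≤ j → j < 2 ^ w → c.s j ≤ 2912 * E ∧
          (E : ℝ) / c.s j ≤ 2 * (γ j) ^ (-(1 / (1 - δ))) := by
  have h3 := tendsto_natCast_atTop_atTop (R := ℝ)
  have hpow : ∀ {κ : ℝ}, 0 < κ → ∀ C : ℝ, ∀ᶠ E : ℕ in atTop, C ≤ (E : ℝ) ^ κ := fun hκ C =>
    h3.eventually ((tendsto_rpow_atTop hκ).eventually_ge_atTop C)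
  filter_upwards [eventually_ge_atTop 6, hpow (show (0 : ℝ) < 1 - δ / 2 by linarith) (2 ^ 17),
    hpow (show (0 : ℝ) < δ / 2 by linarith) 8, hpow (show (0 : ℝ) < δ by linarith) 2,
    hpow (show (0 : ℝ) < 1 - δ by linarith) 8,
    log_small hδ 4, log_small (show (0 : ℝ) < δ / 2 by linarith) (3 * B),
    log_small (show (0 : ℝ) < 1 by norm_num) (22 * B)]
    with E hE6 hE1 hE2 hE3 hE4 hE5 hE7 hE8
  intro γ hγ
  have hE0 : (0 : ℝ) < E := by exact_mod_cast (by omega : 0 < E)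
  have hE1' : (1 : ℝ) ≤ E := by exact_mod_cast (by omega : 1 ≤ E)
  have hB0 : (1 : ℝ) ≤ B := by exact_mod_cast hB
  rw [Real.rpow_one] at hE8
  set n0 := Nat.log 2 E with hn0
  set x : ℝ := (E : ℝ) ^ (1 - δ / 2) with hx
  set g := Nat.log 2 ⌊x⌋₊ with hg
  set w := B * (n0 + 1) with hw
  have hx0 : 0 < x := by positivity
  have hx1 : (1 : ℝ) ≤ x := by
    have : (1 : ℝ) ≤ 2 ^ 17 := by norm_num
    linarith
  have hfl : ⌊x⌋₊ ≠ 0 := by
    rw [Ne, Nat.floor_eq_zero, not_lt]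
    exact hx1
  have hg1 : ((2 ^ g : ℕ) : ℝ) ≤ x := by
    have h4 : 2 ^ g ≤ ⌊x⌋₊ := Nat.pow_log_le_self 2 hfl
    exact (Nat.cast_le.2 h4).trans (Nat.floor_le hx0.le)
  have hg2 : x < 2 * ((2 ^ g : ℕ) : ℝ) := by
    have h4 : ⌊x⌋₊ < 2 ^ (g + 1) := Nat.lt_pow_succ_log_self (by norm_num) _
    have h5 : x < ((2 ^ (g + 1) : ℕ) : ℝ) := (Nat.floor_lt hx0.le).1 h4
    rw [pow_succ] at h5
    push_cast at h5 ⊢
    linarith
  have hEx : (E : ℝ) = x * (E : ℝ) ^ (δ / 2) := by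
    rw [hx, ← Real.rpow_add hE0]
    have : 1 - δ / 2 + δ / 2 = 1 := by ring
    rw [this, Real.rpow_one]
  set y : ℝ := (E : ℝ) ^ (1 - δ) with hy
  have hy0 : 0 < y := by positivity
  have hyx : y * (E : ℝ) ^ (δ / 2) = x := by
    rw [hy, hx, ← Real.rpow_add hE0]
    congr 1; ring
  have hEy : (E : ℝ) = y * (E : ℝ) ^ δ := by
    rw [hy, ← Real.rpow_add hE0]
    have : 1 - δ + δ = 1 := by ring
    rw [this, Real.rpow_one]
  have hEn0 : E < 2 ^ (n0 + 1) := Nat.lt_pow_succ_log_self (by norm_num) _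
  have hn0E : 2 ^ n0 ≤ E := Nat.pow_log_le_self 2 (by omega)
  have hg16 : 16 ≤ g := by
    by_contra hcon
    have h4 : 2 ^ g ≤ 2 ^ 15 := Nat.pow_le_pow_right (by norm_num) (by omega)
    have h5 : ((2 ^ g : ℕ) : ℝ) ≤ ((2 ^ 15 : ℕ) : ℝ) := by exact_mod_cast h4
    norm_num at h5 hE1 hg2
    linarith
  have hgn : n0 + 1 ≤ 2 * g := by
    have h4 : ((2 ^ (n0 + 1) : ℕ) : ℝ) ≤ ((2 ^ (2 * g) : ℕ) : ℝ) := by
      have h5 : ((2 ^ (n0 + 1) : ℕ) : ℝ) ≤ 2 * E := by
        have : 2 ^ (n0 + 1) ≤ 2 * E := by rw [pow_succ]; omega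
        exact_mod_cast this
      have h6 : ((2 ^ (2 * g) : ℕ) : ℝ) = ((2 ^ g : ℕ) : ℝ) ^ 2 := by
        push_cast; rw [← pow_mul, mul_comm]
      rw [h6]
      have h7 : x / 2 ≤ ((2 ^ g : ℕ) : ℝ) := by linarith
      have h8 : (x / 2) ^ 2 ≤ ((2 ^ g : ℕ) : ℝ) ^ 2 := pow_le_pow_left₀ (by positivity) h7 2
      have h9 : x ^ 2 = E * y := by
        rw [hx, hy, ← Real.rpow_natCast, ← Real.rpow_mul hE0.le]
        nth_rewrite 2 [← Real.rpow_one (E : ℝ)]
        rw [← Real.rpow_add hE0]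
        congr 1; push_cast; ring
      have h10 : 8 * (E : ℝ) ≤ E * y := by nlinarith
      nlinarith
    have h5 : 2 ^ (n0 + 1) ≤ 2 ^ (2 * g) := by exact_mod_cast h4
    exact (Nat.pow_le_pow_iff_right (by norm_num)).1 h5
  -- the set J
  set J : Finset ℕ := (Ico 1 (2 ^ w)).filter (fun j => 1 / y ≤ γ j) with hJ
  have hJ1 : ∀ j ∈ J, 1 ≤ j := fun j hj => (mem_Ico.1 (Finset.mem_filter.1 hj).1).1
  have hJcard : (J.card : ℝ) ≤ y := by
    have h4 : ∑ _j ∈ J, 1 / y ≤ ∑ j ∈ J, γ j :=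
      Finset.sum_le_sum fun j hj => (Finset.mem_filter.1 hj).2
    rw [Finset.sum_const, nsmul_eq_mul, mul_one_div] at h4
    have h5 := h4.trans (hγ.sum J hJ1)
    rwa [div_le_one hy0] at h5
  set l : ℕ → ℕ := fun j => ⌊γ j * E⌋₊ with hl
  set M : ℕ := (primorial (2 ^ g)) ^ w with hM
  have hl_le : ∀ j, 1 ≤ j → (l j : ℝ) ≤ γ j * E := fun j hj =>
    Nat.floor_le (mul_nonneg (hγ.pos j hj).le hE0.le)
  set c : Cfg := ⟨E, g, M, J, l⟩ with hc
  have hm : c.m = n0 + 1 := rfl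
  have hcnt : ∀ i, (c.cnt i : ℝ) ≤ y := fun i => (Nat.cast_le.2 (c.cnt_le i)).trans hJcard
  have hM4 : M ≤ 4 ^ (2 ^ g * w) := by
    rw [hM, pow_mul 4 (2 ^ g) w]
    exact Nat.pow_le_pow_left (primorial_le_four_pow _) w
  have hok : c.Ok := by
    refine ⟨hg16, ?_, ?_, ?_, ?_, hE6, ?_⟩
    · intro p hp hgp hd
      have h4 : p ∣ primorial (2 ^ g) := hp.dvd_of_dvd_pow hd
      unfold primorial at h4
      obtain ⟨q, hq, hpq⟩ := (Prime.dvd_finsetProd_iff hp.prime _).1 h4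
      obtain ⟨hq1, hq2⟩ := Finset.mem_filter.1 hq
      have h5 : p = q := (Nat.prime_dvd_prime_iff_eq hp hq2).1 hpq
      have h6 := mem_range.1 hq1
      have h7 : 2 ^ g < p := hgp
      omega
    · have h4 : (2 : ℝ) * (J.card : ℝ) + 2 ≤ ((2 ^ g : ℕ) : ℝ) := by
        have h5 : 8 * y ≤ x := by
          rw [← hyx]
          nlinarith
        have h6 : (1 : ℝ) ≤ y := by linarith
        linarith
      exact_mod_cast h4
    · -- the sum of the counts
      have h4 : ∀ i ∈ range c.m, (c.cnt i : ℝ) / 2 ^ i ≤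
          ∑ j ∈ J, (if (1 : ℝ) / 2 ^ i < 2 * γ j then (1 : ℝ) / 2 ^ i else 0) := by
        intro i _
        have h5 : ((J.filter (fun j => c.e (i + 1) < l j)).card : ℝ) / 2 ^ i =
            ∑ j ∈ J, (if c.e (i + 1) < l j then (1 : ℝ) / 2 ^ i else 0) := by
          rw [← Finset.sum_filter, Finset.sum_const, nsmul_eq_mul]
          ring
        have h6 : (c.cnt i : ℝ) / 2 ^ i =
            ∑ j ∈ J, (if c.e (i + 1) < l j then (1 : ℝ) / 2 ^ i else 0) := h5
        rw [h6]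
        apply Finset.sum_le_sum
        intro j hj
        by_cases h7 : c.e (i + 1) < l j
        · have h8 : E < l j * 2 ^ (i + 1) := (Nat.div_lt_iff_lt_mul (by positivity)).1 h7
          have h9 : (E : ℝ) < (l j : ℝ) * 2 ^ (i + 1) := by exact_mod_cast h8
          have h10 := hl_le j (hJ1 j hj)
          have h11 : (E : ℝ) < γ j * E * 2 ^ (i + 1) :=
            h9.trans_le (mul_le_mul_of_nonneg_right h10 (by positivity))
          have h12 : (1 : ℝ) / 2 ^ i < 2 * γ j := by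
            rw [div_lt_iff₀ (by positivity)]
            rw [pow_succ] at h11
            by_contra hcon
            rw [not_lt] at hcon
            have := mul_le_mul_of_nonneg_left hcon hE0.le
            nlinarith
          rw [if_pos h7, if_pos h12]
        · rw [if_neg h7]
          split_ifs
          · positivity
          · exact le_rfl
      refine (Finset.sum_le_sum h4).trans ?_
      rw [Finset.sum_comm]
      have h5 : ∀ j ∈ J, ∑ i ∈ range c.m,
          (if (1 : ℝ) / 2 ^ i < 2 * γ j then (1 : ℝ) / 2 ^ i else 0) ≤ 4 * γ j := by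
        intro j hj
        rw [← Finset.sum_filter]
        have := geo_filter c.m (2 * γ j) (by have := hγ.pos j (hJ1 j hj); linarith)
        linarith
      refine (Finset.sum_le_sum h5).trans ?_
      rw [← Finset.mul_sum]
      have := hγ.sum J hJ1
      linarith
    · have h4 : (4 : ℝ) * ∑ i ∈ range c.m, (c.cnt i : ℝ) ≤ E := by
        have h5 : ∑ i ∈ range c.m, (c.cnt i : ℝ) ≤ ((n0 : ℝ) + 1) * y := by
          refine (Finset.sum_le_sum fun i _ => hcnt i).trans (le_of_eq ?_)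
          rw [Finset.sum_const, card_range, nsmul_eq_mul, hm]
          push_cast
          ring
        calc (4 : ℝ) * ∑ i ∈ range c.m, (c.cnt i : ℝ) ≤ 4 * (((n0 : ℝ) + 1) * y) := by linarith
          _ = (4 * ((n0 : ℝ) + 1)) * y := by ring
          _ ≤ (E : ℝ) ^ δ * y := mul_le_mul_of_nonneg_right hE5 hy0.le
          _ = E := by rw [mul_comm]; exact hEy.symm
      exact_mod_cast h4
    · intro j hj
      have h4 := hl_le j (hJ1 j hj)
      have h5 := hγ.le_one (hJ1 j hj)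
      have h6 : (l j : ℝ) ≤ E := h4.trans (mul_le_of_le_one_left hE0.le h5)
      exact_mod_cast h6
  have hwE : 2 * w + 20 ≤ E := by
    have h4 : (2 : ℝ) * w + 20 ≤ E := by
      have h5 : (w : ℝ) = B * ((n0 : ℝ) + 1) := by rw [hw]; push_cast; ring
      have h6 : (0 : ℝ) ≤ n0 := Nat.cast_nonneg _
      rw [h5]
      nlinarith
    exact_mod_cast h4
  have hok2 : c.Ok2 w := by
    refine ⟨?_, ?_, ?_, ?_⟩
    · exact pow_pos (primorial_pos _) _
    · intro p hp hpg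
      apply pow_dvd_pow_of_dvd
      unfold primorial
      apply Finset.dvd_prod_of_mem
      have hpg' : p ≤ 2 ^ g := hpg
      exact Finset.mem_filter.2 ⟨mem_range.2 (by omega), hp⟩
    · have h4 : 2 * M ≤ 2 ^ (1 + 2 * (2 ^ g * w)) := by
        calc 2 * M ≤ 2 * 4 ^ (2 ^ g * w) := Nat.mul_le_mul_left 2 hM4
          _ = _ := by
            rw [pow_add, pow_mul 2 2]
            norm_num
      refine h4.trans (Nat.pow_le_pow_right (by norm_num) ?_)
      have h5 : (1 : ℝ) + 2 * (((2 ^ g : ℕ) : ℝ) * w) ≤ E := by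
        have h6 : (w : ℝ) = B * ((n0 : ℝ) + 1) := by rw [hw]; push_cast; ring
        have h7 : (0 : ℝ) ≤ w := Nat.cast_nonneg _
        have h8 : (1 : ℝ) ≤ w := by
          rw [h6]
          have : (0 : ℝ) ≤ n0 := Nat.cast_nonneg _
          nlinarith
        calc (1 : ℝ) + 2 * (((2 ^ g : ℕ) : ℝ) * w) ≤ x * w + 2 * (x * w) := by
              have : (1 : ℝ) ≤ x * w := by nlinarith
              have : ((2 ^ g : ℕ) : ℝ) * w ≤ x * w := mul_le_mul_of_nonneg_right hg1 h7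
              linarith
          _ = x * (3 * B * ((n0 : ℝ) + 1)) := by rw [h6]; ring
          _ ≤ x * (E : ℝ) ^ (δ / 2) := mul_le_mul_of_nonneg_left hE7 hx0.le
          _ = E := hEx.symm
      exact_mod_cast h5
    · change w ≤ E
      omega
  refine ⟨c, w, rfl, hok, hok2, ?_, hwE, ?_, ?_⟩
  · have h4 : (E : ℝ) ≤ 2 ^ (n0 + 1) := by exact_mod_cast hEn0.le
    calc (E : ℝ) ^ B ≤ (2 ^ (n0 + 1)) ^ B := pow_le_pow_left₀ hE0.le h4 B
      _ = 2 ^ w := by rw [← pow_mul, hw, mul_comm]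
  · change 2 * w + 20 ≤ (4 * B + 2) * g
    have h4 : B * (n0 + 1) ≤ B * (2 * g) := Nat.mul_le_mul_left B hgn
    have e : (4 * B + 2) * g = 2 * (B * (2 * g)) + 2 * g := by ring
    rw [e, hw]
    omega
  · intro j hj hjw
    have hγ0 := hγ.pos j hj
    have hγ1 := hγ.le_one hj
    have hρ : (1 : ℝ) ≤ 1 / (1 - δ) := by
      rw [le_div_iff₀ (by linarith)]
      linarith
    have hgE : g ≤ E := by
      have h4 : ((2 ^ g : ℕ) : ℝ) ≤ E := by
        refine hg1.trans ?_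
        rw [hEx]
        have : (1 : ℝ) ≤ (E : ℝ) ^ (δ / 2) := by linarith
        exact le_mul_of_one_le_right hx0.le this
      have h5 : 2 ^ g ≤ E := by exact_mod_cast h4
      have h6 : g < 2 ^ g := Nat.lt_two_pow_self
      omega
    by_cases hjJ : j ∈ J
    · have hs : c.s j = max g (l j) := by
        unfold Cfg.s
        rw [if_pos hjJ]
      have hlE : l j ≤ E := hok.lE j hjJ
      refine ⟨?_, ?_⟩
      · rw [hs]
        have := max_le hgE hlE
        omega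
      · have h4 : 1 / y ≤ γ j := (Finset.mem_filter.1 hjJ).2
        have h5 : (E : ℝ) ^ δ ≤ γ j * E := by
          calc (E : ℝ) ^ δ = 1 / y * (y * (E : ℝ) ^ δ) := by field_simp
            _ = 1 / y * E := by rw [← hEy]
            _ ≤ γ j * E := mul_le_mul_of_nonneg_right h4 hE0.le
        have h6 : γ j * E < (l j : ℝ) + 1 := Nat.lt_floor_add_one _
        have h7 : γ j * E / 2 ≤ l j := by linarith
        have h8 : (l j : ℝ) ≤ c.s j := by
          rw [hs]
          exact_mod_cast le_max_right _ _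
        have h9 : 0 < γ j * E / 2 := by positivity
        have h10 : (0 : ℝ) < c.s j := by linarith
        calc (E : ℝ) / c.s j ≤ E / (γ j * E / 2) :=
              div_le_div_of_nonneg_left hE0.le h9 (by linarith)
          _ = 2 * (γ j) ^ (-1 : ℝ) := by
              rw [Real.rpow_neg_one]
              field_simp
          _ ≤ 2 * (γ j) ^ (-(1 / (1 - δ))) := by
              apply mul_le_mul_of_nonneg_left _ (by norm_num)
              exact Real.rpow_le_rpow_of_exponent_ge hγ0 hγ1 (by linarith)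
    · have hs : c.s j = g := by
        unfold Cfg.s
        rw [if_neg hjJ]
      refine ⟨by rw [hs]; omega, ?_⟩
      have h4 : γ j < 1 / y := by
        by_contra hcon
        exact hjJ (Finset.mem_filter.2 ⟨mem_Ico.2 ⟨hj, hjw⟩, not_lt.1 hcon⟩)
      have h5 : (E : ℝ) ≤ (γ j) ^ (-(1 / (1 - δ))) := by
        have h6 : (1 / y) ^ (-(1 / (1 - δ))) ≤ (γ j) ^ (-(1 / (1 - δ))) :=
          Real.rpow_le_rpow_of_nonpos hγ0 h4.le (by linarith)
        refine le_trans (le_of_eq ?_) h6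
        rw [one_div y, Real.inv_rpow hy0.le, Real.rpow_neg hy0.le, inv_inv, hy,
          ← Real.rpow_mul hE0.le]
        have : (1 - δ) * (1 / (1 - δ)) = 1 := by
          have : (1 - δ) ≠ 0 := by linarith
          field_simp
        rw [this, Real.rpow_one]
      have hg0 : (1 : ℝ) ≤ g := by exact_mod_cast (by omega : 1 ≤ g)
      have h7 : (E : ℝ) / c.s j ≤ E := by
        rw [hs]
        exact div_le_self hE0.le hg0
      have h8 : 0 ≤ (γ j) ^ (-(1 / (1 - δ))) := by positivity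
      linarith

end Pool.Agent.MP_f32cb9_nt.UW
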