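import Pool.Agent.MP_f32cb9_nt.UW.A8

set_option autoImplicit false

open Finset Filter

/-!
# Uniform windows: averages over the sifted set
-/

namespace Pool.Agent.MP_f32cb9_nt.UW

open Pool.Agent.MP_f32cb9_nt

/-- the constant in the moment bound -/
noncomputable def KV (v : ℝ) : ℝ :=
  3 * Real.exp (10 * v) * 2912 ^ v * 2 ^ v / (1 - 4 / 3 * (v / (1 + v)))

theorem KV_pos {v : ℝ} (hρ : 4 / 3 * (v / (1 + v)) < 1) : 0 < KV v := by
  unfold KV
  have : 0 < 1 - 4 / 3 * (v / (1 + v)) := by linarith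
  positivity

/-- a good configuration -/
structure Good (c : Cfg) (w B : ℕ) (δ : ℝ) (γ : ℕ → ℝ) : Prop where
  ok : c.Ok
  ok2 : c.Ok2 w
  EB : (c.E : ℝ) ^ B ≤ (2 : ℝ) ^ w
  wE : 2 * w + 20 ≤ c.E
  wg : 2 * w + 20 ≤ (4 * B + 2) * c.g
  s1 : ∀ j, 1 ≤ j → j < 2 ^ w → c.s j ≤ 2912 * c.E
  s2 : ∀ j, 1 ≤ j → j < 2 ^ w → (c.E : ℝ) / c.s j ≤ 2 * (γ j) ^ (-(1 / (1 - δ)))

theorem good_exists {δ : ℝ} (hδ : 0 < δ) (hδ2 : δ ≤ 1 / 2) (B : ℕ) (hB : 1 ≤ B) :
    ∀ᶠ E : ℕ in atTop, ∀ γ : ℕ → ℝ, Wts γ → ∃ (c : Cfg) (w : ℕ), c.E = E ∧ Good c w B δ γ := by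
  filter_upwards [cfg_exists hδ hδ2 B hB] with E hE γ hγ
  obtain ⟨c, w, h1, h2, h3, h4, h5, h6, h7⟩ := hE γ hγ
  subst h1
  exact ⟨c, w, rfl, h2, h3, h4, h5, h6, fun j a b => (h7 j a b).1, fun j a b => (h7 j a b).2⟩

namespace Cfg

variable {c : Cfg} {w B : ℕ} {δ : ℝ} {γ : ℕ → ℝ}

theorem moment' (h : Good c w B δ γ) (hγ : Wts γ) {j : ℕ} (hj : 1 ≤ j) (hjw : j < 2 ^ w)
    {v : ℝ} (hv : 0 < v) (hρ : 4 / 3 * (v / (1 + v)) < 1) :
    ∑ t ∈ c.I, c.ch t * (1 + v) ^ (c.L j t).primeFactors.card ≤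
      KV v * (γ j) ^ (-(v / (1 - δ))) * ((c.X : ℝ) * c.V) := by
  have h1 := moment_bound h.ok h.ok2 hj hjw (h.s1 j hj hjw) v hv
  have h2 := h.s2 j hj hjw
  have hγ0 := hγ.pos j hj
  have hV := V_pos h.ok
  have hX := c.X_pos
  have h0 : (0 : ℝ) ≤ (c.E : ℝ) / c.s j := by positivity
  have h3 : ((c.E : ℝ) / c.s j) ^ v ≤ 2 ^ v * (γ j) ^ (-(v / (1 - δ))) := by
    refine (Real.rpow_le_rpow h0 h2 hv.le).trans (le_of_eq ?_)
    rw [Real.mul_rpow (by norm_num) (by positivity), ← Real.rpow_mul hγ0.le]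
    congr 2
    ring
  have hpos : 0 < 1 - 4 / 3 * (v / (1 + v)) := by linarith
  have h4 : 3 * Real.exp (10 * v) * ((c.E : ℝ) / c.s j) ^ v * 2912 ^ v * ((c.X : ℝ) * c.V) ≤
      3 * Real.exp (10 * v) * (2 ^ v * (γ j) ^ (-(v / (1 - δ)))) * 2912 ^ v *
        ((c.X : ℝ) * c.V) := by
    gcongr
  have h5 := h1.trans h4
  rw [mul_comm, ← le_div_iff₀ hpos] at h5
  refine h5.trans (le_of_eq ?_)
  unfold KV
  ring

theorem part_one (h : Good c w B δ γ) (hγ : Wts γ) {v : ℝ} (hv : 0 < v)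
    (hρ : 4 / 3 * (v / (1 + v)) < 1) (a : ℕ → ℝ) (ha : ∀ j, 0 ≤ a j) {S : ℝ}
    (hS : ∑ j ∈ Ico 1 (2 ^ w), a j * (γ j) ^ (-(v / (1 - δ))) ≤ S) :
    ∑ t ∈ c.I, c.ch t * ∑ j ∈ Ico 1 (2 ^ w), a j * (1 + v) ^ (c.L j t).primeFactors.card ≤
      KV v * S * ((c.X : ℝ) * c.V) := by
  have hV := V_pos h.ok
  have hX := c.X_pos
  calc ∑ t ∈ c.I, c.ch t * ∑ j ∈ Ico 1 (2 ^ w), a j * (1 + v) ^ (c.L j t).primeFactors.card
      = ∑ j ∈ Ico 1 (2 ^ w), a j * ∑ t ∈ c.I, c.ch t * (1 + v) ^ (c.L j t).primeFactors.card := by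
        simp only [Finset.mul_sum]
        rw [Finset.sum_comm]
        apply Finset.sum_congr rfl
        intro j _
        apply Finset.sum_congr rfl
        intro t _
        ring
    _ ≤ ∑ j ∈ Ico 1 (2 ^ w), a j * (KV v * (γ j) ^ (-(v / (1 - δ))) * ((c.X : ℝ) * c.V)) := by
        apply Finset.sum_le_sum
        intro j hj
        obtain ⟨hj1, hj2⟩ := mem_Ico.1 hj
        exact mul_le_mul_of_nonneg_left (moment' h hγ hj1 hj2 hv hρ) (ha j)
    _ = KV v * (∑ j ∈ Ico 1 (2 ^ w), a j * (γ j) ^ (-(v / (1 - δ)))) * ((c.X : ℝ) * c.V) := by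
        rw [Finset.mul_sum, Finset.sum_mul]
        apply Finset.sum_congr rfl
        intro j _
        ring
    _ ≤ _ := by
        have := KV_pos hρ
        gcongr

open scoped Classical in
theorem part_sq (h : Good c w B δ γ) :
    ∑ t ∈ c.I, c.ch t * ∑ j ∈ Ico 1 (2 ^ w), (if c.Sq (2 ^ (2 * w + 20)) j t then (1 : ℝ) else 0) ≤
      1 / 18 * ((c.X : ℝ) * c.V) := by
  have hV := V_pos h.ok
  have hV2 := V_ge_two h.ok
  have hX := c.X_pos
  have hE6 : (6 : ℝ) ≤ c.E := by exact_mod_cast h.ok.E6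
  have hwE : (w : ℝ) ≤ c.E := by exact_mod_cast h.ok2.wE
  calc ∑ t ∈ c.I, c.ch t * ∑ j ∈ Ico 1 (2 ^ w), (if c.Sq (2 ^ (2 * w + 20)) j t then (1 : ℝ) else 0)
      = ∑ j ∈ Ico 1 (2 ^ w), ∑ t ∈ c.I.filter (fun t => c.Sq (2 ^ (2 * w + 20)) j t), c.ch t := by
        simp only [Finset.mul_sum]
        rw [Finset.sum_comm]
        apply Finset.sum_congr rfl
        intro j _
        rw [Finset.sum_filter]
        apply Finset.sum_congr rfl
        intro t _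
        split_ifs <;> ring
    _ ≤ ∑ _j ∈ Ico 1 (2 ^ w), (6 / 2 ^ (w + 10) * ((c.X : ℝ) * c.V) +
          (2 : ℝ) ^ (1750 * (c.E : ℝ))) := by
        apply Finset.sum_le_sum
        intro j hj
        obtain ⟨hj1, hj2⟩ := mem_Ico.1 hj
        have h1 := sq_event h.ok h.ok2 hj1 hj2 (Q := 2 ^ (2 * w + 20)) Nat.one_le_two_pow
          (Nat.pow_le_pow_right (by norm_num) h.wE)
        have h2 : Real.sqrt ((2 ^ (2 * w + 20) : ℕ) : ℝ) = 2 ^ (w + 10) := by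
          rw [show ((2 ^ (2 * w + 20) : ℕ) : ℝ) = (2 ^ (w + 10)) ^ 2 by
            push_cast; rw [← pow_mul]; congr 1; ring]
          exact Real.sqrt_sq (by positivity)
        rw [h2] at h1
        exact h1
    _ ≤ 2 ^ w * (6 / 2 ^ (w + 10) * ((c.X : ℝ) * c.V) + (2 : ℝ) ^ (1750 * (c.E : ℝ))) := by
        rw [Finset.sum_const, nsmul_eq_mul]
        apply mul_le_mul_of_nonneg_right _ (by positivity)
        rw [Nat.card_Ico]
        have : ((2 ^ w - 1 : ℕ) : ℝ) ≤ ((2 ^ w : ℕ) : ℝ) := by exact_mod_cast Nat.sub_le _ _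
        push_cast at this
        exact this
    _ = 6 / 1024 * ((c.X : ℝ) * c.V) + (2 : ℝ) ^ (w : ℝ) * (2 : ℝ) ^ (1750 * (c.E : ℝ)) := by
        rw [pow_add, Real.rpow_natCast]
        have : (2 : ℝ) ^ w ≠ 0 := by positivity
        field_simp
        norm_num
        ring
    _ ≤ 6 / 1024 * ((c.X : ℝ) * c.V) + 1 / 64 * ((c.X : ℝ) * c.V) := by
        apply add_le_add le_rfl
        rw [← Real.rpow_add (by norm_num)]
        have h3 : (2 : ℝ) ^ ((w : ℝ) + 1750 * (c.E : ℝ)) ≤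
            (2 : ℝ) ^ (-6 + (2912 * (c.E : ℝ) + -(2 * (c.E : ℝ)))) := by
          apply Real.rpow_le_rpow_of_exponent_le (by norm_num)
          linarith
        refine h3.trans ?_
        rw [Real.rpow_add (by norm_num), Real.rpow_add (by norm_num), ← X_rpow]
        have h4 : (2 : ℝ) ^ (-6 : ℝ) = 1 / 64 := by
          rw [show (-6 : ℝ) = -((6 : ℕ) : ℝ) by norm_num, Real.rpow_neg (by norm_num),
            Real.rpow_natCast]
          norm_num
        rw [h4]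
        gcongr
    _ ≤ _ := by
        have : 0 < (c.X : ℝ) * c.V := by positivity
        linarith

open scoped Classical in
theorem part_tau (h : Good c w B δ γ) (z : ℕ → ℝ) (hz : ∀ j, 0 ≤ z j) (N : ℕ) {S : ℝ}
    (hS : ∑ j ∈ Ico (2 ^ w) N, z j * j.divisors.card ≤ S) :
    ∑ t ∈ c.I, c.ch t * ∑ j ∈ Ico (2 ^ w) N,
        (if j < c.M * t then z j * ((c.M * t - j).divisors.card : ℝ) else 0) ≤
      18000 * c.E * S * ((c.X : ℝ) * c.V) := by
  have hV := V_pos h.ok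
  have hX := c.X_pos
  calc ∑ t ∈ c.I, c.ch t * ∑ j ∈ Ico (2 ^ w) N,
        (if j < c.M * t then z j * ((c.M * t - j).divisors.card : ℝ) else 0)
      = ∑ j ∈ Ico (2 ^ w) N, z j * ∑ t ∈ c.I.filter (fun t => j < c.M * t),
          c.ch t * ((c.M * t - j).divisors.card : ℝ) := by
        simp only [Finset.mul_sum]
        rw [Finset.sum_comm]
        apply Finset.sum_congr rfl
        intro j _
        rw [Finset.sum_filter]
        apply Finset.sum_congr rfl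
        intro t _
        split_ifs <;> ring
    _ ≤ ∑ j ∈ Ico (2 ^ w) N, z j * (18000 * c.E * j.divisors.card * ((c.X : ℝ) * c.V)) := by
        apply Finset.sum_le_sum
        intro j hj
        have hj1 : 1 ≤ j := Nat.one_le_two_pow.trans (mem_Ico.1 hj).1
        exact mul_le_mul_of_nonneg_left (sum_tau h.ok h.ok2 hj1) (hz j)
    _ = 18000 * c.E * (∑ j ∈ Ico (2 ^ w) N, z j * j.divisors.card) * ((c.X : ℝ) * c.V) := by
        rw [Finset.mul_sum, Finset.sum_mul]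
        apply Finset.sum_congr rfl
        intro j _
        ring
    _ ≤ _ := by gcongr

/-- the averaging argument -/
theorem many_t (h : c.Ok) (F : ℕ → ℝ) (hF0 : ∀ t ∈ c.I, 0 ≤ F t)
    (hF : ∑ t ∈ c.I, c.ch t * F t ≤ 5 / 18 * ((c.X : ℝ) * c.V)) :
    ∃ T ⊆ c.I, 1 / 18 * ((c.X : ℝ) * c.V) ≤ T.card ∧ ∀ t ∈ T, c.ch t ≠ 0 ∧ F t < 1 := by
  classical
  refine ⟨c.I.filter (fun t => c.ch t ≠ 0 ∧ F t < 1), Finset.filter_subset _ _, ?_,
    fun t ht => (mem_filter.1 ht).2⟩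
  have h1 := lower h
  have h2 : ∑ t ∈ c.I, c.ch t ≤
      ∑ t ∈ c.I, ((if c.ch t ≠ 0 ∧ F t < 1 then (1 : ℝ) else 0) + c.ch t * F t) := by
    apply Finset.sum_le_sum
    intro t ht
    have h3 := hF0 t ht
    rcases ch_zero_or_one (c := c) t with h0 | h0
    · rw [h0, zero_mul]
      split_ifs <;> norm_num
    · rw [h0, one_mul]
      split_ifs with h4
      · linarith
      · push Not at h4
        have := h4 one_ne_zero
        linarith
  rw [Finset.sum_add_distrib, ← Finset.sum_filter, Finset.sum_const, nsmul_eq_mul, mul_one] at h2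
  linarith

end Cfg

end Pool.Agent.MP_f32cb9_nt.UW
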